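import Mathlib

/-!
# Mertens' first theorem

`∑_{p ≤ N} log p / p = log N + O(1)`.
-/

open Finset Nat Real

namespace Pool.Agent.helper91.Mertens

/-- `∑_{p ≤ N} log p / p` -/
noncomputable def M (N : ℕ) : ℝ := ∑ p ∈ primesLE N, Real.log p / p

lemma log_factorial_eq (N : ℕ) :
    Real.log (N ! : ℝ) = ∑ p ∈ primesLE N, ((N !).factorization p : ℝ) * Real.log p := by
  rw [Real.log_nat_eq_sum_factorization]
  refine Finsupp.sum_of_support_subset _ ?_ _ (by simp)
  intro p hp
  rw [Nat.support_factorization, Nat.mem_primeFactors] at hp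
  rw [mem_primesLE]
  exact ⟨(hp.1.dvd_factorial).mp hp.2.1, hp.1⟩

lemma div_le_factorization {p : ℕ} (hp : p.Prime) (N : ℕ) : N / p ≤ (N !).factorization p := by
  rw [factorization_factorial hp (Nat.lt_succ_self (Nat.log p N))]
  rcases lt_or_ge N p with h | h
  · rw [Nat.div_eq_of_lt h]; exact Nat.zero_le _
  · have h1 : 1 ∈ Finset.Ico 1 (Nat.log p N).succ := by
      simp only [Finset.mem_Ico, le_refl, true_and]
      have := Nat.log_pos hp.one_lt h
      omega
    calc N / p = N / p ^ 1 := by rw [pow_one]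
      _ ≤ _ := Finset.single_le_sum (f := fun i => N / p ^ i) (fun _ _ => Nat.zero_le _) h1

lemma factorization_le {p : ℕ} (hp : p.Prime) (N : ℕ) :
    ((N !).factorization p : ℝ) ≤ N / (p - 1) := by
  have h1 := factorization_factorial_le_div_pred hp N
  have h2 : ((N !).factorization p : ℝ) ≤ ((N / (p - 1) : ℕ) : ℝ) := by exact_mod_cast h1
  refine h2.trans ?_
  have h3 : ((p - 1 : ℕ) : ℝ) = (p : ℝ) - 1 := by
    rw [Nat.cast_sub hp.one_le]; simp
  rw [← h3]
  exact Nat.cast_div_le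

theorem upper {N : ℕ} (hN : 1 ≤ N) : M N ≤ Real.log N + Real.log 4 := by
  have hN0 : (0:ℝ) < N := by exact_mod_cast hN
  have h1 : Real.log (N ! : ℝ) ≤ N * Real.log N := by
    rw [← Real.log_pow]
    apply Real.log_le_log (by positivity)
    exact_mod_cast Nat.factorial_le_pow N
  have h2 : (N:ℝ) * M N - Chebyshev.theta N ≤ Real.log (N ! : ℝ) := by
    rw [log_factorial_eq, M, Finset.mul_sum, Chebyshev.theta_eq_sum_primesLE_log, ← Finset.sum_sub_distrib]
    refine Finset.sum_le_sum (fun p hp => ?_)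
    have hp' := prime_of_mem_primesLE hp
    have hlog : 0 ≤ Real.log p := Real.log_natCast_nonneg p
    have hp0 : (0:ℝ) < p := by exact_mod_cast hp'.pos
    have h3 : (N:ℝ) / p - 1 ≤ ((N !).factorization p : ℝ) := by
      have h4 : (N:ℝ) / p - 1 ≤ ((N / p : ℕ) : ℝ) := by
        have := Nat.lt_floor_add_one ((N:ℝ) / p)
        rw [Nat.floor_div_eq_div] at this
        linarith
      exact h4.trans (by exact_mod_cast div_le_factorization hp' N)
    calc (N:ℝ) * (Real.log p / p) - Real.log p = (N / p - 1) * Real.log p := by field_simp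
      _ ≤ _ := by gcongr
  have h3 := Chebyshev.theta_le_log4_mul_x (x := (N:ℝ)) hN0.le
  have h4 : (N:ℝ) * M N ≤ N * (Real.log N + Real.log 4) := by linarith
  exact le_of_mul_le_mul_left h4 hN0

/-- the bounded sum of the terms `log n /(n(n-1))` -/
noncomputable def Cpp : ℝ := ∑' n : ℕ, Real.log n / (n * (n - 1))

lemma summable_pp : Summable (fun n : ℕ => Real.log n / ((n:ℝ) * (n - 1))) := by
  have h1 : Summable (fun n : ℕ => 4 * (1 / (n:ℝ) ^ ((3:ℝ)/2))) :=
    (Real.summable_one_div_nat_rpow.mpr (by norm_num)).mul_left 4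
  refine Summable.of_nonneg_of_le (fun n => ?_) (fun n => ?_) h1
  · rcases Nat.eq_zero_or_pos n with rfl | hn
    · simp
    · have : (1:ℝ) ≤ n := by exact_mod_cast hn
      have := Real.log_natCast_nonneg n
      apply div_nonneg this
      apply mul_nonneg <;> linarith
  · rcases Nat.lt_or_ge n 2 with hn | hn
    · interval_cases n <;> simp
    · have hn' : (2:ℝ) ≤ n := by exact_mod_cast hn
      have hn0 : (0:ℝ) < n := by linarith
      have h2 : Real.log n ≤ (n:ℝ) ^ ((1:ℝ)/2) / (1/2) := Real.log_le_rpow_div hn0.le (by norm_num)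
      have h3 : (n:ℝ)^2 / 2 ≤ (n:ℝ) * (n - 1) := by nlinarith
      calc Real.log n / ((n:ℝ) * (n - 1)) ≤ ((n:ℝ) ^ ((1:ℝ)/2) / (1/2)) / ((n:ℝ)^2 / 2) := by
            gcongr
        _ = 4 * ((n:ℝ) ^ ((1:ℝ)/2) / (n:ℝ)^2) := by ring
        _ = 4 * (1 / (n:ℝ) ^ ((3:ℝ)/2)) := by
            congr 1
            rw [← Real.rpow_natCast, ← Real.rpow_sub hn0, one_div ((n:ℝ) ^ ((3:ℝ)/2)),
              ← Real.rpow_neg hn0.le]
            norm_num

lemma sum_pp_le (N : ℕ) : ∑ p ∈ primesLE N, Real.log p / ((p:ℝ) * (p - 1)) ≤ Cpp := by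
  refine summable_pp.sum_le_tsum _ (fun n _ => ?_)
  rcases Nat.eq_zero_or_pos n with rfl | hn
  · simp
  · have : (1:ℝ) ≤ n := by exact_mod_cast hn
    have := Real.log_natCast_nonneg n
    apply div_nonneg this
    apply mul_nonneg <;> linarith

lemma Cpp_nonneg : 0 ≤ Cpp := by
  have := sum_pp_le 0
  simpa using this

lemma sum_pred_eq (N : ℕ) : ∑ p ∈ primesLE N, Real.log p / ((p:ℝ) - 1) =
    M N + ∑ p ∈ primesLE N, Real.log p / ((p:ℝ) * (p - 1)) := by
  rw [M, ← Finset.sum_add_distrib]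
  refine Finset.sum_congr rfl (fun p hp => ?_)
  have hp' := prime_of_mem_primesLE hp
  have h1 : (2:ℝ) ≤ p := by exact_mod_cast hp'.two_le
  have h2 : (p:ℝ) - 1 ≠ 0 := by linarith
  have h3 : (p:ℝ) ≠ 0 := by linarith
  field_simp
  ring

theorem sum_pred_le {N : ℕ} (hN : 1 ≤ N) :
    ∑ p ∈ primesLE N, Real.log p / ((p:ℝ) - 1) ≤ Real.log N + (Real.log 4 + Cpp) := by
  rw [sum_pred_eq]
  linarith [upper hN, sum_pp_le N]

theorem lower {N : ℕ} (hN : 1 ≤ N) : Real.log N - (1 + Cpp) ≤ M N := by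
  have hN0 : (0:ℝ) < N := by exact_mod_cast hN
  have h1 : (N:ℝ) * Real.log N - N ≤ Real.log (N ! : ℝ) := by
    have := Stirling.le_log_factorial_stirling (n := N) (by omega)
    have h2 : 0 ≤ Real.log N := Real.log_natCast_nonneg N
    have h3 : 0 ≤ Real.log (2 * π) := Real.log_nonneg (by nlinarith [Real.pi_gt_three])
    linarith
  have h2 : Real.log (N ! : ℝ) ≤ N * ∑ p ∈ primesLE N, Real.log p / ((p:ℝ) - 1) := by
    rw [log_factorial_eq, Finset.mul_sum]
    refine Finset.sum_le_sum (fun p hp => ?_)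
    have hp' := prime_of_mem_primesLE hp
    have hlog : 0 ≤ Real.log p := Real.log_natCast_nonneg p
    calc ((N !).factorization p : ℝ) * Real.log p ≤ (N / (p - 1)) * Real.log p := by
          gcongr; exact factorization_le hp' N
      _ = _ := by ring
  rw [sum_pred_eq] at h2
  have h3 := sum_pp_le N
  have h4 : (N:ℝ) * (Real.log N - (1 + Cpp)) ≤ N * M N := by nlinarith
  exact le_of_mul_le_mul_left h4 hN0

theorem abs_le {N : ℕ} (hN : 1 ≤ N) : |M N - Real.log N| ≤ 2 + Cpp := by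
  rw [_root_.abs_le]
  have h1 := upper hN
  have h2 := lower hN
  have h3 : Real.log 4 ≤ 2 := by
    rw [show (4:ℝ) = 2 ^ 2 by norm_num, Real.log_pow]
    have := Real.log_two_lt_d9
    push_cast; linarith
  have h4 := Cpp_nonneg
  constructor <;> linarith

end Pool.Agent.helper91.Mertens
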