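import Pool.Agent.helper91.Basic

/-!
# The alignment lemma
-/

open Finset

namespace Pool.Agent.helper91.D4

/-- the fraction `c/u` lies in `(0,1)` and within `2L/m` of `B/m` -/
def Wit (m B L c u : ℕ) : Prop := 1 ≤ c ∧ c < u ∧ |(c:ℤ) * m - B * u| ≤ 2 * L * u

lemma Sol.wit {a h b k L p u : ℕ} (hs : Sol a h b k) (hhL : h ≤ L) (hkL : k ≤ L)
    (hha : h ≤ a) (hp : p.Prime) (hLp : L < p) (hlt : a + h < p ^ 2)
    (hpu : p * u ∈ Ioc a (a + h)) : ∃ c, Wit (a + h) (b + k) L c u := by
  obtain ⟨y, hy, c, rfl⟩ := hs.transfer hp (by omega) hpu (dvd_mul_right p u) hlt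
  have hb := hs.2.1
  rw [mem_Ioc] at hpu hy
  have hp0 : 0 < p := hp.pos
  refine ⟨c, ?_, ?_, ?_⟩
  · by_contra hc
    have : c = 0 := by omega
    subst this
    simp at hy
  · have : p * c < p * u := by omega
    exact Nat.lt_of_mul_lt_mul_left this
  · have h1 : |((p:ℤ) * c) * ((a + h : ℕ) : ℤ) - ((b + k : ℕ) : ℤ) * (p * u)| ≤ 2 * L * (p * u) := by
      zify at hpu hy hb hhL hkL hha
      push_cast
      obtain ⟨hpu1, hpu2⟩ := hpu
      obtain ⟨hy1, hy2⟩ := hy
      have e1 : (0:ℤ) ≤ b := by positivity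
      have e2 : (0:ℤ) ≤ k := by positivity
      have e3 : (0:ℤ) ≤ h := by positivity
      have e4 : (0:ℤ) ≤ a := by positivity
      set x : ℤ := (p:ℤ) * u with hx
      set y : ℤ := (p:ℤ) * c with hy
      -- y = b' - s, x = m - t
      obtain ⟨s, hs'⟩ : ∃ s : ℤ, s = b + k - y := ⟨_, rfl⟩
      obtain ⟨t, ht⟩ : ∃ t : ℤ, t = a + h - x := ⟨_, rfl⟩
      have hs0 : 0 ≤ s := by linarith
      have hsk : s ≤ k := by linarith
      have ht0 : 0 ≤ t := by linarith
      have hth : t ≤ h := by linarith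
      have hxa : (a:ℤ) ≤ x := hpu1.le
      have h2x : (a:ℤ) + h ≤ 2 * x := by linarith
      have hyy : y = b + k - s := by linarith
      have hxx : x = a + h - t := by linarith
      have key : y * (a + h) - (b + k) * x = (b + k) * t - s * (a + h) := by
        rw [hyy, hxx]; ring
      rw [key, abs_le]
      have f1 : (b + k) * t ≤ x * L := by
        apply mul_le_mul (by linarith) (by linarith) ht0 (by linarith)
      have f2 : s * (a + h) ≤ L * (2 * x) := by
        apply mul_le_mul (by linarith) h2x (by linarith) (by linarith)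
      have f3 : 0 ≤ (b + k) * t := by positivity
      have f4 : 0 ≤ s * (a + h) := by positivity
      have f5 : 0 ≤ x * L := by
        have : (0:ℤ) ≤ x := by linarith
        positivity
      constructor <;> nlinarith
    have h2 : |((p:ℤ) * c) * ((a + h : ℕ) : ℤ) - ((b + k : ℕ) : ℤ) * (p * u)| =
        p * |(c:ℤ) * ((a + h : ℕ) : ℤ) - ((b + k : ℕ) : ℤ) * u| := by
      rw [← Nat.abs_cast p, ← abs_mul]
      congr 1
      rw [Nat.abs_cast]; ring
    rw [h2] at h1
    have h3 : (p:ℤ) * |(c:ℤ) * ((a + h : ℕ) : ℤ) - ((b + k : ℕ) : ℤ) * u| ≤ p * (2 * L * u) := by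
      linarith
    exact le_of_mul_le_mul_left h3 (by exact_mod_cast hp0)

/-- the non-aligned cofactors -/
def Non (a h L us : ℕ) (u : ℕ) : Prop :=
  ∃ p, p.Prime ∧ L < p ∧ a + h < p ^ 2 ∧ p * u ∈ Ioc a (a + h) ∧ ¬ us ∣ p * u

open Classical in
/-- **Alignment lemma**. -/
theorem Sol.align {a h b k L : ℕ} (hs : Sol a h b k) (hhL : h ≤ L) (hkL : k ≤ L)
    (hha : h ≤ a) : ∃ us, 2 ≤ us ∧ ∀ v : ℕ,
      (((Icc 1 v).filter (Non a h L us)).card : ℝ) ≤ 16 * (L / ((a + h : ℕ) : ℝ)) * v ^ 2 := by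
  by_cases hW : ∃ u, ∃ c, Wit (a + h) (b + k) L c u
  swap
  · refine ⟨2, le_refl _, fun v => ?_⟩
    have : (Icc 1 v).filter (Non a h L 2) = ∅ := by
      rw [Finset.filter_eq_empty_iff]
      rintro u _ ⟨p, hp, hLp, hlt, hpu, _⟩
      obtain ⟨c, hc⟩ := hs.wit hhL hkL hha hp hLp hlt hpu
      exact hW ⟨u, c, hc⟩
    rw [this]; simp; positivity
  have hm0 : 0 < a + h := by have := hs.1; omega
  set m := a + h with hm
  set us := Nat.find hW with hus
  obtain ⟨cs, hcs⟩ := Nat.find_spec hW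
  rw [← hus] at hcs
  have hmin : ∀ u c, Wit m (b + k) L c u → us ≤ u := fun u c hc => Nat.find_min' hW ⟨c, hc⟩
  have hcop : Nat.Coprime cs us := by
    by_contra hg
    set g := Nat.gcd cs us with hgdef
    have hg1 : g ≠ 1 := hg
    have hg0 : 0 < g := Nat.gcd_pos_of_pos_left _ hcs.1
    have hg2 : 2 ≤ g := by omega
    obtain ⟨c', hc'⟩ := Nat.gcd_dvd_left cs us
    obtain ⟨u', hu'⟩ := Nat.gcd_dvd_right cs us
    rw [← hgdef] at hc' hu'
    have hw : Wit m (b + k) L c' u' := by
      obtain ⟨h1, h2, h3⟩ := hcs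
      refine ⟨?_, ?_, ?_⟩
      · by_contra hc
        have : c' = 0 := by omega
        rw [this] at hc'; omega
      · rw [hc', hu'] at h2
        exact Nat.lt_of_mul_lt_mul_left h2
      · rw [hc', hu'] at h3
        push_cast at h3
        have h4 : |(g:ℤ) * c' * m - ((b:ℤ) + k) * (g * u')| = g * |(c':ℤ) * m - ((b:ℤ) + k) * u'| := by
          rw [← Nat.abs_cast g, ← abs_mul]
          congr 1
          rw [Nat.abs_cast]; ring
        rw [h4] at h3
        push_cast
        have h5 : (g:ℤ) * |(c':ℤ) * m - ((b:ℤ) + k) * u'| ≤ g * (2 * L * u') := by linarith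
        exact le_of_mul_le_mul_left h5 (by exact_mod_cast hg0)
    have h6 := hmin u' c' hw
    have h7 : 0 < us := by have := hcs.2.1; omega
    have h8 : us = g * u' := hu'
    have : u' < us := by
      rw [h8]
      have : 0 < u' := by
        by_contra hc
        have : u' = 0 := by omega
        rw [this] at h8; omega
      nlinarith
    omega
  have hus2 : 2 ≤ us := by have := hcs.1; have := hcs.2.1; omega
  refine ⟨us, hus2, fun v => ?_⟩
  -- small v
  rcases Nat.lt_or_ge v us with hv | hv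
  · have : (Icc 1 v).filter (Non a h L us) = ∅ := by
      rw [Finset.filter_eq_empty_iff]
      rintro u hu ⟨p, hp, hLp, hlt, hpu, _⟩
      obtain ⟨c, hc⟩ := hs.wit hhL hkL hha hp hLp hlt hpu
      have := hmin u c hc
      rw [mem_Icc] at hu
      omega
    rw [this]; simp; positivity
  -- large v
  have hchoose : ∀ u : ℕ, ∃ c : ℕ, Non a h L us u → (Wit m (b + k) L c u ∧ c * us ≠ cs * u) := by
    intro u
    by_cases hu : Non a h L us u
    · obtain ⟨p, hp, hLp, hlt, hpu, hnd⟩ := hu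
      obtain ⟨c, hc⟩ := hs.wit hhL hkL hha hp hLp hlt hpu
      refine ⟨c, fun _ => ⟨hc, fun heq => hnd ?_⟩⟩
      have h1 : us ∣ cs * u := ⟨c, by rw [← heq]; ring⟩
      exact (hcop.symm.dvd_of_dvd_mul_left h1).mul_left p
    · exact ⟨0, fun h => absurd h hu⟩
  choose c hc using hchoose
  set R : ℕ := (4 * L * v * us) / m with hR
  set f : ℕ → ℤ × ℕ := fun u => ((c u : ℤ) * us - cs * u, u / us) with hf
  have hmaps : ∀ u ∈ (Icc 1 v).filter (Non a h L us), f u ∈ ((Icc (-(R:ℤ)) R).erase 0) ×ˢ (range (v / us + 1)) := by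
    intro u hu
    rw [mem_filter, mem_Icc] at hu
    obtain ⟨⟨hu1, huv⟩, hnon⟩ := hu
    obtain ⟨hw, hne⟩ := hc u hnon
    rw [mem_product, mem_erase, mem_Icc, mem_range]
    refine ⟨⟨?_, ?_⟩, ?_⟩
    · simp only [hf]
      intro h0
      apply hne
      have : ((c u * us : ℕ) : ℤ) = ((cs * u : ℕ) : ℤ) := by push_cast; linarith
      exact_mod_cast this
    · simp only [hf]
      rw [← abs_le]
      -- m |j| ≤ 4 L u us
      have h1 : (m:ℤ) * |(c u : ℤ) * us - cs * u| ≤ 4 * L * u * us := by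
        obtain ⟨_, _, h3⟩ := hw
        obtain ⟨_, _, h4⟩ := hcs
        have h5 : (m:ℤ) * |(c u : ℤ) * us - cs * u| =
            |us * ((c u : ℤ) * m - ((b + k : ℕ) : ℤ) * u) - u * ((cs:ℤ) * m - ((b + k : ℕ) : ℤ) * us)| := by
          rw [← Nat.abs_cast m, ← abs_mul]
          congr 1
          rw [Nat.abs_cast]; ring
        rw [h5]
        refine (abs_sub _ _).trans ?_
        rw [abs_mul, abs_mul, Nat.abs_cast, Nat.abs_cast]
        have h6 : (us:ℤ) * |(c u : ℤ) * m - ((b + k : ℕ) : ℤ) * u| ≤ us * (2 * L * u) := by gcongr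
        have h7 : (u:ℤ) * |(cs:ℤ) * m - ((b + k : ℕ) : ℤ) * us| ≤ u * (2 * L * us) := by gcongr
        linarith
      have h2 : (|(c u : ℤ) * us - cs * u|) * m ≤ 4 * L * v * us := by
        have : (4:ℤ) * L * u * us ≤ 4 * L * v * us := by gcongr
        linarith
      have h3 : (|(c u : ℤ) * us - cs * u|).toNat * m ≤ 4 * L * v * us := by
        have : (((|(c u : ℤ) * us - cs * u|).toNat : ℕ) : ℤ) * m ≤ 4 * L * v * us := by
          rw [Int.toNat_of_nonneg (abs_nonneg _)]; exact h2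
        exact_mod_cast this
      have h4 : (|(c u : ℤ) * us - cs * u|).toNat ≤ R := by
        rw [hR]; exact (Nat.le_div_iff_mul_le hm0).mpr h3
      have h5 : (((|(c u : ℤ) * us - cs * u|).toNat : ℕ) : ℤ) ≤ R := by exact_mod_cast h4
      rwa [Int.toNat_of_nonneg (abs_nonneg _)] at h5
    · simp only [hf]
      have := Nat.div_le_div_right (c := us) huv
      omega
  have hinj : Set.InjOn f ((Icc 1 v).filter (Non a h L us) : Finset ℕ) := by
    intro u hu u' hu' heq
    simp only [hf, Prod.mk.injEq] at heq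
    obtain ⟨h1, h2⟩ := heq
    -- us ∣ u - u'
    have h3 : ((c u : ℤ) - c u') * us = cs * ((u:ℤ) - u') := by linarith
    have h4 : (us:ℤ) ∣ cs * ((u:ℤ) - u') := ⟨(c u : ℤ) - c u', by rw [← h3]; ring⟩
    have h5 : IsCoprime (us:ℤ) (cs:ℤ) := Nat.isCoprime_iff_coprime.mpr hcop.symm
    have h6 : (us:ℤ) ∣ (u:ℤ) - u' := h5.dvd_of_dvd_mul_left h4
    have h7 : u' % us = u % us := by
      have := (Nat.modEq_iff_dvd (n := us) (a := u') (b := u)).mpr h6
      exact this
    rw [← Nat.div_add_mod u us, ← Nat.div_add_mod u' us, h2, h7]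
  have hcard : ((Icc 1 v).filter (Non a h L us)).card ≤ (2 * R) * (v / us + 1) := by
    calc _ ≤ (((Icc (-(R:ℤ)) R).erase 0) ×ˢ (range (v / us + 1))).card :=
          Finset.card_le_card_of_injOn f hmaps hinj
      _ = _ := by
          rw [card_product, card_erase_of_mem (by simp), Int.card_Icc, card_range]
          congr 1
          omega
  have hus0 : (0:ℝ) < us := by exact_mod_cast (by omega : 0 < us)
  have hm0' : (0:ℝ) < m := by exact_mod_cast hm0
  calc (((Icc 1 v).filter (Non a h L us)).card : ℝ) ≤ (2 * R) * ((v / us : ℕ) + 1) := by exact_mod_cast hcard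
    _ ≤ (2 * (4 * L * v * us / m)) * (2 * (v / us)) := by
        have h1 : (R:ℝ) ≤ 4 * L * v * us / m := by
          rw [hR]
          have := Nat.cast_div_le (α := ℝ) (m := 4 * L * v * us) (n := m)
          push_cast at this
          exact this
        have h2 : ((v / us : ℕ) : ℝ) ≤ v / us := Nat.cast_div_le
        have h3 : (1:ℝ) ≤ v / us := by rw [one_le_div hus0]; exact_mod_cast hv
        gcongr
        linarith
    _ = 16 * (L / m) * v ^ 2 := by field_simp; ring

end Pool.Agent.helper91.D4
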