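import Mathlib

/-!
# Blocks of consecutive integers and their prime factorizations
-/

open Finset
open scoped Nat

namespace Pool.Agent.helper91.D4

/-- product of the block `(a, a+k]` -/
def blk (a k : ℕ) : ℕ := ∏ x ∈ Ioc a (a + k), x

lemma blk_pos (a k : ℕ) : 0 < blk a k := by
  unfold blk
  refine Finset.prod_pos (fun x hx => ?_)
  rw [mem_Ioc] at hx; omega

@[simp] lemma blk_zero (a : ℕ) : blk a 0 = 1 := by simp [blk]

lemma blk_succ (a k : ℕ) : blk a (k + 1) = blk a k * (a + k + 1) := by
  unfold blk
  rw [← add_assoc, Finset.prod_Ioc_succ_top (by omega : a ≤ a + k)]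

lemma blk_mul_factorial (a k : ℕ) : blk a k * a ! = (a + k)! := by
  induction k with
  | zero => simp
  | succ k ih =>
    rw [blk_succ, mul_right_comm, ih, ← add_assoc, Nat.factorial_succ]; ring

lemma blk_eq_choose (a k : ℕ) : blk a k = k ! * (a + k).choose k := by
  have h1 := blk_mul_factorial a k
  have h2 := Nat.add_choose_mul_factorial_mul_factorial a k
  have h3 : (a + k).choose k = (a + k).choose a := by
    rw [Nat.choose_symm_add]
  have h4 : 0 < a ! := Nat.factorial_pos a
  apply Nat.eq_of_mul_eq_mul_right h4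
  rw [h1, ← h2, h3]; ring

/-- A solution of the two-block square problem: the product of `(a, a+h]` and `(b, b+k]`
is a perfect square, and the second block lies below the first. -/
def Sol (a h b k : ℕ) : Prop := 1 ≤ h ∧ b + k ≤ a ∧ IsSquare (blk a h * blk b k)

lemma blk_factorization (a k p : ℕ) :
    (blk a k).factorization p = ∑ x ∈ Ioc a (a + k), x.factorization p := by
  unfold blk
  rw [Nat.factorization_prod_apply]
  intro x hx
  rw [mem_Ioc] at hx; omega

lemma even_of_isSquare {n : ℕ} (h : IsSquare n) (p : ℕ) : Even (n.factorization p) := by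
  obtain ⟨r, rfl⟩ := h
  rcases Nat.eq_zero_or_pos r with rfl | hr
  · simp
  · rw [Nat.factorization_mul hr.ne' hr.ne', Finsupp.add_apply]
    exact ⟨_, rfl⟩

lemma Sol.even {a h b k : ℕ} (hs : Sol a h b k) (p : ℕ) :
    Even ((blk a h).factorization p + (blk b k).factorization p) := by
  have := even_of_isSquare hs.2.2 p
  rwa [Nat.factorization_mul (blk_pos _ _).ne' (blk_pos _ _).ne', Finsupp.add_apply] at this

lemma Sol.odd_iff {a h b k : ℕ} (hs : Sol a h b k) (p : ℕ) :
    Odd ((blk a h).factorization p) ↔ Odd ((blk b k).factorization p) := by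
  have := hs.even p
  rw [Nat.even_add] at this
  rw [← Nat.not_even_iff_odd, ← Nat.not_even_iff_odd, this]

/-- uniqueness of multiples of a large prime in a block -/
lemma eq_of_dvd_of_dvd {a k p x y : ℕ} (hp : k ≤ p) (hx : x ∈ Ioc a (a + k)) (hy : y ∈ Ioc a (a + k))
    (hpx : p ∣ x) (hpy : p ∣ y) : x = y := by
  rw [mem_Ioc] at hx hy
  by_contra hne
  rcases Nat.lt_or_gt_of_ne hne with h | h
  · have h1 : p ∣ y - x := Nat.dvd_sub hpy hpx
    have h2 := Nat.le_of_dvd (by omega) h1
    omega
  · have h1 : p ∣ x - y := Nat.dvd_sub hpx hpy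
    have h2 := Nat.le_of_dvd (by omega) h1
    omega

lemma blk_factorization_of_dvd {a k p x : ℕ} (hp : k ≤ p) (hx : x ∈ Ioc a (a + k))
    (hpx : p ∣ x) : (blk a k).factorization p = x.factorization p := by
  rw [blk_factorization]
  refine Finset.sum_eq_single x (fun y hy hne => ?_) (fun h => absurd hx h)
  apply Nat.factorization_eq_zero_of_not_dvd
  intro hpy
  exact hne (eq_of_dvd_of_dvd hp hy hx hpy hpx)

lemma exists_dvd_of_dvd_blk {a k p : ℕ} (hp : p.Prime) (h : p ∣ blk a k) :
    ∃ x ∈ Ioc a (a + k), p ∣ x := by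
  unfold blk at h
  exact (hp.prime.dvd_finsetProd_iff _).mp h

lemma dvd_blk_of_mem {a k x : ℕ} (hx : x ∈ Ioc a (a + k)) : x ∣ blk a k :=
  Finset.dvd_prod_of_mem _ hx

lemma dvd_of_odd_factorization {n p : ℕ} (h : Odd (n.factorization p)) : p ∣ n := by
  apply Nat.dvd_of_factorization_pos
  intro h0
  rw [h0] at h
  exact absurd h (by decide)

/-- `v_p(x) = 1` if `p ∣ x < p^2`. -/
lemma factorization_eq_one {p x : ℕ} (hp : p.Prime) (hx : 0 < x) (hpx : p ∣ x) (hlt : x < p ^ 2) :
    x.factorization p = 1 := by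
  have h1 : 1 ≤ x.factorization p := (hp.dvd_iff_one_le_factorization hx.ne').mp hpx
  have h2 : x.factorization p < 2 := by
    by_contra hc
    push Not at hc
    have h3 := (hp.pow_dvd_iff_le_factorization hx.ne').mpr hc
    have h4 := Nat.le_of_dvd hx h3
    omega
  omega

/-- A prime that is large compared with the block lengths and with `√m` and which divides
the first block also divides a member of the second one. -/
lemma Sol.transfer {a h b k p x : ℕ} (hs : Sol a h b k) (hp : p.Prime) (hph : h ≤ p)
    (hx : x ∈ Ioc a (a + h)) (hpx : p ∣ x) (hlt : a + h < p ^ 2) :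
    ∃ y ∈ Ioc b (b + k), p ∣ y := by
  have hx' := mem_Ioc.mp hx
  have h1 : (blk a h).factorization p = 1 := by
    rw [blk_factorization_of_dvd hph hx hpx]
    exact factorization_eq_one hp (by omega) hpx (by omega)
  have h2 : Odd ((blk b k).factorization p) := (hs.odd_iff p).mp (by rw [h1]; decide)
  exact exists_dvd_of_dvd_blk hp (dvd_of_odd_factorization h2)

end Pool.Agent.helper91.D4
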