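import Mathlib

/-!
# A weak Brun–Titchmarsh inequality by Selberg's sieve

The number of primes in `(a, a+H]` is at most `20 H / log H`.
-/

open Finset Nat Real
open scoped ArithmeticFunction.Moebius ArithmeticFunction

namespace Pool.Agent.helper91.BT

/-- squarefree numbers up to `z` -/
def D (z : ℕ) : Finset ℕ := (Finset.Icc 1 z).filter Squarefree

lemma mem_D {z d : ℕ} : d ∈ D z ↔ (1 ≤ d ∧ d ≤ z) ∧ Squarefree d := by simp [D]

lemma D_of_dvd {z d e : ℕ} (hd : d ∈ D z) (he : e ∣ d) : e ∈ D z := by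
  rw [mem_D] at hd ⊢
  refine ⟨⟨Nat.pos_of_dvd_of_pos he hd.1.1, (Nat.le_of_dvd hd.1.1 he).trans hd.1.2⟩,
    hd.2.squarefree_of_dvd he⟩

noncomputable def G (z : ℕ) : ℝ := ∑ d ∈ D z, 1 / (φ d : ℝ)

noncomputable def y (z δ : ℕ) : ℝ := (μ δ : ℝ) / (φ δ * G z)

noncomputable def lam (z d : ℕ) : ℝ := d * ∑ δ ∈ (D z).filter (fun δ => d ∣ δ), (μ (δ / d) : ℝ) * y z δ

lemma G_ge_sum_inv (z : ℕ) : ∑ d ∈ D z, 1 / (d : ℝ) ≤ G z := by
  refine Finset.sum_le_sum (fun d hd => ?_)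
  rw [mem_D] at hd
  have h1 : 0 < φ d := Nat.totient_pos.mpr hd.1.1
  have h2 : φ d ≤ d := Nat.totient_le d
  gcongr

lemma sum_inv_sq_le (z : ℕ) : ∑ s ∈ Finset.Icc 1 z, 1 / (s : ℝ) ^ 2 ≤ 2 := by
  have h : ∀ z : ℕ, 1 ≤ z → ∑ s ∈ Finset.Icc 1 z, 1 / (s : ℝ) ^ 2 ≤ 2 - 1 / (z : ℝ) := by
    intro z hz
    induction z, hz using Nat.le_induction with
    | base => norm_num
    | succ n hn ih =>
      rw [Finset.sum_Icc_succ_top (by omega)]
      have hn0 : (0:ℝ) < n := by exact_mod_cast hn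
      push_cast
      have : 1 / ((n:ℝ) + 1) ^ 2 ≤ 1 / n - 1 / (n + 1) := by
        rw [div_sub_div _ _ hn0.ne' (by positivity), div_le_div_iff₀ (by positivity) (by positivity)]
        nlinarith
      linarith
  rcases Nat.eq_zero_or_pos z with rfl | hz
  · simp
  · have := h z hz
    have hz' : (0:ℝ) < z := by exact_mod_cast hz
    have h2 : (0:ℝ) < 1 / (z:ℝ) := by positivity
    linarith

lemma sum_inv_le (z : ℕ) : ∑ n ∈ Finset.Icc 1 z, 1 / (n : ℝ) ≤ 2 * G z := by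
  have h1 : ∑ n ∈ Finset.Icc 1 z, 1 / (n : ℝ) ≤
      ∑ q ∈ (D z) ×ˢ (Finset.Icc 1 z), 1 / ((q.1 : ℝ) * (q.2:ℝ)^2) := by
    classical
    -- choose for each n a pair (squarefree, square root)
    have hex : ∀ n : ℕ, ∃ q : ℕ × ℕ, q.2 ^ 2 * q.1 = n ∧ Squarefree q.1 := by
      intro n
      obtain ⟨a, b, h1, h2⟩ := Nat.sq_mul_squarefree n
      exact ⟨(a, b), h1, h2⟩
    choose f hf1 hf2 using hex
    have hinj : Set.InjOn f (Finset.Icc 1 z : Finset ℕ) := by
      intro a _ b _ hab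
      rw [← hf1 a, ← hf1 b, hab]
    have himg : (Finset.Icc 1 z).image f ⊆ (D z) ×ˢ (Finset.Icc 1 z) := by
      intro q hq
      rw [Finset.mem_image] at hq
      obtain ⟨n, hn, rfl⟩ := hq
      rw [Finset.mem_Icc] at hn
      have h3 := hf1 n
      have hpos1 : 0 < (f n).1 := Nat.pos_of_ne_zero (fun h => by rw [h] at h3; omega)
      have hpos2 : 0 < (f n).2 := Nat.pos_of_ne_zero (fun h => by rw [h] at h3; simp at h3; omega)
      have hle1 : (f n).1 ≤ n := Nat.le_of_dvd (by omega) ⟨(f n).2^2, by rw [mul_comm]; exact h3.symm⟩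
      have hle2 : (f n).2 ≤ n := Nat.le_of_dvd (by omega) ⟨(f n).2 * (f n).1, by rw [← mul_assoc, ← sq]; exact h3.symm⟩
      rw [Finset.mem_product, mem_D, Finset.mem_Icc]
      exact ⟨⟨⟨hpos1, by omega⟩, hf2 n⟩, hpos2, by omega⟩
    calc ∑ n ∈ Finset.Icc 1 z, 1 / (n : ℝ) = ∑ n ∈ Finset.Icc 1 z, 1 / (((f n).1 : ℝ) * ((f n).2:ℝ)^2) := by
          refine Finset.sum_congr rfl (fun n _ => ?_)
          congr 1
          have := hf1 n
          nth_rewrite 1 [← this]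
          push_cast; ring
      _ = ∑ q ∈ (Finset.Icc 1 z).image f, 1 / ((q.1 : ℝ) * (q.2:ℝ)^2) := by
          rw [Finset.sum_image hinj]
      _ ≤ _ := Finset.sum_le_sum_of_subset_of_nonneg himg (fun _ _ _ => by positivity)
  have h2 : ∑ q ∈ (D z) ×ˢ (Finset.Icc 1 z), 1 / ((q.1 : ℝ) * (q.2:ℝ)^2) =
      (∑ d ∈ D z, 1 / (d:ℝ)) * ∑ s ∈ Finset.Icc 1 z, 1 / (s : ℝ) ^ 2 := by
    rw [Finset.sum_mul_sum, Finset.sum_product]
    refine Finset.sum_congr rfl (fun d _ => Finset.sum_congr rfl (fun s _ => ?_))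
    simp only
    rw [_root_.div_mul_div_comm, one_mul]
  rw [h2] at h1
  have h3 := sum_inv_sq_le z
  have h4 := G_ge_sum_inv z
  have h5 : 0 ≤ ∑ d ∈ D z, 1 / (d:ℝ) := Finset.sum_nonneg (fun _ _ => by positivity)
  have h6 : 0 ≤ ∑ s ∈ Finset.Icc 1 z, 1 / (s : ℝ) ^ 2 := Finset.sum_nonneg (fun _ _ => by positivity)
  nlinarith

lemma G_ge_log (z : ℕ) : Real.log (z + 1) / 2 ≤ G z := by
  have h1 := sum_inv_le z
  have h2 := log_add_one_le_harmonic z
  rw [harmonic_eq_sum_Icc] at h2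
  push_cast at h2
  have h3 : ∑ n ∈ Finset.Icc 1 z, ((n:ℝ))⁻¹ = ∑ n ∈ Finset.Icc 1 z, 1 / (n : ℝ) := by simp
  rw [h3] at h2
  linarith

lemma G_pos {z : ℕ} (hz : 1 ≤ z) : 0 < G z := by
  have := G_ge_log z
  have h2 : 0 < Real.log (z + 1) := Real.log_pos (by have : (1:ℝ) ≤ z := by exact_mod_cast hz
                                                     linarith)
  linarith

lemma mu_sq_of_squarefree {d : ℕ} (hd : Squarefree d) : (μ d : ℝ) * (μ d : ℝ) = 1 := by
  have h := (ArithmeticFunction.moebius_ne_zero_iff_eq_or (n := d)).mp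
    (ArithmeticFunction.moebius_ne_zero_iff_squarefree.mpr hd)
  rcases h with h | h <;> rw [h] <;> norm_num

lemma lam_one {z : ℕ} (hz : 1 ≤ z) : lam z 1 = 1 := by
  unfold lam y
  have hG := G_pos hz
  simp only [Nat.cast_one, one_mul, one_dvd, Finset.filter_true, Nat.div_one]
  have : ∑ δ ∈ D z, (μ δ : ℝ) * ((μ δ : ℝ) / (φ δ * G z)) = ∑ δ ∈ D z, (1 / (φ δ : ℝ)) / G z := by
    refine Finset.sum_congr rfl (fun δ hδ => ?_)
    rw [mul_div_assoc', mu_sq_of_squarefree (mem_D.mp hδ).2, div_div]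
  rw [this, ← Finset.sum_div]
  exact div_self hG.ne'

lemma abs_mu_le_one (n : ℕ) : |(μ n : ℝ)| ≤ 1 := by
  exact_mod_cast ArithmeticFunction.abs_moebius_le_one

lemma abs_lam_le {z d : ℕ} (hz : 1 ≤ z) : |lam z d| ≤ d := by
  unfold lam
  rw [abs_mul, Nat.abs_cast]
  have hG := G_pos hz
  have h1 : |∑ δ ∈ (D z).filter (fun δ => d ∣ δ), (μ (δ / d) : ℝ) * y z δ| ≤ 1 := by
    calc _ ≤ ∑ δ ∈ (D z).filter (fun δ => d ∣ δ), |(μ (δ / d) : ℝ) * y z δ| := Finset.abs_sum_le_sum_abs _ _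
      _ ≤ ∑ δ ∈ (D z).filter (fun δ => d ∣ δ), (1 / (φ δ : ℝ)) / G z := by
          refine Finset.sum_le_sum (fun δ _ => ?_)
          rw [abs_mul, y, abs_div, abs_mul, Nat.abs_cast, abs_of_pos hG, div_div]
          have h2 := abs_mu_le_one (δ / d)
          have h3 := abs_mu_le_one δ
          have h4 : 0 ≤ (φ δ : ℝ) * G z := by positivity
          calc |(μ (δ / d) : ℝ)| * (|(μ δ : ℝ)| / (φ δ * G z)) ≤ 1 * (1 / (φ δ * G z)) := by gcongr
            _ = _ := one_mul _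
      _ ≤ ∑ δ ∈ D z, (1 / (φ δ : ℝ)) / G z :=
          Finset.sum_le_sum_of_subset_of_nonneg (Finset.filter_subset _ _) (fun _ _ _ => by positivity)
      _ = 1 := by rw [← Finset.sum_div]; exact div_self hG.ne'
  calc (d:ℝ) * _ ≤ d * 1 := by gcongr
    _ = d := mul_one _

/-- Moebius inversion over multiples -/
lemma sum_lam_div {z δ : ℕ} (hδ : δ ∈ D z) :
    ∑ d ∈ (D z).filter (fun d => δ ∣ d), lam z d / d = y z δ := by
  have hδ0 : 0 < δ := (mem_D.mp hδ).1.1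
  have h1 : ∑ d ∈ (D z).filter (fun d => δ ∣ d), lam z d / d =
      ∑ d ∈ (D z).filter (fun d => δ ∣ d), ∑ δ' ∈ (D z).filter (fun δ' => d ∣ δ'), (μ (δ' / d) : ℝ) * y z δ' := by
    refine Finset.sum_congr rfl (fun d hd => ?_)
    have hd0 : 0 < d := (mem_D.mp (Finset.mem_filter.mp hd).1).1.1
    have : (d:ℝ) ≠ 0 := by positivity
    unfold lam
    field_simp
  rw [h1]
  have h2 : ∑ d ∈ (D z).filter (fun d => δ ∣ d), ∑ δ' ∈ (D z).filter (fun δ' => d ∣ δ'), (μ (δ' / d) : ℝ) * y z δ' =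
      ∑ δ' ∈ (D z).filter (fun d => δ ∣ d), ∑ d ∈ (δ'.divisors).filter (fun d => δ ∣ d), (μ (δ' / d) : ℝ) * y z δ' := by
    rw [Finset.sum_comm']
    intro d δ'
    simp only [Finset.mem_filter, Nat.mem_divisors]
    constructor
    · rintro ⟨⟨hd, hδd⟩, hδ', hdd⟩
      exact ⟨⟨⟨hdd, (Nat.pos_of_ne_zero (fun h => by rw [h, mem_D] at hδ'; omega)).ne'⟩, hδd⟩, hδ', hδd.trans hdd⟩
    · rintro ⟨⟨⟨hdd, _⟩, hδd⟩, hδ', _⟩
      exact ⟨⟨D_of_dvd hδ' hdd, hδd⟩, hδ', hdd⟩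
  rw [h2]
  have h3 : ∀ δ' ∈ (D z).filter (fun d => δ ∣ d),
      ∑ d ∈ (δ'.divisors).filter (fun d => δ ∣ d), (μ (δ' / d) : ℝ) * y z δ' = if δ' = δ then y z δ else 0 := by
    intro δ' hδ'
    rw [Finset.mem_filter, mem_D] at hδ'
    obtain ⟨⟨hr, hsq⟩, hdv⟩ := hδ'
    obtain ⟨m, rfl⟩ := hdv
    have hm0 : 0 < m := Nat.pos_of_ne_zero (fun h => by rw [h] at hr; simp at hr)
    have h4 : ((δ * m).divisors).filter (fun d => δ ∣ d) = m.divisors.image (fun e => δ * e) := by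
      ext d
      simp only [Finset.mem_filter, Nat.mem_divisors, Finset.mem_image]
      constructor
      · rintro ⟨⟨h5, h6⟩, e, rfl⟩
        exact ⟨e, ⟨Nat.dvd_of_mul_dvd_mul_left hδ0 h5, hm0.ne'⟩, rfl⟩
      · rintro ⟨e, ⟨h5, _⟩, rfl⟩
        exact ⟨⟨mul_dvd_mul_left δ h5, by positivity⟩, dvd_mul_right _ _⟩
    rw [h4, Finset.sum_image (fun a _ b _ hab => Nat.eq_of_mul_eq_mul_left hδ0 hab)]
    have h5 : ∀ e ∈ m.divisors, (μ (δ * m / (δ * e)) : ℝ) * y z (δ * m) = (μ (m / e) : ℝ) * y z (δ * m) := by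
      intro e _
      rw [Nat.mul_div_mul_left _ _ hδ0]
    rw [Finset.sum_congr rfl h5, ← Finset.sum_mul]
    rw [Nat.sum_div_divisors m (fun e => (μ e : ℝ))]
    have h6 : ∑ e ∈ m.divisors, (μ e : ℝ) = if m = 1 then 1 else 0 := by
      have := congrArg (fun f => f m) ArithmeticFunction.moebius_mul_coe_zeta
      simp only [ArithmeticFunction.coe_mul_zeta_apply, ArithmeticFunction.one_apply] at this
      exact_mod_cast this
    rw [h6]
    by_cases hm : m = 1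
    · subst hm; simp
    · have : δ * m ≠ δ := by
        intro h
        apply hm
        exact Nat.eq_of_mul_eq_mul_left hδ0 (by rw [h, mul_one])
      simp [hm, hδ0.ne']
  rw [Finset.sum_congr rfl h3, Finset.sum_ite_eq']
  rw [if_pos]
  rw [Finset.mem_filter]
  exact ⟨hδ, dvd_refl _⟩

/-- the Selberg weight -/
noncomputable def W (z n : ℕ) : ℝ := (∑ d ∈ (D z).filter (fun d => d ∣ n), lam z d) ^ 2

lemma W_nonneg (z n : ℕ) : 0 ≤ W z n := sq_nonneg _

lemma W_prime {z p : ℕ} (hz : 1 ≤ z) (hp : p.Prime) (hzp : z < p) : W z p = 1 := by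
  have h : (D z).filter (fun d => d ∣ p) = {1} := by
    ext d
    simp only [Finset.mem_filter, mem_D, Finset.mem_singleton]
    constructor
    · rintro ⟨⟨⟨h1, h2⟩, _⟩, h3⟩
      rcases (Nat.dvd_prime hp).mp h3 with h | h
      · exact h
      · omega
    · rintro rfl
      exact ⟨⟨⟨le_refl _, hz⟩, squarefree_one⟩, one_dvd _⟩
  unfold W
  rw [h, Finset.sum_singleton, lam_one hz]
  norm_num

/-- count of multiples in a block -/
lemma count_dvd (a H m : ℕ) (hm : 0 < m) :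
    |(((Finset.Ioc a (a + H)).filter (fun n => m ∣ n)).card : ℝ) - H / m| ≤ 1 := by
  have h1 : ((Finset.Ioc a (a + H)).filter (fun n => m ∣ n)).card = (a + H) / m - a / m := by
    have h := Nat.Ioc_filter_dvd_card_eq_div (a + H) m
    have h' := Nat.Ioc_filter_dvd_card_eq_div a m
    have hd : (Finset.Ioc 0 (a + H)).filter (fun n => m ∣ n) =
        (Finset.Ioc 0 a).filter (fun n => m ∣ n) ∪ (Finset.Ioc a (a + H)).filter (fun n => m ∣ n) := by
      ext n; simp only [Finset.mem_filter, Finset.mem_union, Finset.mem_Ioc]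
      constructor
      · rintro ⟨⟨h1, h2⟩, h3⟩
        by_cases h4 : n ≤ a
        · exact Or.inl ⟨⟨h1, h4⟩, h3⟩
        · exact Or.inr ⟨⟨by omega, h2⟩, h3⟩
      · rintro (⟨⟨h1, h2⟩, h3⟩ | ⟨⟨h1, h2⟩, h3⟩)
        · exact ⟨⟨h1, by omega⟩, h3⟩
        · exact ⟨⟨by omega, h2⟩, h3⟩
    have hdisj : Disjoint ((Finset.Ioc 0 a).filter (fun n => m ∣ n)) ((Finset.Ioc a (a + H)).filter (fun n => m ∣ n)) := by
      rw [Finset.disjoint_left]
      intro n h1 h2
      simp only [Finset.mem_filter, Finset.mem_Ioc] at h1 h2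
      omega
    rw [hd, Finset.card_union_of_disjoint hdisj, h'] at h
    omega
  have h2 : a / m ≤ (a + H) / m := Nat.div_le_div_right (by omega)
  rw [h1, Nat.cast_sub h2]
  have hm' : (0:ℝ) < m := by exact_mod_cast hm
  have e1 : ((a / m : ℕ) : ℝ) ≤ a / m := Nat.cast_div_le
  have e2 : (((a + H) / m : ℕ) : ℝ) ≤ ((a + H : ℕ) : ℝ) / m := Nat.cast_div_le
  have e3 : (a : ℝ) / m < ((a / m : ℕ) : ℝ) + 1 := by
    have := Nat.lt_floor_add_one ((a:ℝ) / m)
    rwa [Nat.floor_div_eq_div] at this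
  have e4 : ((a + H : ℕ) : ℝ) / m < (((a + H) / m : ℕ) : ℝ) + 1 := by
    have := Nat.lt_floor_add_one (((a + H : ℕ):ℝ) / m)
    rwa [Nat.floor_div_eq_div] at this
  have e5 : ((a + H : ℕ) : ℝ) / m = a / m + H / m := by push_cast; ring
  rw [abs_le]
  constructor <;> linarith

lemma quad_form {z : ℕ} (hz : 1 ≤ z) :
    ∑ d ∈ D z, ∑ e ∈ D z, lam z d * lam z e / (Nat.lcm d e : ℝ) = 1 / G z := by
  have h1 : ∀ d ∈ D z, ∀ e ∈ D z, lam z d * lam z e / (Nat.lcm d e : ℝ) =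
      ∑ δ ∈ D z, (φ δ : ℝ) * ((if δ ∣ d then lam z d / d else 0) * (if δ ∣ e then lam z e / e else 0)) := by
    intro d hd e he
    have hd0 : 0 < d := (mem_D.mp hd).1.1
    have he0 : 0 < e := (mem_D.mp he).1.1
    have hg : (Nat.gcd d e : ℝ) = ∑ δ ∈ (Nat.gcd d e).divisors, (φ δ : ℝ) := by
      have := Nat.sum_totient (Nat.gcd d e)
      exact_mod_cast this.symm
    have hl : (Nat.lcm d e : ℝ) ≠ 0 := by exact_mod_cast (Nat.lcm_pos hd0 he0).ne'
    have hd' : (d:ℝ) ≠ 0 := by positivity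
    have he' : (e:ℝ) ≠ 0 := by positivity
    have hgl : (Nat.gcd d e : ℝ) * Nat.lcm d e = d * e := by exact_mod_cast Nat.gcd_mul_lcm d e
    have h2 : lam z d * lam z e / (Nat.lcm d e : ℝ) = (Nat.gcd d e : ℝ) * (lam z d / d * (lam z e / e)) := by
      field_simp
      linear_combination (-(lam z d * lam z e)) * hgl
    rw [h2, hg, Finset.sum_mul]
    have h3 : (D z).filter (fun δ => δ ∣ d ∧ δ ∣ e) = (Nat.gcd d e).divisors := by
      ext δ
      simp only [Finset.mem_filter, Nat.mem_divisors]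
      constructor
      · rintro ⟨_, h3, h4⟩
        exact ⟨Nat.dvd_gcd h3 h4, (Nat.gcd_pos_of_pos_left _ hd0).ne'⟩
      · rintro ⟨h3, _⟩
        have h4 := h3.trans (Nat.gcd_dvd_left d e)
        exact ⟨D_of_dvd hd h4, h4, h3.trans (Nat.gcd_dvd_right d e)⟩
    rw [← h3, Finset.sum_filter]
    refine Finset.sum_congr rfl (fun δ _ => ?_)
    by_cases ha : δ ∣ d <;> by_cases hb : δ ∣ e <;> simp [ha, hb]
  have h2 : ∑ d ∈ D z, ∑ e ∈ D z, lam z d * lam z e / (Nat.lcm d e : ℝ) =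
      ∑ d ∈ D z, ∑ e ∈ D z, ∑ δ ∈ D z, (φ δ : ℝ) * ((if δ ∣ d then lam z d / d else 0) * (if δ ∣ e then lam z e / e else 0)) :=
    Finset.sum_congr rfl (fun d hd => Finset.sum_congr rfl (fun e he => h1 d hd e he))
  rw [h2]
  have h3 : ∑ d ∈ D z, ∑ e ∈ D z, ∑ δ ∈ D z, (φ δ : ℝ) * ((if δ ∣ d then lam z d / d else 0) * (if δ ∣ e then lam z e / e else 0))
      = ∑ δ ∈ D z, (φ δ : ℝ) * ((∑ d ∈ D z, if δ ∣ d then lam z d / d else 0) * (∑ e ∈ D z, if δ ∣ e then lam z e / e else 0)) := by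
    have : ∀ d ∈ D z, ∑ e ∈ D z, ∑ δ ∈ D z, (φ δ : ℝ) * ((if δ ∣ d then lam z d / d else 0) * (if δ ∣ e then lam z e / e else 0))
        = ∑ δ ∈ D z, ∑ e ∈ D z, (φ δ : ℝ) * ((if δ ∣ d then lam z d / d else 0) * (if δ ∣ e then lam z e / e else 0)) :=
      fun d _ => Finset.sum_comm
    rw [Finset.sum_congr rfl this, Finset.sum_comm]
    refine Finset.sum_congr rfl (fun δ _ => ?_)
    rw [Finset.sum_mul_sum, Finset.mul_sum]
    refine Finset.sum_congr rfl (fun d _ => ?_)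
    rw [Finset.mul_sum]
  rw [h3]
  have hG := G_pos hz
  have h4 : ∀ δ ∈ D z, (φ δ : ℝ) * ((∑ d ∈ D z, if δ ∣ d then lam z d / d else 0) * (∑ e ∈ D z, if δ ∣ e then lam z e / e else 0))
      = (1 / (φ δ : ℝ)) / (G z) ^ 2 := by
    intro δ hδ
    rw [← Finset.sum_filter, sum_lam_div hδ, y]
    have hδ' := mem_D.mp hδ
    have hφ : (φ δ : ℝ) ≠ 0 := by exact_mod_cast (Nat.totient_pos.mpr hδ'.1.1).ne'
    rw [_root_.div_mul_div_comm, mu_sq_of_squarefree hδ'.2]
    field_simp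
  rw [Finset.sum_congr rfl h4, ← Finset.sum_div]
  have : ∑ δ ∈ D z, 1 / (φ δ : ℝ) = G z := rfl
  rw [this, sq]
  field_simp

lemma sum_W_le {z : ℕ} (hz : 1 ≤ z) (a H : ℕ) :
    ∑ n ∈ Finset.Ioc a (a + H), W z n ≤ H / G z + (z:ℝ) ^ 4 := by
  have h1 : ∀ n, W z n = ∑ d ∈ D z, ∑ e ∈ D z, lam z d * lam z e * (if Nat.lcm d e ∣ n then 1 else 0) := by
    intro n
    unfold W
    rw [sq, Finset.sum_filter, Finset.sum_mul_sum]
    refine Finset.sum_congr rfl (fun d _ => Finset.sum_congr rfl (fun e _ => ?_))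
    by_cases ha : d ∣ n <;> by_cases hb : e ∣ n <;> simp [ha, hb, Nat.lcm_dvd_iff]
  have h2 : ∑ n ∈ Finset.Ioc a (a + H), W z n = ∑ d ∈ D z, ∑ e ∈ D z, lam z d * lam z e *
      (((Finset.Ioc a (a + H)).filter (fun n => Nat.lcm d e ∣ n)).card : ℝ) := by
    simp_rw [h1]
    rw [Finset.sum_comm]
    refine Finset.sum_congr rfl (fun d _ => ?_)
    rw [Finset.sum_comm]
    refine Finset.sum_congr rfl (fun e _ => ?_)
    rw [← Finset.mul_sum]
    congr 1
    rw [Finset.sum_boole]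
  rw [h2]
  have h3 : ∀ d ∈ D z, ∀ e ∈ D z, lam z d * lam z e *
      (((Finset.Ioc a (a + H)).filter (fun n => Nat.lcm d e ∣ n)).card : ℝ) ≤
      H * (lam z d * lam z e / (Nat.lcm d e : ℝ)) + (z:ℝ) * z := by
    intro d hd e he
    have hd' := mem_D.mp hd
    have he' := mem_D.mp he
    have hc := count_dvd a H (Nat.lcm d e) (Nat.lcm_pos hd'.1.1 he'.1.1)
    set c : ℝ := (((Finset.Ioc a (a + H)).filter (fun n => Nat.lcm d e ∣ n)).card : ℝ) with hcdef
    have h4 : lam z d * lam z e * c - H * (lam z d * lam z e / (Nat.lcm d e : ℝ)) =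
        (lam z d * lam z e) * (c - H / (Nat.lcm d e : ℝ)) := by ring
    have h5 : (lam z d * lam z e) * (c - H / (Nat.lcm d e : ℝ)) ≤ |lam z d| * |lam z e| * 1 := by
      refine (le_abs_self _).trans ?_
      rw [abs_mul, abs_mul]
      gcongr
    have h6 : |lam z d| ≤ z := (abs_lam_le hz).trans (by exact_mod_cast hd'.1.2)
    have h7 : |lam z e| ≤ z := (abs_lam_le hz).trans (by exact_mod_cast he'.1.2)
    have h8 : |lam z d| * |lam z e| ≤ z * z := by gcongr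
    linarith
  calc _ ≤ ∑ d ∈ D z, ∑ e ∈ D z, (H * (lam z d * lam z e / (Nat.lcm d e : ℝ)) + (z:ℝ) * z) :=
        Finset.sum_le_sum (fun d hd => Finset.sum_le_sum (fun e he => h3 d hd e he))
    _ = H * (∑ d ∈ D z, ∑ e ∈ D z, lam z d * lam z e / (Nat.lcm d e : ℝ)) + ((D z).card : ℝ) * (D z).card * (z * z) := by
        simp_rw [Finset.sum_add_distrib, ← Finset.mul_sum]
        simp
        ring
    _ ≤ H * (1 / G z) + (z:ℝ) * z * (z * z) := by
        rw [quad_form hz]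
        have hcard : ((D z).card : ℝ) ≤ z := by
          have : (D z).card ≤ z := by
            calc (D z).card ≤ (Finset.Icc 1 z).card := Finset.card_filter_le _ _
              _ = z := by simp
          exact_mod_cast this
        gcongr
    _ = _ := by ring

/-- number of primes in `(a, a+H]` -/
noncomputable def primesIn (a H : ℕ) : ℕ := ((Finset.Ioc a (a + H)).filter Nat.Prime).card

lemma primesIn_le {z : ℕ} (hz : 1 ≤ z) (a H : ℕ) :
    (primesIn a H : ℝ) ≤ z + (H / G z + (z:ℝ) ^ 4) := by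
  unfold primesIn
  have h1 : (Finset.Ioc a (a + H)).filter Nat.Prime ⊆ Finset.Icc 1 z ∪
      ((Finset.Ioc a (a + H)).filter (fun p => p.Prime ∧ z < p)) := by
    intro p hp
    rw [Finset.mem_filter] at hp
    rw [Finset.mem_union, Finset.mem_Icc, Finset.mem_filter]
    by_cases h : p ≤ z
    · left; exact ⟨hp.2.one_le, h⟩
    · right; exact ⟨hp.1, hp.2, by omega⟩
  have h2 : ((Finset.Ioc a (a + H)).filter Nat.Prime).card ≤ z +
      ((Finset.Ioc a (a + H)).filter (fun p => p.Prime ∧ z < p)).card := by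
    calc _ ≤ (Finset.Icc 1 z ∪ ((Finset.Ioc a (a + H)).filter (fun p => p.Prime ∧ z < p))).card :=
          Finset.card_le_card h1
      _ ≤ _ := Finset.card_union_le _ _
      _ = _ := by simp
  have h3 : (((Finset.Ioc a (a + H)).filter (fun p => p.Prime ∧ z < p)).card : ℝ) ≤
      ∑ n ∈ Finset.Ioc a (a + H), W z n := by
    rw [Finset.card_eq_sum_ones]
    push_cast
    calc ∑ n ∈ (Finset.Ioc a (a + H)).filter (fun p => p.Prime ∧ z < p), (1:ℝ)
        = ∑ n ∈ (Finset.Ioc a (a + H)).filter (fun p => p.Prime ∧ z < p), W z n := by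
          refine Finset.sum_congr rfl (fun p hp => ?_)
          rw [Finset.mem_filter] at hp
          exact (W_prime hz hp.2.1 hp.2.2).symm
      _ ≤ _ := Finset.sum_le_sum_of_subset_of_nonneg (Finset.filter_subset _ _) (fun _ _ _ => W_nonneg _ _)
  have h4 : (((Finset.Ioc a (a + H)).filter Nat.Prime).card : ℝ) ≤ z +
      ((Finset.Ioc a (a + H)).filter (fun p => p.Prime ∧ z < p)).card := by exact_mod_cast h2
  linarith [sum_W_le hz a H]

/-- **Weak Brun–Titchmarsh**. -/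
theorem brun_titchmarsh (a H : ℕ) (hH : 2 ≤ H) :
    (primesIn a H : ℝ) ≤ 20 * H / Real.log H := by
  have hH' : (2:ℝ) ≤ H := by exact_mod_cast hH
  have hH0 : (0:ℝ) < H := by linarith
  have hlog : 0 < Real.log H := Real.log_pos (by linarith)
  set t : ℝ := (H:ℝ) ^ ((1:ℝ)/8) with ht
  have ht1 : 1 ≤ t := Real.one_le_rpow (by linarith) (by norm_num)
  set z : ℕ := ⌊t⌋₊ with hz
  have hz1 : 1 ≤ z := by rw [hz]; exact Nat.le_floor (by simpa using ht1)
  have hzt : (z:ℝ) ≤ t := Nat.floor_le (by linarith)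
  have hzt2 : t < z + 1 := Nat.lt_floor_add_one t
  have h1 := primesIn_le hz1 a H
  have hG : Real.log H / 16 ≤ G z := by
    have h2 := G_ge_log z
    have h3 : Real.log t ≤ Real.log (z + 1) := Real.log_le_log (by linarith) hzt2.le
    have h4 : Real.log t = Real.log H / 8 := by
      rw [ht, Real.log_rpow hH0]; ring
    linarith
  have h5 : (H:ℝ) / G z ≤ 16 * H / Real.log H := by
    calc (H:ℝ) / G z ≤ H / (Real.log H / 16) := by gcongr
      _ = _ := by field_simp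
  have ht4 : t ^ 4 = Real.sqrt H := by
    rw [ht, ← Real.rpow_natCast, ← Real.rpow_mul hH0.le, Real.sqrt_eq_rpow]
    norm_num
  have h6 : (z:ℝ) ^ 4 ≤ Real.sqrt H := by rw [← ht4]; gcongr
  have h7 : (z:ℝ) ≤ Real.sqrt H := by
    rw [← ht4]
    calc (z:ℝ) ≤ t := hzt
      _ ≤ t ^ 4 := le_self_pow₀ ht1 (by norm_num)
  have h8 : Real.sqrt H ≤ 2 * H / Real.log H := by
    rw [le_div_iff₀ hlog]
    have h9 : Real.log H ≤ 2 * Real.sqrt H := by
      have := Real.log_le_rpow_div hH0.le (show (0:ℝ) < 1/2 by norm_num)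
      rw [← Real.sqrt_eq_rpow] at this
      linarith
    have h10 : Real.sqrt H * Real.sqrt H = H := Real.mul_self_sqrt hH0.le
    nlinarith [Real.sqrt_nonneg H]
  have h11 : 20 * H / Real.log H = 16 * H / Real.log H + 2 * H / Real.log H + 2 * H / Real.log H := by ring
  rw [h11]
  linarith

end Pool.Agent.helper91.BT
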