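import Mathlib

/-!
# The prime number theorem

Newman/Fejer-kernel style Tauberian proof from the nonvanishing of zeta on the line Re s = 1
(which is in Mathlib).  Main results: `psi_tendsto`, `theta_tendsto`.
-/

open MeasureTheory Filter Topology Set

namespace Pool.Agent.helper91.PNT


/-- `H u = ψ(e^u) e^{-u}` -/
noncomputable def H (u : ℝ) : ℝ := Chebyshev.psi (Real.exp u) * Real.exp (-u)

lemma H_nonneg (u : ℝ) : 0 ≤ H u := mul_nonneg (Chebyshev.psi_nonneg _) (Real.exp_pos _).le

lemma H_le (u : ℝ) : H u ≤ Real.log 4 + 4 := by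
  have := Chebyshev.psi_le_const_mul_self (Real.exp_pos u).le
  calc H u ≤ (Real.log 4 + 4) * Real.exp u * Real.exp (-u) := by
        unfold H; gcongr
    _ = Real.log 4 + 4 := by rw [mul_assoc, ← Real.exp_add]; simp

@[fun_prop]
lemma measurable_H : Measurable H := by
  unfold H
  exact (Chebyshev.psi_mono.measurable.comp Real.measurable_exp).mul (by fun_prop)

lemma laplace_H (s : ℂ) (hs : 1 < s.re) :
    ∫ u in Ioi (0:ℝ), (H u : ℂ) * Complex.exp (-(s-1) * u) =
      LSeries (fun n => (ArithmeticFunction.vonMangoldt n : ℂ)) s / s := by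
  have hs0 : s ≠ 0 := by rintro rfl; simp at hs; linarith
  have hO : (fun n : ℕ ↦ ∑ k ∈ Finset.Icc 1 n, ArithmeticFunction.vonMangoldt k) =O[atTop]
      fun n ↦ (n : ℝ) ^ (1:ℝ) := by
    refine Asymptotics.IsBigO.of_bound (Real.log 4 + 4) ?_
    filter_upwards with n
    have h1 : ∑ k ∈ Finset.Icc 1 n, ArithmeticFunction.vonMangoldt k = Chebyshev.psi n := by
      rw [Chebyshev.psi]; simp; rfl
    rw [h1, Real.rpow_one, Real.norm_of_nonneg (Chebyshev.psi_nonneg _),
      Real.norm_of_nonneg (Nat.cast_nonneg _)]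
    exact Chebyshev.psi_le_const_mul_self (Nat.cast_nonneg _)
  have key := LSeries_eq_mul_integral_of_nonneg (fun n => ArithmeticFunction.vonMangoldt n)
    (r := 1) (by norm_num) hs hO (fun n => ArithmeticFunction.vonMangoldt_nonneg)
  rw [key, mul_div_cancel_left₀ _ hs0]
  have h2 := integral_comp_exp_Ioi (E := ℂ)
    (fun t : ℝ => (∑ k ∈ Finset.Icc 1 ⌊t⌋₊, ((ArithmeticFunction.vonMangoldt k : ℝ) : ℂ)) * (t:ℂ) ^ (-(s + 1))) 0
  rw [Real.exp_zero] at h2
  rw [← h2]
  refine setIntegral_congr_fun measurableSet_Ioi (fun u _ => ?_)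
  have h3 : (∑ k ∈ Finset.Icc 1 ⌊Real.exp u⌋₊, ((ArithmeticFunction.vonMangoldt k : ℝ) : ℂ))
      = (Chebyshev.psi (Real.exp u) : ℂ) := by
    rw [Chebyshev.psi]; push_cast; rfl
  rw [h3]
  have h4 : ((Real.exp u : ℝ) : ℂ) ^ (-(s + 1)) = Complex.exp (-(s+1) * u) := by
    rw [Complex.cpow_def_of_ne_zero (by exact_mod_cast (Real.exp_pos u).ne'), ← Complex.ofReal_log (Real.exp_pos u).le,
      Real.log_exp]
    ring_nf
  rw [h4, H]
  push_cast
  rw [Complex.real_smul]
  have : Complex.exp (-(s - 1) * u) * Complex.exp (-u) = Complex.exp u * Complex.exp (-(s+1) * u) := by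
    rw [← Complex.exp_add, ← Complex.exp_add]; ring_nf
  push_cast
  linear_combination (Chebyshev.psi (Real.exp u) : ℂ) * this


/-- Fejer kernel -/
noncomputable def K (b v : ℝ) : ℝ := b * Real.sinc (b * v / 2) ^ 2

lemma K_nonneg {b : ℝ} (hb : 0 < b) (v : ℝ) : 0 ≤ K b v := by unfold K; positivity

@[fun_prop]
lemma continuous_K (b : ℝ) : Continuous (K b) := by
  unfold K
  exact continuous_const.mul ((Real.continuous_sinc.comp (by fun_prop)).pow 2)

lemma K_neg (b v : ℝ) : K b (-v) = K b v := by
  unfold K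
  rw [show b * -v / 2 = -(b * v / 2) by ring, Real.sinc_neg]

lemma K_scale (b v : ℝ) : K b v = b * K 1 (b * v) := by
  unfold K; ring_nf

lemma K_le_one_bound (v : ℝ) : K 1 v ≤ 5 / (1 + v ^ 2) := by
  have h1 : Real.sinc (v/2) ^ 2 ≤ 1 := by
    have := Real.abs_sinc_le_one (v/2)
    rw [← sq_abs]; nlinarith [abs_nonneg (Real.sinc (v/2))]
  rw [le_div_iff₀ (by positivity)]
  unfold K
  rw [one_mul, one_mul, mul_add, mul_one]
  have h2 : Real.sinc (v/2) ^ 2 * v ^ 2 ≤ 4 := by
    rcases eq_or_ne v 0 with rfl | hv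
    · simp
    · rw [Real.sinc_of_ne_zero (by positivity)]
      rw [div_pow, div_mul_eq_mul_div, div_le_iff₀ (by positivity)]
      nlinarith [Real.sin_sq_le_one (v/2), sq_nonneg v]
  linarith

lemma integrable_K_one : Integrable (K 1) := by
  refine Integrable.mono' (g := fun v => 5 * (1 + v^2)⁻¹) (integrable_inv_one_add_sq.const_mul 5)
    (continuous_K 1).aestronglyMeasurable ?_
  filter_upwards with v
  rw [Real.norm_of_nonneg (K_nonneg one_pos v)]
  exact K_le_one_bound v

lemma integrable_K {b : ℝ} (hb : 0 < b) : Integrable (K b) := by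
  have : K b = fun v => b * K 1 (b * v) := by ext v; exact K_scale b v
  rw [this]
  exact (integrable_K_one.comp_mul_left' hb.ne').const_mul b

/-- κ = ∫ K -/
noncomputable def kap : ℝ := ∫ v, K 1 v

lemma integral_K {b : ℝ} (hb : 0 < b) : ∫ v, K b v = kap := by
  have : K b = fun v => b * K 1 (b * v) := by ext v; exact K_scale b v
  rw [this, integral_const_mul, Measure.integral_comp_mul_left]
  rw [kap, smul_eq_mul, abs_of_pos (by positivity)]
  field_simp

lemma kap_pos : 0 < kap := by
  unfold kap
  rw [integral_pos_iff_support_of_nonneg (fun v => K_nonneg one_pos v) integrable_K_one]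
  have h0 : (0:ℝ) ∈ Function.support (K 1) := by simp [K]
  have hopen : IsOpen (Function.support (K 1)) := (continuous_K 1).isOpen_support
  exact hopen.measure_pos _ ⟨0, h0⟩


lemma kernel_integral_real {b : ℝ} (hb : 0 < b) (v : ℝ) :
    ∫ y in (0:ℝ)..b, (1 - y / b) * (2 * Real.cos (y * v)) = K b v := by
  rcases eq_or_ne v 0 with rfl | hv
  · simp only [mul_zero, Real.cos_zero, mul_one, K, zero_div, Real.sinc_zero, one_pow, mul_one]
    have hd : ∀ y ∈ uIcc (0:ℝ) b, HasDerivAt (fun y : ℝ => 2 * y - y ^ 2 / b) ((1 - y / b) * 2) y := by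
      intro y _
      have h1 : HasDerivAt (fun y : ℝ => 2 * y) (2 * 1) y := (hasDerivAt_id y).const_mul 2
      have h2 : HasDerivAt (fun y : ℝ => y ^ 2 / b) (((2:ℕ) * y ^ (2-1)) / b) y :=
        (hasDerivAt_pow 2 y).div_const b
      refine (h1.sub h2).congr_deriv ?_
      simp; field_simp
    rw [intervalIntegral.integral_eq_sub_of_hasDerivAt hd
      (Continuous.intervalIntegrable (by fun_prop) _ _)]
    field_simp; ring
  · have hd : ∀ y ∈ uIcc (0:ℝ) b, HasDerivAt
        (fun y : ℝ => 2 * ((1 - y / b) * Real.sin (y * v) / v - Real.cos (y * v) / (b * v ^ 2)))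
        ((1 - y / b) * (2 * Real.cos (y * v))) y := by
      intro y _
      have h1 : HasDerivAt (fun y : ℝ => 1 - y / b) (-(1 / b)) y := by
        simpa using ((hasDerivAt_id y).div_const b).const_sub 1
      have h0 : HasDerivAt (fun y : ℝ => y * v) v y := by simpa using (hasDerivAt_id y).mul_const v
      have h2 : HasDerivAt (fun y : ℝ => Real.sin (y * v)) (Real.cos (y * v) * v) y := h0.sin
      have h3 : HasDerivAt (fun y : ℝ => Real.cos (y * v)) (-Real.sin (y * v) * v) y := h0.cos
      refine ((((h1.mul h2).div_const v).sub (h3.div_const (b * v ^ 2))).const_mul 2).congr_deriv ?_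
      field_simp
      ring
    rw [intervalIntegral.integral_eq_sub_of_hasDerivAt hd
      (Continuous.intervalIntegrable (by fun_prop) _ _)]
    unfold K
    rw [Real.sinc_of_ne_zero (by positivity)]
    have hc : Real.cos (b * v) = 1 - 2 * Real.sin (b * v / 2) ^ 2 := by
      rw [show b * v = 2 * (b * v / 2) by ring, Real.cos_two_mul, show 2 * (b * v / 2) / 2 = b * v / 2 by ring]
      have := Real.sin_sq_add_cos_sq (b * v / 2)
      linarith
    rw [hc]
    simp
    field_simp
    ring

lemma kernel_integral {b : ℝ} (hb : 0 < b) (v : ℝ) :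
    ∫ y in (-b)..b, ((1 - |y| / b : ℝ) : ℂ) * Complex.exp (Complex.I * y * v) = (K b v : ℂ) := by
  set f : ℝ → ℂ := fun y : ℝ => ((1 - |y| / b : ℝ) : ℂ) * Complex.exp (Complex.I * y * v) with hf
  have hcont : Continuous f := by fun_prop
  have hi : ∀ c d : ℝ, IntervalIntegrable f volume c d := fun c d => hcont.intervalIntegrable _ _
  rw [← intervalIntegral.integral_add_adjacent_intervals (hi (-b) 0) (hi 0 b)]
  have h1 : ∫ y in (-b)..0, f y = ∫ y in (0:ℝ)..b, f (-y) := by
    rw [intervalIntegral.integral_comp_neg]; simp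
  have hi2 : IntervalIntegrable (fun y => f (-y)) volume 0 b :=
    (hcont.comp continuous_neg).intervalIntegrable _ _
  rw [h1, ← intervalIntegral.integral_add hi2 (hi 0 b)]
  rw [← kernel_integral_real hb v, ← intervalIntegral.integral_ofReal]
  refine intervalIntegral.integral_congr (fun y hy => ?_)
  rw [uIcc_of_le hb.le] at hy
  simp only [hf, abs_neg, abs_of_nonneg hy.1]
  push_cast
  rw [← mul_add, Complex.two_cos]
  congr 1
  rw [add_comm]
  congr 2 <;> ring

/-- The continuous extension of `-ζ'/ζ(s) - 1/(s-1)` to `Re s ≥ 1`. -/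
noncomputable def F (s : ℂ) : ℂ :=
  ArithmeticFunction.vonMangoldt.LFunctionResidueClassAux (q := 1) (1 : ZMod 1) s

lemma continuousOn_F : ContinuousOn F {s | 1 ≤ s.re} :=
  ArithmeticFunction.vonMangoldt.continuousOn_LFunctionResidueClassAux (q := 1) (1 : ZMod 1)

lemma F_eq {s : ℂ} (hs : 1 < s.re) :
    F s = LSeries (fun n => (ArithmeticFunction.vonMangoldt n : ℂ)) s - 1 / (s - 1) := by
  have h := ArithmeticFunction.vonMangoldt.eqOn_LFunctionResidueClassAux (q := 1)
    (a := (1 : ZMod 1)) isUnit_one (x := s) hs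
  unfold F
  rw [h]
  simp only [Nat.totient_one, Nat.cast_one, inv_one]
  congr 2
  ext n
  simp [ArithmeticFunction.vonMangoldt.residueClass, Set.indicator, Subsingleton.elim (n : ZMod 1) 1]

lemma laplace_sub {s : ℂ} (hs : 1 < s.re) :
    ∫ u in Ioi (0:ℝ), ((H u - 1 : ℝ) : ℂ) * Complex.exp (-(s-1) * u) = (F s - 1) / s := by
  have hs0 : s ≠ 0 := by rintro rfl; simp at hs; linarith
  have hs1 : s - 1 ≠ 0 := by
    intro h
    have : (s-1).re = 0 := by rw [h]; simp
    simp at this; linarith
  have hre : (-(s-1)).re < 0 := by simp; linarith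
  have hint1 : IntegrableOn (fun u : ℝ => Complex.exp (-(s-1) * u)) (Ioi 0) :=
    integrableOn_exp_mul_complex_Ioi hre 0
  have hint2 : IntegrableOn (fun u : ℝ => (H u : ℂ) * Complex.exp (-(s-1) * u)) (Ioi 0) := by
    refine Integrable.bdd_mul (c := Real.log 4 + 4) hint1 ?_ ?_
    · exact (Complex.measurable_ofReal.comp measurable_H).aestronglyMeasurable
    · filter_upwards with u
      rw [Complex.norm_real, Real.norm_of_nonneg (H_nonneg u)]
      exact H_le u
  have h1 : ∫ u in Ioi (0:ℝ), ((H u - 1 : ℝ) : ℂ) * Complex.exp (-(s-1) * u)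
      = (∫ u in Ioi (0:ℝ), (H u : ℂ) * Complex.exp (-(s-1) * u)) -
        ∫ u in Ioi (0:ℝ), Complex.exp (-(s-1) * u) := by
    rw [← integral_sub hint2 hint1]
    congr 1; ext u; push_cast; ring
  rw [h1, laplace_H s hs, integral_exp_mul_complex_Ioi hre, F_eq hs,
    show Complex.exp (-(s-1) * ((0:ℝ):ℂ)) = 1 by simp]
  rw [neg_div_neg_eq]
  field_simp
  ring

lemma smoothing_identity {b σ : ℝ} (hb : 0 < b) (hσ : 0 < σ) (T : ℝ) :
    ∫ y in (-b)..b, ((1 - |y| / b : ℝ) : ℂ) * Complex.exp (Complex.I * y * T) *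
      ((F (1 + σ + Complex.I * y) - 1) / (1 + σ + Complex.I * y)) =
    ∫ u in Ioi (0:ℝ), (((H u - 1) * Real.exp (-σ * u) * K b (T - u) : ℝ) : ℂ) := by
  have h1 : ∀ y : ℝ, (F (1 + σ + Complex.I * y) - 1) / (1 + σ + Complex.I * y) =
      ∫ u in Ioi (0:ℝ), ((H u - 1 : ℝ) : ℂ) * Complex.exp (-((1 + σ + Complex.I * y)-1) * u) := by
    intro y
    rw [laplace_sub]
    simp; linarith
  simp_rw [h1]
  simp_rw [← integral_const_mul]
  rw [intervalIntegral.integral_of_le (by linarith)]
  rw [integral_integral_swap]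
  · refine setIntegral_congr_fun measurableSet_Ioi (fun u _ => ?_)
    push_cast
    rw [← kernel_integral hb, intervalIntegral.integral_of_le (by linarith), ← integral_const_mul]
    refine setIntegral_congr_fun measurableSet_Ioc (fun y _ => ?_)
    push_cast
    have : Complex.exp (Complex.I * y * T) * Complex.exp (-((1 + σ + Complex.I * y)-1) * u) =
      Complex.exp (-σ * u) * Complex.exp (Complex.I * y * (T - u)) := by
      rw [← Complex.exp_add, ← Complex.exp_add]; congr 1; ring
    linear_combination (1 - ((|y| : ℝ) : ℂ) / b) * ((H u : ℂ) - 1) * this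
  · have hexp : IntegrableOn (fun u : ℝ => Real.exp (-σ * u)) (Ioi 0) := exp_neg_integrableOn_Ioi 0 hσ
    have hc : Integrable (fun _ : ℝ => (1:ℝ)) (volume.restrict (Ioc (-b) b)) := by
      simp
    have hprod := Integrable.mul_prod hc (hexp.const_mul (Real.log 4 + 5))
    refine Integrable.mono' hprod ?_ ?_
    · refine Measurable.aestronglyMeasurable ?_
      unfold Function.uncurry
      fun_prop
    · rw [Measure.prod_restrict]
      filter_upwards [ae_restrict_mem (measurableSet_Ioc.prod measurableSet_Ioi)] with z hz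
      obtain ⟨hz1, hz2⟩ := hz
      simp only [Function.uncurry, norm_mul, Complex.norm_real, Complex.norm_exp]
      have e1 : ‖1 - |z.1| / b‖ ≤ 1 := by
        rw [Real.norm_eq_abs, abs_le]
        have : |z.1| ≤ b := abs_le.mpr ⟨hz1.1.le, hz1.2⟩
        have h2 : |z.1| / b ≤ 1 := by rw [div_le_one hb]; exact this
        have h3 : 0 ≤ |z.1| / b := by positivity
        constructor <;> linarith
      have e2 : ‖H z.2 - 1‖ ≤ Real.log 4 + 5 := by
        rw [Real.norm_eq_abs, abs_le]
        have := H_nonneg z.2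
        have := H_le z.2
        have : 0 < Real.log 4 := Real.log_pos (by norm_num)
        constructor <;> linarith
      have e3 : (Complex.I * (z.1:ℂ) * (T:ℂ)).re = 0 := by simp
      have e4 : (-((1 + (σ:ℂ) + Complex.I * (z.1:ℂ)) - 1) * (z.2:ℂ)).re = -σ * z.2 := by simp
      rw [e3, e4, Real.exp_zero, mul_one]
      calc ‖1 - |z.1| / b‖ * (‖H z.2 - 1‖ * Real.exp (-σ * z.2)) ≤ 1 * ((Real.log 4 + 5) * Real.exp (-σ * z.2)) := by
            gcongr
        _ = _ := by ring

noncomputable def Phi (s : ℂ) : ℂ := (F s - 1) / s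

lemma continuousOn_Phi : ContinuousOn Phi {s | 1 ≤ s.re} := by
  unfold Phi
  refine (continuousOn_F.sub continuousOn_const).div continuousOn_id ?_
  rintro s hs rfl
  simp at hs
  linarith

lemma abs_H_sub_one (u : ℝ) : |H u - 1| ≤ Real.log 4 + 5 := by
  rw [abs_le]
  have := H_nonneg u
  have := H_le u
  have : 0 < Real.log 4 := Real.log_pos (by norm_num)
  constructor <;> linarith

lemma limit_identity {b : ℝ} (hb : 0 < b) (T : ℝ) :
    ∫ y in (-b)..b, ((1 - |y| / b : ℝ) : ℂ) * Complex.exp (Complex.I * y * T) *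
      Phi (1 + Complex.I * y) =
    ∫ u in Ioi (0:ℝ), (((H u - 1) * K b (T - u) : ℝ) : ℂ) := by
  have hcomp : IsCompact ((fun z : ℝ × ℝ => (1 + (z.1:ℂ) + Complex.I * z.2 : ℂ)) ''
      (Icc (0:ℝ) 1 ×ˢ Icc (-b) b)) :=
    (isCompact_Icc.prod isCompact_Icc).image (by fun_prop)
  obtain ⟨M, hM⟩ := hcomp.exists_bound_of_continuousOn (f := Phi) (continuousOn_Phi.mono (by
    rintro _ ⟨z, hz, rfl⟩
    simp
    exact hz.1.1))
  have hL : Tendsto (fun σ : ℝ => ∫ y in (-b)..b, ((1 - |y| / b : ℝ) : ℂ) *
      Complex.exp (Complex.I * y * T) * Phi (1 + σ + Complex.I * y)) (𝓝[>] 0)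
      (𝓝 (∫ y in (-b)..b, ((1 - |y| / b : ℝ) : ℂ) * Complex.exp (Complex.I * y * T) *
        Phi (1 + Complex.I * y))) := by
    refine intervalIntegral.tendsto_integral_filter_of_dominated_convergence (fun _ => M) ?_ ?_ ?_ ?_
    · filter_upwards [self_mem_nhdsWithin] with σ hσ
      refine ContinuousOn.aestronglyMeasurable ?_ measurableSet_uIoc
      refine ContinuousOn.mul (by fun_prop) ?_
      refine continuousOn_Phi.comp (by fun_prop) ?_
      intro y _
      simp; exact le_of_lt hσ
    · have h01 : ∀ᶠ σ : ℝ in 𝓝[>] 0, σ ≤ 1 := by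
        have : Iic (1:ℝ) ∈ 𝓝 (0:ℝ) := Iic_mem_nhds one_pos
        exact mem_nhdsWithin_of_mem_nhds this
      filter_upwards [self_mem_nhdsWithin, h01] with σ hσ hσ1
      filter_upwards with y hy
      rw [uIoc_of_le (by linarith)] at hy
      rw [norm_mul, norm_mul, Complex.norm_real, Complex.norm_exp]
      have e1 : ‖1 - |y| / b‖ ≤ 1 := by
        rw [Real.norm_eq_abs, abs_le]
        have : |y| ≤ b := abs_le.mpr ⟨hy.1.le, hy.2⟩
        have h2 : |y| / b ≤ 1 := by rw [div_le_one hb]; exact this
        have h3 : 0 ≤ |y| / b := by positivity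
        constructor <;> linarith
      have e3 : (Complex.I * (y:ℂ) * (T:ℂ)).re = 0 := by simp
      rw [e3, Real.exp_zero, mul_one]
      have e4 := hM (1 + (σ:ℂ) + Complex.I * y) ⟨(σ, y), ⟨⟨le_of_lt hσ, hσ1⟩, ⟨hy.1.le, hy.2⟩⟩, rfl⟩
      calc _ ≤ 1 * M := by gcongr
        _ = M := one_mul M
    · simp
    · filter_upwards with y hy
      refine Tendsto.mul tendsto_const_nhds ?_
      have hmem : (1 + Complex.I * y) ∈ {s : ℂ | 1 ≤ s.re} := by simp
      have hc := continuousOn_Phi (1 + Complex.I * y) hmem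
      refine hc.tendsto.comp ?_
      refine tendsto_nhdsWithin_iff.mpr ⟨?_, ?_⟩
      · have : Tendsto (fun σ : ℝ => (1 + (σ:ℂ) + Complex.I * y)) (𝓝 0) (𝓝 (1 + ((0:ℝ):ℂ) + Complex.I * y)) := by
          apply Continuous.tendsto; fun_prop
        simp only [Complex.ofReal_zero, add_zero] at this
        exact this.mono_left nhdsWithin_le_nhds
      · filter_upwards [self_mem_nhdsWithin] with σ hσ
        simp; exact le_of_lt hσ
  have hR : Tendsto (fun σ : ℝ => ∫ u in Ioi (0:ℝ), (((H u - 1) * Real.exp (-σ * u) * K b (T - u) : ℝ) : ℂ))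
      (𝓝[>] 0) (𝓝 (∫ u in Ioi (0:ℝ), (((H u - 1) * K b (T - u) : ℝ) : ℂ))) := by
    refine tendsto_integral_filter_of_dominated_convergence (fun u => (Real.log 4 + 5) * K b (T - u)) ?_ ?_ ?_ ?_
    · filter_upwards with σ
      refine Measurable.aestronglyMeasurable ?_
      have := (continuous_K b).measurable
      fun_prop
    · filter_upwards [self_mem_nhdsWithin] with σ hσ
      filter_upwards [ae_restrict_mem measurableSet_Ioi] with u hu
      rw [Complex.norm_real, norm_mul, norm_mul, Real.norm_of_nonneg (K_nonneg hb _),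
        Real.norm_of_nonneg (Real.exp_pos _).le]
      have h1 : Real.exp (-σ * u) ≤ 1 := by
        rw [Real.exp_le_one_iff]
        have : 0 < σ * u := mul_pos hσ hu
        linarith
      have := K_nonneg hb (T - u)
      calc ‖H u - 1‖ * Real.exp (-σ * u) * K b (T - u) ≤ (Real.log 4 + 5) * 1 * K b (T - u) := by
            gcongr
            exact abs_H_sub_one u
        _ = _ := by ring
    · exact (((integrable_K hb).comp_sub_left T).const_mul _).integrableOn
    · filter_upwards with u
      refine (Complex.continuous_ofReal.tendsto _).comp ?_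
      have : Tendsto (fun σ : ℝ => (H u - 1) * Real.exp (-σ * u) * K b (T - u)) (𝓝 0)
          (𝓝 ((H u - 1) * Real.exp (-0 * u) * K b (T - u))) := by
        apply Continuous.tendsto; fun_prop
      simp only [neg_zero, zero_mul, Real.exp_zero, mul_one] at this
      exact this.mono_left nhdsWithin_le_nhds
  refine tendsto_nhds_unique hL (hR.congr' ?_)
  filter_upwards [self_mem_nhdsWithin] with σ hσ
  rw [← smoothing_identity hb hσ T]
  rfl

lemma rl (b : ℝ) (hb : 0 < b) : Tendsto (fun T : ℝ => ∫ y in (-b)..b, ((1 - |y| / b : ℝ) : ℂ) *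
    Complex.exp (Complex.I * y * T) * Phi (1 + Complex.I * y)) atTop (𝓝 0) := by
  set g : ℝ → ℂ := (Ioc (-b) b).indicator (fun y => ((1 - |y| / b : ℝ) : ℂ) * Phi (1 + Complex.I * y)) with hg
  have h := Real.tendsto_integral_exp_smul_cocompact g
  have hT : Tendsto (fun T : ℝ => -T / (2 * Real.pi)) atTop (cocompact ℝ) := by
    refine Tendsto.mono_right (y := atBot) ?_ atBot_le_cocompact
    exact (tendsto_neg_atTop_atBot).atBot_div_const (by positivity)
  refine (h.comp hT).congr (fun T => ?_)
  simp only [Function.comp]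
  rw [intervalIntegral.integral_of_le (by linarith), ← integral_indicator measurableSet_Ioc]
  congr 1
  ext y
  rw [hg]
  by_cases hy : y ∈ Ioc (-b) b
  · rw [indicator_of_mem hy, indicator_of_mem hy, Circle.smul_def, Real.fourierChar_apply, smul_eq_mul]
    have : ((2 * Real.pi * -(y * (-T / (2 * Real.pi))) : ℝ) : ℂ) * Complex.I = Complex.I * y * T := by
      push_cast
      field_simp
    rw [this]; ring
  · rw [indicator_of_notMem hy, indicator_of_notMem hy, smul_zero]

lemma tendsto_J {b : ℝ} (hb : 0 < b) :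
    Tendsto (fun T : ℝ => ∫ u in Ioi (0:ℝ), (H u - 1) * K b (T - u)) atTop (𝓝 0) := by
  have h := rl b hb
  simp_rw [limit_identity hb] at h
  have h2 : Tendsto (fun T : ℝ => ((∫ u in Ioi (0:ℝ), (H u - 1) * K b (T - u) : ℝ) : ℂ)) atTop (𝓝 ((0:ℝ) : ℂ)) := by
    simp only [Complex.ofReal_zero]
    refine h.congr (fun T => ?_)
    exact integral_ofReal
  exact (Complex.continuous_re.tendsto _).comp h2

lemma tendsto_K {b : ℝ} (hb : 0 < b) :
    Tendsto (fun T : ℝ => ∫ u in Ioi (0:ℝ), K b (T - u)) atTop (𝓝 kap) := by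
  have h1 : ∀ T : ℝ, ∫ u in Ioi (0:ℝ), K b (T - u) = ∫ v, (Iio T).indicator (K b) v := by
    intro T
    rw [← integral_indicator measurableSet_Ioi]
    rw [← integral_sub_left_eq_self (fun v => (Iio T).indicator (K b) v) volume T]
    congr 1; ext u
    by_cases hu : 0 < u
    · rw [indicator_of_mem (by exact hu), indicator_of_mem (by simp [hu])]
    · rw [indicator_of_notMem (by simpa using hu), indicator_of_notMem (by simpa using hu)]
  simp_rw [h1]
  rw [← integral_K hb]
  refine tendsto_integral_filter_of_dominated_convergence (K b) ?_ ?_ (integrable_K hb) ?_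
  · filter_upwards with T
    exact ((continuous_K b).measurable.indicator measurableSet_Iio).aestronglyMeasurable
  · filter_upwards with T
    filter_upwards with v
    by_cases hv : v ∈ Iio T
    · rw [indicator_of_mem hv, Real.norm_of_nonneg (K_nonneg hb v)]
    · rw [indicator_of_notMem hv, norm_zero]; exact K_nonneg hb v
  · filter_upwards with v
    refine tendsto_const_nhds.congr' ?_
    filter_upwards [eventually_gt_atTop v] with T hT
    rw [indicator_of_mem (by exact hT)]

lemma integrable_HK {b : ℝ} (hb : 0 < b) (T : ℝ) :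
    Integrable (fun u => H u * K b (T - u)) := by
  refine Integrable.bdd_mul (c := Real.log 4 + 4) ((integrable_K hb).comp_sub_left T)
    measurable_H.aestronglyMeasurable ?_
  filter_upwards with u
  rw [Real.norm_of_nonneg (H_nonneg u)]; exact H_le u

lemma tendsto_HK {b : ℝ} (hb : 0 < b) :
    Tendsto (fun T : ℝ => ∫ u in Ioi (0:ℝ), H u * K b (T - u)) atTop (𝓝 kap) := by
  have := (tendsto_J hb).add (tendsto_K hb)
  rw [zero_add] at this
  refine this.congr (fun T => ?_)
  have i1 : IntegrableOn (fun u => K b (T - u)) (Ioi 0) :=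
    ((integrable_K hb).comp_sub_left T).integrableOn
  have i2 : IntegrableOn (fun u => (H u - 1) * K b (T - u)) (Ioi 0) := by
    have : (fun u => (H u - 1) * K b (T - u)) = fun u => H u * K b (T - u) - K b (T - u) := by
      ext u; ring
    rw [this]
    exact (integrable_HK hb T).integrableOn.sub i1
  rw [← integral_add i2 i1]
  congr 1; ext u; ring

lemma H_mono_aux {u v : ℝ} (h : u ≤ v) : H u * Real.exp (u - v) ≤ H v := by
  unfold H
  have h1 : Chebyshev.psi (Real.exp u) ≤ Chebyshev.psi (Real.exp v) :=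
    Chebyshev.psi_mono (Real.exp_le_exp.mpr h)
  have h2 : Real.exp (-u) * Real.exp (u - v) = Real.exp (-v) := by
    rw [← Real.exp_add]; congr 1; ring
  rw [mul_assoc, h2]
  gcongr

/-- mass of the kernel on `[-a,a]` -/
noncomputable def mass (b a : ℝ) : ℝ := ∫ v in Icc (-a) a, K b v

lemma mass_le {b : ℝ} (hb : 0 < b) (a : ℝ) : mass b a ≤ kap := by
  rw [← integral_K hb]
  exact setIntegral_le_integral (integrable_K hb) (Eventually.of_forall (K_nonneg hb))

lemma mass_shift {b : ℝ} (hb : 0 < b) (a T : ℝ) :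
    ∫ u in Icc (T - a) (T + a), K b (T - u) = mass b a := by
  unfold mass
  rw [← integral_indicator measurableSet_Icc, ← integral_indicator measurableSet_Icc]
  rw [← integral_sub_left_eq_self (fun v => (Icc (-a) a).indicator (K b) v) volume T]
  congr 1; ext u
  by_cases hu : u ∈ Icc (T - a) (T + a)
  · rw [indicator_of_mem hu, indicator_of_mem]
    simp only [mem_Icc] at hu ⊢
    constructor <;> linarith [hu.1, hu.2]
  · rw [indicator_of_notMem hu, indicator_of_notMem]
    simp only [mem_Icc] at hu ⊢
    intro h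
    exact hu ⟨by linarith [h.1, h.2], by linarith [h.1, h.2]⟩

lemma tendsto_mass {a : ℝ} (ha : 0 < a) : Tendsto (fun b => mass b a) atTop (𝓝 kap) := by
  have h1 : ∀ b : ℝ, 0 < b → mass b a = ∫ v, (Icc (-(b * a)) (b * a)).indicator (K 1) v := by
    intro b hb
    unfold mass
    rw [← integral_indicator measurableSet_Icc]
    have : (fun v => (Icc (-a) a).indicator (K b) v) = fun v => b * ((Icc (-(b * a)) (b * a)).indicator (K 1) (b * v)) := by
      ext v
      by_cases hv : v ∈ Icc (-a) a
      · rw [indicator_of_mem hv, indicator_of_mem, K_scale]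
        simp only [mem_Icc] at hv ⊢
        constructor <;> nlinarith [hv.1, hv.2]
      · rw [indicator_of_notMem hv, indicator_of_notMem, mul_zero]
        simp only [mem_Icc] at hv ⊢
        intro h
        refine hv ⟨?_, ?_⟩
        · have := h.1; by_contra hc; push Not at hc; nlinarith
        · have := h.2; exact le_of_mul_le_mul_left this hb
    rw [show (∫ v, (Icc (-a) a).indicator (fun v => K b v) v) = ∫ v, b * ((Icc (-(b * a)) (b * a)).indicator (K 1) (b * v)) from by rw [← this]]
    rw [integral_const_mul, Measure.integral_comp_mul_left (fun v => (Icc (-(b * a)) (b * a)).indicator (K 1) v), smul_eq_mul, abs_of_pos (by positivity)]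
    field_simp
  have h2 : Tendsto (fun b : ℝ => ∫ v, (Icc (-(b * a)) (b * a)).indicator (K 1) v) atTop (𝓝 kap) := by
    refine tendsto_integral_filter_of_dominated_convergence (K 1) ?_ ?_ (integrable_K one_pos) ?_
    · filter_upwards with T
      exact ((continuous_K 1).measurable.indicator measurableSet_Icc).aestronglyMeasurable
    · filter_upwards with T
      filter_upwards with v
      by_cases hv : v ∈ Icc (-(T * a)) (T * a)
      · rw [indicator_of_mem hv, Real.norm_of_nonneg (K_nonneg one_pos v)]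
      · rw [indicator_of_notMem hv, norm_zero]; exact K_nonneg one_pos v
    · filter_upwards with v
      refine tendsto_const_nhds.congr' ?_
      filter_upwards [eventually_ge_atTop (|v| / a)] with T hT
      rw [indicator_of_mem]
      rw [div_le_iff₀ ha] at hT
      exact abs_le.mp hT
  refine h2.congr' ?_
  filter_upwards [eventually_gt_atTop 0] with b hb
  rw [h1 b hb]

lemma upper {b a T : ℝ} (hb : 0 < b) (ha : 0 < a) (hT : a < T) :
    H (T - a) * Real.exp (-(2 * a)) * mass b a ≤ ∫ u in Ioi (0:ℝ), H u * K b (T - u) := by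
  rw [← mass_shift hb a T, ← integral_const_mul]
  refine le_trans (setIntegral_mono_on (g := fun u => H u * K b (T - u)) ?_ ?_ measurableSet_Icc ?_) ?_
  · exact (((integrable_K hb).comp_sub_left T).const_mul _).integrableOn
  · exact (integrable_HK hb T).integrableOn
  · intro u hu
    refine mul_le_mul_of_nonneg_right ?_ (K_nonneg hb _)
    have h1 := H_mono_aux (u := T - a) (v := u) hu.1
    refine le_trans ?_ h1
    refine mul_le_mul_of_nonneg_left ?_ (H_nonneg _)
    exact Real.exp_le_exp.mpr (by linarith [hu.2])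
  · refine setIntegral_mono_set (integrable_HK hb T).integrableOn ?_ ?_
    · filter_upwards with u
      exact mul_nonneg (H_nonneg _) (K_nonneg hb _)
    · refine HasSubset.Subset.eventuallyLE ?_
      intro u hu
      exact lt_of_lt_of_le (by linarith) hu.1

lemma lower {b a T : ℝ} (hb : 0 < b) (ha : 0 < a) :
    ∫ u in Ioi (0:ℝ), H u * K b (T - u) ≤
      H (T + a) * Real.exp (2 * a) * kap + (Real.log 4 + 4) * (kap - mass b a) := by
  have h0 : ∫ u in Ioi (0:ℝ), H u * K b (T - u) ≤ ∫ u, H u * K b (T - u) :=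
    setIntegral_le_integral (integrable_HK hb T)
      (Eventually.of_forall (fun u => mul_nonneg (H_nonneg _) (K_nonneg hb _)))
  refine h0.trans ?_
  have hs : MeasurableSet (Icc (T - a) (T + a)) := measurableSet_Icc
  rw [← integral_add_compl hs (integrable_HK hb T)]
  have hK := (integrable_K hb).comp_sub_left T
  have h1 : ∫ u in Icc (T - a) (T + a), H u * K b (T - u) ≤ H (T + a) * Real.exp (2 * a) * kap := by
    calc _ ≤ ∫ u in Icc (T - a) (T + a), (H (T + a) * Real.exp (2 * a)) * K b (T - u) := by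
          refine setIntegral_mono_on (integrable_HK hb T).integrableOn (hK.const_mul _).integrableOn hs ?_
          intro u hu
          refine mul_le_mul_of_nonneg_right ?_ (K_nonneg hb _)
          have h1 := H_mono_aux (u := u) (v := T + a) hu.2
          have h2 : H u ≤ H (T + a) * Real.exp (T + a - u) := by
            have h3 : Real.exp (u - (T + a)) * Real.exp (T + a - u) = 1 := by
              rw [← Real.exp_add]; simp
            calc H u = H u * Real.exp (u - (T + a)) * Real.exp (T + a - u) := by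
                  rw [mul_assoc, h3, mul_one]
              _ ≤ _ := by gcongr
          refine h2.trans ?_
          refine mul_le_mul_of_nonneg_left ?_ (H_nonneg _)
          exact Real.exp_le_exp.mpr (by linarith [hu.1])
      _ = H (T + a) * Real.exp (2 * a) * mass b a := by
          rw [integral_const_mul, mass_shift hb]
      _ ≤ _ := by
          refine mul_le_mul_of_nonneg_left (mass_le hb a) ?_
          exact mul_nonneg (H_nonneg _) (Real.exp_pos _).le
  have h2 : ∫ u in (Icc (T - a) (T + a))ᶜ, H u * K b (T - u) ≤ (Real.log 4 + 4) * (kap - mass b a) := by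
    calc _ ≤ ∫ u in (Icc (T - a) (T + a))ᶜ, (Real.log 4 + 4) * K b (T - u) := by
          refine setIntegral_mono_on (integrable_HK hb T).integrableOn (hK.const_mul _).integrableOn hs.compl ?_
          intro u _
          exact mul_le_mul_of_nonneg_right (H_le u) (K_nonneg hb _)
      _ = _ := by
          rw [integral_const_mul]
          congr 1
          have h3 := integral_add_compl hs hK
          rw [mass_shift hb, integral_sub_left_eq_self (K b) volume T, integral_K hb] at h3
          linarith
  linarith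

theorem tendsto_H : Tendsto H atTop (𝓝 1) := by
  rw [Metric.tendsto_nhds]
  intro ε hε
  set x : ℝ := min ε 1 / 20 with hx
  have hx0 : 0 < x := by positivity
  have hx1 : x ≤ 1 / 20 := by rw [hx]; gcongr; exact min_le_right _ _
  have hxε : 20 * x ≤ ε := by rw [hx]; have := min_le_left ε 1; linarith
  -- choose a
  set a : ℝ := Real.log (1 + x) / 2 with ha
  have ha0 : 0 < a := by
    rw [ha]; have := Real.log_pos (show 1 < 1 + x by linarith); positivity
  have hea : Real.exp (2 * a) = 1 + x := by
    rw [ha, mul_div_cancel₀ _ (by norm_num : (2:ℝ) ≠ 0), Real.exp_log (by linarith)]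
  have hena : Real.exp (-(2 * a)) = (1 + x)⁻¹ := by rw [Real.exp_neg, hea]
  -- choose b
  have hk := kap_pos
  obtain ⟨b, hb0, hb⟩ : ∃ b : ℝ, 0 < b ∧ (1 - x) * kap ≤ mass b a := by
    have h1 : ∀ᶠ b : ℝ in atTop, (1 - x) * kap < mass b a :=
      (tendsto_mass ha0).eventually (lt_mem_nhds (by nlinarith))
    obtain ⟨b, hb1, hb2⟩ := (h1.and (eventually_gt_atTop 0)).exists
    exact ⟨b, hb2, hb1.le⟩
  have hHK := tendsto_HK hb0
  have e1 : ∀ᶠ T : ℝ in atTop, (∫ u in Ioi (0:ℝ), H u * K b (T - u)) < (1 + x) * kap :=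
    hHK.eventually (gt_mem_nhds (by nlinarith))
  have e2 : ∀ᶠ T : ℝ in atTop, (1 - x) * kap < (∫ u in Ioi (0:ℝ), H u * K b (T - u)) :=
    hHK.eventually (lt_mem_nhds (by nlinarith))
  have t1 : Tendsto (fun T : ℝ => T + a) atTop atTop := tendsto_atTop_add_const_right _ _ tendsto_id
  have t2 : Tendsto (fun T : ℝ => T - a) atTop atTop := tendsto_atTop_add_const_right _ _ tendsto_id
  filter_upwards [t1.eventually e1, t2.eventually e2, eventually_gt_atTop 0] with T h1 h2 hT
  have hlog : Real.log 4 + 4 ≤ 6 := by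
    have : Real.log 4 ≤ 2 := by
      rw [show (4:ℝ) = 2 ^ 2 by norm_num, Real.log_pow]
      have := Real.log_two_lt_d9
      push_cast; linarith
    linarith
  have hup := upper (b := b) (a := a) (T := T + a) hb0 ha0 (by linarith)
  have hlo := lower (b := b) (a := a) (T := T - a) hb0 ha0
  rw [add_sub_cancel_right, hena] at hup
  rw [sub_add_cancel, hea] at hlo
  have hH := H_nonneg T
  rw [Real.dist_eq, abs_lt]
  constructor
  · -- lower bound
    have h3 : (1 - x) * kap < H T * (1 + x) * kap + (Real.log 4 + 4) * (kap - mass b a) := lt_of_lt_of_le h2 hlo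
    have h4 : (Real.log 4 + 4) * (kap - mass b a) ≤ 6 * (x * kap) := by
      have : 0 ≤ kap - mass b a := by linarith [mass_le hb0 a]
      have h5 : kap - mass b a ≤ x * kap := by linarith
      calc (Real.log 4 + 4) * (kap - mass b a) ≤ 6 * (kap - mass b a) := by gcongr
        _ ≤ _ := by gcongr
    have h6 : (1 - x) * kap < (H T * (1 + x) + 6 * x) * kap := by nlinarith
    have h7 : 1 - x < H T * (1 + x) + 6 * x := lt_of_mul_lt_mul_right h6 hk.le
    nlinarith
  · have h3 : H T * (1 + x)⁻¹ * mass b a < (1 + x) * kap := lt_of_le_of_lt hup h1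
    have h4 : H T * (1 + x)⁻¹ * ((1 - x) * kap) ≤ H T * (1 + x)⁻¹ * mass b a := by gcongr
    have h5 : H T * (1 + x)⁻¹ * (1 - x) * kap < (1 + x) * kap := by linarith
    have h6 : H T * (1 + x)⁻¹ * (1 - x) < (1 + x) := lt_of_mul_lt_mul_right h5 hk.le
    have h7 : H T * (1 - x) < (1 + x) * (1 + x) := by
      have : H T * (1 + x)⁻¹ * (1 - x) = H T * (1 - x) / (1 + x) := by ring
      rw [this, div_lt_iff₀ (by linarith)] at h6
      exact h6
    nlinarith


open Chebyshev in
theorem psi_tendsto : Tendsto (fun x : ℝ => psi x / x) atTop (𝓝 1) := by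
  have h := tendsto_H.comp Real.tendsto_log_atTop
  refine h.congr' ?_
  filter_upwards [eventually_gt_atTop 0] with x hx
  simp only [Function.comp, H]
  rw [Real.exp_log hx, Real.exp_neg, Real.exp_log hx]
  rfl

open Chebyshev in
theorem theta_tendsto : Tendsto (fun x : ℝ => theta x / x) atTop (𝓝 1) := by
  have h := psi_tendsto
  obtain ⟨C, hC⟩ := psi_sub_theta_le_mul_sqrt
  have h2 : Tendsto (fun x : ℝ => (psi x - theta x) / x) atTop (𝓝 0) := by
    have h3 : Tendsto (fun x : ℝ => |C| * (1 / Real.sqrt x)) atTop (𝓝 0) := by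
      have : Tendsto (fun x : ℝ => 1 / Real.sqrt x) atTop (𝓝 0) := by
        have := (tendsto_inv_atTop_zero).comp Real.tendsto_sqrt_atTop
        simpa [Function.comp_def, one_div] using this
      simpa using this.const_mul |C|
    refine squeeze_zero' ?_ ?_ h3
    · filter_upwards [eventually_gt_atTop 0] with x hx
      have := theta_le_psi x
      apply div_nonneg _ hx.le
      linarith
    · filter_upwards [eventually_gt_atTop 0] with x hx
      have h4 := hC x
      have hs : 0 < Real.sqrt x := Real.sqrt_pos.mpr hx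
      have h5 : (psi x - theta x) / x ≤ |C| * Real.sqrt x / x := by
        gcongr
        exact h4.trans (by gcongr; exact le_abs_self C)
      refine h5.trans (le_of_eq ?_)
      have : x = Real.sqrt x * Real.sqrt x := (Real.mul_self_sqrt hx.le).symm
      rw [mul_div_assoc]
      congr 1
      rw [div_eq_div_iff hx.ne' hs.ne', one_mul, this.symm]
  have h5 := h.sub h2
  rw [sub_zero] at h5
  refine h5.congr' ?_
  filter_upwards [eventually_gt_atTop 0] with x hx
  rw [← sub_div]; congr 1; ring

end Pool.Agent.helper91.PNT
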