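import Mathlib
import Pool.Agent.helper91.PNT

/-!
# Handy forms of the prime number theorem and of Chebyshev's bounds
-/

open Finset Filter Topology

namespace Pool.Agent.helper91.Cheb

lemma log_le_half {y : ℝ} (hy : 0 < y) : Real.log y ≤ y / 2 := by
  have h1 := Real.log_le_sub_one_of_pos (show 0 < y / 2 by positivity)
  rw [Real.log_div hy.ne' (by norm_num)] at h1
  have := Real.log_two_lt_d9
  linarith

lemma log_le_sqrt {x : ℝ} (hx : 0 < x) : Real.log x ≤ √x := by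
  have h := log_le_half (Real.sqrt_pos.mpr hx)
  rw [Real.log_sqrt hx.le] at h
  linarith

lemma log_four_le : Real.log 4 ≤ 1.4 := by
  have : Real.log 4 = 2 * Real.log 2 := by
    rw [show (4:ℝ) = 2 ^ 2 by norm_num, Real.log_pow]; norm_num
  rw [this]
  have := Real.log_two_lt_d9
  linarith

/-- Chebyshev's upper bound -/
lemma pi_mul_log_le (n : ℕ) : (Nat.primeCounting n : ℝ) * Real.log n ≤ 4 * n := by
  rcases Nat.lt_or_ge n 2 with h | h
  · interval_cases n <;> simp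
  · have hn1 : (1:ℝ) < n := by exact_mod_cast h
    have hn0 : (0:ℝ) < n := by linarith
    have h1 := Chebyshev.pi_le_log4_mul_div hn1
    rw [Nat.floor_natCast] at h1
    have hl : 0 < Real.log n := Real.log_pos hn1
    have hs : Real.log (√(n:ℝ)) = Real.log n / 2 := Real.log_sqrt hn0.le
    rw [hs] at h1
    have h2 := mul_le_mul_of_nonneg_right h1 hl.le
    refine h2.trans ?_
    have h3 : (Real.log 4 * n / (Real.log n / 2) + √(n:ℝ)) * Real.log n =
        2 * Real.log 4 * n + √(n:ℝ) * Real.log n := by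
      field_simp
    rw [h3]
    have h4 : √(n:ℝ) * Real.log n ≤ n := by
      calc √(n:ℝ) * Real.log n ≤ √(n:ℝ) * √(n:ℝ) :=
            mul_le_mul_of_nonneg_left (log_le_sqrt hn0) (Real.sqrt_nonneg _)
        _ = n := Real.mul_self_sqrt hn0.le
    have := log_four_le
    nlinarith

lemma theta_bounds {ε : ℝ} (hε : 0 < ε) : ∃ n₀ : ℕ, ∀ n : ℕ, n₀ ≤ n →
    (1 - ε) * n ≤ Chebyshev.theta n ∧ Chebyshev.theta n ≤ (1 + ε) * n := by
  have h := PNT.theta_tendsto.comp (tendsto_natCast_atTop_atTop (R := ℝ))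
  have h1 : ∀ᶠ n : ℕ in atTop, |Chebyshev.theta n / n - 1| < ε := by
    have := (Metric.tendsto_nhds.mp h) ε hε
    simpa [Real.dist_eq] using this
  obtain ⟨n₀, hn₀⟩ := eventually_atTop.mp h1
  refine ⟨max n₀ 1, fun n hn => ?_⟩
  have h2 := hn₀ n (le_trans (le_max_left _ _) hn)
  have hn0 : (0:ℝ) < n := by exact_mod_cast lt_of_lt_of_le Nat.one_pos (le_trans (le_max_right _ _) hn)
  rw [abs_lt] at h2
  constructor
  · have : 1 - ε ≤ Chebyshev.theta n / n := by linarith [h2.1]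
    rwa [le_div_iff₀ hn0] at this
  · have : Chebyshev.theta n / n ≤ 1 + ε := by linarith [h2.2]
    rwa [div_le_iff₀ hn0] at this

lemma theta_sub_eq (m n : ℕ) (h : m ≤ n) : Chebyshev.theta n - Chebyshev.theta m =
    ∑ p ∈ (Nat.primesLE n).filter (fun p => m < p), Real.log p := by
  rw [Chebyshev.theta_eq_sum_primesLE_log, Chebyshev.theta_eq_sum_primesLE_log, sub_eq_iff_eq_add',
    ← Finset.sum_union]
  · congr 1
    ext p
    simp only [mem_union, mem_filter, Nat.mem_primesLE]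
    constructor
    · rintro ⟨h1, h2⟩
      by_cases h3 : p ≤ m
      · exact Or.inl ⟨h3, h2⟩
      · exact Or.inr ⟨⟨h1, h2⟩, by omega⟩
    · rintro (⟨h1, h2⟩ | ⟨⟨h1, h2⟩, h3⟩)
      · exact ⟨h1.trans h, h2⟩
      · exact ⟨h1, h2⟩
  · rw [Finset.disjoint_left]
    intro p
    simp only [mem_filter, Nat.mem_primesLE]
    rintro ⟨h1, h2⟩ ⟨_, h3⟩
    omega

/-- primes in `(n/2, n]` have large mass -/
lemma theta_half : ∃ n₀ : ℕ, ∀ n : ℕ, n₀ ≤ n → (1/3 : ℝ) * n ≤
    ∑ p ∈ (Nat.primesLE n).filter (fun p => n / 2 < p), Real.log p := by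
  obtain ⟨n₀, hn₀⟩ := theta_bounds (show (0:ℝ) < 1/20 by norm_num)
  refine ⟨2 * n₀ + 2, fun n hn => ?_⟩
  rw [← theta_sub_eq _ _ (Nat.div_le_self n 2)]
  have h1 := (hn₀ n (by omega)).1
  have h2 := (hn₀ (n / 2) (by omega)).2
  have h3 : ((n / 2 : ℕ) : ℝ) ≤ n / 2 := Nat.cast_div_le
  have hn0 : (0:ℝ) ≤ n := Nat.cast_nonneg n
  linarith

end Pool.Agent.helper91.Cheb
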