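import Mathlib
import Pool.Agent.helper91.Basic
import Pool.Agent.helper91.BrunTitchmarsh
import Pool.Agent.helper91.Mertens
import Pool.Agent.helper91.Cheb

/-!
# A variant of the Erdős–Selfridge argument

For `b ≥ k^2`, many integers of the block `(b, b+k]` have a prime factor exceeding `k`
with odd exponent.
-/

open Finset
open scoped Nat

namespace Pool.Agent.helper91.D4

/-- squarefree part -/
noncomputable def sqf (y : ℕ) : ℕ := (Nat.sq_mul_squarefree y).choose

lemma sqf_spec (y : ℕ) : ∃ t, t ^ 2 * sqf y = y ∧ Squarefree (sqf y) :=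
  (Nat.sq_mul_squarefree y).choose_spec

lemma sqf_pos {y : ℕ} : 0 < sqf y := by
  obtain ⟨t, h1, h2⟩ := sqf_spec y
  exact Nat.pos_of_ne_zero h2.ne_zero

lemma sqf_factorization {y : ℕ} (hy : y ≠ 0) (p : ℕ) :
    (sqf y).factorization p = y.factorization p % 2 := by
  obtain ⟨t, h1, h2⟩ := sqf_spec y
  have ht : t ≠ 0 := by rintro rfl; apply hy; rw [← h1]; simp
  have h3 : y.factorization p = 2 * t.factorization p + (sqf y).factorization p := by
    conv_lhs => rw [← h1]
    rw [Nat.factorization_mul (pow_ne_zero 2 ht) h2.ne_zero, Nat.factorization_pow]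
    simp
  have h4 := h2.natFactorization_le_one p
  omega

/-- squarefree parts are distinct in a short block -/
lemma sqf_injOn {b k y y' : ℕ} (hb : k ^ 2 ≤ b) (hy : y ∈ Ioc b (b + k)) (hy' : y' ∈ Ioc b (b + k))
    (h : sqf y = sqf y') : y = y' := by
  wlog hlt : y < y' generalizing y y' with H
  · rcases Nat.lt_or_ge y' y with h1 | h1
    · exact (H hy' hy h.symm h1).symm
    · omega
  exfalso
  rw [mem_Ioc] at hy hy'
  obtain ⟨t, h1, h2⟩ := sqf_spec y
  obtain ⟨t', h1', h2'⟩ := sqf_spec y'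
  rw [← h] at h1'
  set w := sqf y with hw
  have hwpos : 0 < w := sqf_pos
  have htt : t < t' := by
    by_contra hge
    push Not at hge
    have : t' ^ 2 * w ≤ t ^ 2 * w := Nat.mul_le_mul_right _ (Nat.pow_le_pow_left hge 2)
    omega
  have h3 : y + 2 * t * w ≤ y' := by
    rw [← h1, ← h1']
    have : (t + 1) ^ 2 ≤ t' ^ 2 := Nat.pow_le_pow_left htt 2
    nlinarith
  have h4 : 2 * t * w < k := by omega
  have h5 : k ^ 2 < t ^ 2 * w := by omega
  have h6 : (2 * t * w) ^ 2 < k ^ 2 := Nat.pow_lt_pow_left h4 (by norm_num)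
  have h7 : (2 * t * w) ^ 2 = 4 * w * (t ^ 2 * w) := by ring
  nlinarith

lemma card_dvd (b k m : ℕ) (hm : 0 < m) :
    ((Ioc b (b + k)).filter (fun y => m ∣ y)).card ≤ k / m + 1 := by
  have h := BT.count_dvd b k m hm
  rw [abs_le] at h
  have h2 : (((Ioc b (b + k)).filter (fun y => m ∣ y)).card : ℝ) ≤ (k:ℝ) / m + 1 := by linarith [h.2]
  have h3 := Nat.lt_floor_add_one ((k:ℝ) / m)
  rw [Nat.floor_div_eq_div] at h3
  have h4 : (((Ioc b (b + k)).filter (fun y => m ∣ y)).card : ℝ) < ((k / m + 1 + 1 : ℕ) : ℝ) := by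
    push_cast; linarith
  have h5 := Nat.cast_lt.mp h4
  omega

lemma card_odd_two (b k : ℕ) :
    (((Ioc b (b + k)).filter (fun y => Odd (y.factorization 2))).card : ℝ) ≤ 3 / 8 * k + 3 := by
  have hsub : (Ioc b (b + k)).filter (fun y => Odd (y.factorization 2)) ⊆
      ((Ioc b (b + k)).filter (fun y => 2 ∣ y) \ (Ioc b (b + k)).filter (fun y => 4 ∣ y)) ∪
      (Ioc b (b + k)).filter (fun y => 8 ∣ y) := by
    intro y hy
    rw [mem_filter] at hy
    obtain ⟨hy1, hy2⟩ := hy
    have hy0 : y ≠ 0 := by rw [mem_Ioc] at hy1; omega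
    have hdiv : ∀ j, 2 ^ j ∣ y ↔ j ≤ y.factorization 2 := fun j =>
      Nat.prime_two.pow_dvd_iff_le_factorization hy0
    have h2 := hdiv 1
    have h4 := hdiv 2
    have h8 := hdiv 3
    norm_num at h2 h4 h8
    simp only [mem_union, mem_sdiff, mem_filter, hy1, true_and, h2, h4, h8]
    obtain ⟨r, hr⟩ := hy2
    omega
  have hsub2 : (Ioc b (b + k)).filter (fun y => 4 ∣ y) ⊆ (Ioc b (b + k)).filter (fun y => 2 ∣ y) := by
    intro y hy
    rw [mem_filter] at hy ⊢
    exact ⟨hy.1, (by norm_num : (2:ℕ) ∣ 4).trans hy.2⟩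
  have h1 := (card_le_card hsub).trans (card_union_le _ _)
  rw [card_sdiff_of_subset hsub2] at h1
  have h1' := card_le_card hsub2
  have c2 := BT.count_dvd b k 2 (by norm_num)
  have c4 := BT.count_dvd b k 4 (by norm_num)
  have c8 := BT.count_dvd b k 8 (by norm_num)
  rw [abs_le] at c2 c4 c8
  have h3 : (((Ioc b (b + k)).filter (fun y => Odd (y.factorization 2))).card : ℝ) ≤
      ((Ioc b (b + k)).filter (fun y => 2 ∣ y)).card - ((Ioc b (b + k)).filter (fun y => 4 ∣ y)).card +
      ((Ioc b (b + k)).filter (fun y => 8 ∣ y)).card := by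
    rw [← Nat.cast_sub h1']
    exact_mod_cast h1
  push_cast at c2 c4 c8
  linarith [c2.2, c4.1, c8.2]

lemma card_odd_three (b k : ℕ) :
    (((Ioc b (b + k)).filter (fun y => Odd (y.factorization 3))).card : ℝ) ≤ 7 / 27 * k + 3 := by
  have hsub : (Ioc b (b + k)).filter (fun y => Odd (y.factorization 3)) ⊆
      ((Ioc b (b + k)).filter (fun y => 3 ∣ y) \ (Ioc b (b + k)).filter (fun y => 9 ∣ y)) ∪
      (Ioc b (b + k)).filter (fun y => 27 ∣ y) := by
    intro y hy
    rw [mem_filter] at hy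
    obtain ⟨hy1, hy2⟩ := hy
    have hy0 : y ≠ 0 := by rw [mem_Ioc] at hy1; omega
    have hdiv : ∀ j, 3 ^ j ∣ y ↔ j ≤ y.factorization 3 := fun j =>
      Nat.prime_three.pow_dvd_iff_le_factorization hy0
    have h2 := hdiv 1
    have h4 := hdiv 2
    have h8 := hdiv 3
    norm_num at h2 h4 h8
    simp only [mem_union, mem_sdiff, mem_filter, hy1, true_and, h2, h4, h8]
    obtain ⟨r, hr⟩ := hy2
    omega
  have hsub2 : (Ioc b (b + k)).filter (fun y => 9 ∣ y) ⊆ (Ioc b (b + k)).filter (fun y => 3 ∣ y) := by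
    intro y hy
    rw [mem_filter] at hy ⊢
    exact ⟨hy.1, (by norm_num : (3:ℕ) ∣ 9).trans hy.2⟩
  have h1 := (card_le_card hsub).trans (card_union_le _ _)
  rw [card_sdiff_of_subset hsub2] at h1
  have h1' := card_le_card hsub2
  have c2 := BT.count_dvd b k 3 (by norm_num)
  have c4 := BT.count_dvd b k 9 (by norm_num)
  have c8 := BT.count_dvd b k 27 (by norm_num)
  rw [abs_le] at c2 c4 c8
  have h3 : (((Ioc b (b + k)).filter (fun y => Odd (y.factorization 3))).card : ℝ) ≤
      ((Ioc b (b + k)).filter (fun y => 3 ∣ y)).card - ((Ioc b (b + k)).filter (fun y => 9 ∣ y)).card +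
      ((Ioc b (b + k)).filter (fun y => 27 ∣ y)).card := by
    rw [← Nat.cast_sub h1']
    exact_mod_cast h1
  push_cast at c2 c4 c8
  linarith [c2.2, c4.1, c8.2]

lemma card_not_four_nine (w : ℕ) :
    (((Ioc 0 w).filter (fun n => ¬ 4 ∣ n ∧ ¬ 9 ∣ n)).card : ℝ) ≤ 2 / 3 * w + 2 := by
  have h1 : (Ioc 0 w).filter (fun n => ¬ 4 ∣ n ∧ ¬ 9 ∣ n) =
      Ioc 0 w \ ((Ioc 0 w).filter (fun n => 4 ∣ n) ∪ (Ioc 0 w).filter (fun n => 9 ∣ n)) := by
    ext n
    simp only [mem_filter, mem_sdiff, mem_union]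
    tauto
  have hi : (Ioc 0 w).filter (fun n => 4 ∣ n) ∩ (Ioc 0 w).filter (fun n => 9 ∣ n) =
      (Ioc 0 w).filter (fun n => 36 ∣ n) := by
    ext n
    simp only [mem_filter, mem_inter]
    constructor
    · rintro ⟨⟨h1, h2⟩, ⟨_, h3⟩⟩
      refine ⟨h1, ?_⟩
      omega
    · rintro ⟨h1, h2⟩
      refine ⟨⟨h1, by omega⟩, ⟨h1, by omega⟩⟩
  have hu := card_union_add_card_inter ((Ioc 0 w).filter (fun n => 4 ∣ n)) ((Ioc 0 w).filter (fun n => 9 ∣ n))
  rw [hi, Nat.Ioc_filter_dvd_card_eq_div, Nat.Ioc_filter_dvd_card_eq_div, Nat.Ioc_filter_dvd_card_eq_div] at hu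
  have hc : ((Ioc 0 w).filter (fun n => ¬ 4 ∣ n ∧ ¬ 9 ∣ n)).card ≤ w - (w / 4 + w / 9 - w / 36) := by
    rw [h1, card_sdiff_of_subset]
    · rw [Nat.card_Ioc]; omega
    · intro n; simp only [mem_union, mem_filter]; tauto
  have hc2 : 3 * ((Ioc 0 w).filter (fun n => ¬ 4 ∣ n ∧ ¬ 9 ∣ n)).card ≤ 2 * w + 6 := by omega
  have : (3:ℝ) * ((Ioc 0 w).filter (fun n => ¬ 4 ∣ n ∧ ¬ 9 ∣ n)).card ≤ 2 * w + 6 := by exact_mod_cast hc2
  linarith

lemma rank_bound (K : ℕ) : ∀ W : Finset ℕ, W.card = K → (∀ w ∈ W, 0 < w ∧ ¬ 4 ∣ w ∧ ¬ 9 ∣ w) →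
    ∑ r ∈ Ioc 0 (K - 2), Real.log (3 / 2 * r) ≤ ∑ w ∈ W, Real.log w := by
  induction K with
  | zero =>
    intro W hW _
    rw [Finset.card_eq_zero] at hW
    subst hW; simp
  | succ K ih =>
    intro W hW hP
    have hne : W.Nonempty := by rw [← Finset.card_pos]; omega
    set w₀ := W.max' hne with hw₀
    have hw₀m : w₀ ∈ W := W.max'_mem hne
    have hcard : (W.erase w₀).card = K := by rw [card_erase_of_mem hw₀m, hW]; omega
    have ih' := ih (W.erase w₀) hcard (fun w hw => hP w (mem_of_mem_erase hw))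
    have hsum : ∑ w ∈ W, Real.log (w:ℝ) = Real.log w₀ + ∑ w ∈ W.erase w₀, Real.log (w:ℝ) := by
      rw [Finset.add_sum_erase W (fun w => Real.log (w:ℝ)) hw₀m]
    rw [hsum]
    have hlog0 : 0 ≤ Real.log (w₀ : ℝ) := Real.log_natCast_nonneg w₀
    by_cases hK : K + 1 ≤ 2
    · have e : K + 1 - 2 = 0 := by omega
      have e' : K - 2 = 0 := by omega
      rw [e]
      rw [e'] at ih'
      simp only [Ioc_self, sum_empty] at ih' ⊢
      linarith
    · have e : K + 1 - 2 = (K - 2) + 1 := by omega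
      rw [e, ← Finset.insert_Ioc_right_eq_Ioc_add_one (Nat.zero_le _), Finset.sum_insert (by simp)]
      have hsub : W ⊆ (Ioc 0 w₀).filter (fun n => ¬ 4 ∣ n ∧ ¬ 9 ∣ n) := by
        intro w hw
        rw [mem_filter, mem_Ioc]
        exact ⟨⟨(hP w hw).1, W.le_max' w hw⟩, (hP w hw).2⟩
      have h1 : ((K + 1 : ℕ) : ℝ) ≤ 2 / 3 * w₀ + 2 := by
        rw [← hW]
        refine le_trans ?_ (card_not_four_nine w₀)
        exact_mod_cast card_le_card hsub
      have h2 : (3 / 2 : ℝ) * ((K - 2 + 1 : ℕ) : ℝ) ≤ w₀ := by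
        have : ((K - 2 + 1 : ℕ) : ℝ) = (K + 1 : ℕ) - 2 := by
          have : K - 2 + 1 = K + 1 - 2 := by omega
          rw [this, Nat.cast_sub (by omega)]; norm_num
        rw [this]; linarith
      have h3 : Real.log ((3 / 2 : ℝ) * ((K - 2 + 1 : ℕ) : ℝ)) ≤ Real.log w₀ :=
        Real.log_le_log (by positivity) h2
      linarith

lemma sum_log_rank (N : ℕ) : ∑ r ∈ Ioc 0 N, Real.log (3 / 2 * r) = N * Real.log (3 / 2) + Real.log (N ! : ℝ) := by
  induction N with
  | zero => simp
  | succ N ih =>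
    rw [← Finset.insert_Ioc_right_eq_Ioc_add_one (Nat.zero_le _), Finset.sum_insert (by simp), ih,
      Real.log_mul (by norm_num) (by positivity), Nat.factorial_succ]
    push_cast
    rw [Real.log_mul (by positivity) (by positivity)]
    ring

lemma log_factorial_sub (N k : ℕ) (h : N ≤ k) : Real.log (k ! : ℝ) ≤ Real.log (N ! : ℝ) + (k - N : ℕ) * Real.log k := by
  have h1 := blk_mul_factorial N (k - N)
  rw [Nat.add_sub_cancel' h] at h1
  have h2 : blk N (k - N) ≤ k ^ (k - N) := by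
    unfold blk
    have := Finset.prod_le_pow_card (Ioc N (N + (k - N))) (fun x => x) k (fun x hx => by rw [mem_Ioc] at hx; omega)
    simpa using this
  rw [← h1]
  push_cast
  have hb : (0:ℝ) < blk N (k - N) := by exact_mod_cast blk_pos _ _
  rw [Real.log_mul hb.ne' (by positivity), ← Real.log_pow, add_comm]
  have : Real.log (blk N (k - N)) ≤ Real.log ((k:ℝ) ^ (k - N)) := Real.log_le_log hb (by exact_mod_cast h2)
  linarith

lemma sum_log_sqf (k : ℕ) (T : Finset ℕ) (hT : ∀ y ∈ T, y ≠ 0 ∧ ∀ p, p.Prime → k < p → ¬ Odd (y.factorization p)) :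
    ∑ y ∈ T, Real.log (sqf y : ℝ) =
      ∑ p ∈ Nat.primesLE k, Real.log p * ((T.filter (fun y => Odd (y.factorization p))).card : ℝ) := by
  have h1 : ∀ y ∈ T, Real.log (sqf y : ℝ) =
      ∑ p ∈ Nat.primesLE k, Real.log p * (if Odd (y.factorization p) then 1 else 0) := by
    intro y hy
    obtain ⟨hy0, hy1⟩ := hT y hy
    rw [Real.log_nat_eq_sum_factorization]
    have h2 : ∀ p, ((sqf y).factorization p : ℝ) * Real.log p =
        Real.log p * (if Odd (y.factorization p) then 1 else 0) := by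
      intro p
      rw [sqf_factorization hy0 p]
      by_cases ho : Odd (y.factorization p)
      · rw [if_pos ho, Nat.odd_iff.mp ho]; simp
      · rw [if_neg ho]
        rw [Nat.not_odd_iff_even, Nat.even_iff] at ho
        rw [ho]; simp
    rw [Finsupp.sum, Finset.sum_congr rfl (fun p _ => h2 p)]
    apply Finset.sum_subset
    · intro p hp
      rw [Nat.support_factorization, Nat.mem_primeFactors] at hp
      rw [Nat.mem_primesLE]
      refine ⟨?_, hp.1⟩
      by_contra hlt
      push Not at hlt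
      have h3 := hy1 p hp.1 hlt
      have h4 := sqf_factorization hy0 p
      have h5 : 0 < (sqf y).factorization p := hp.1.factorization_pos_of_dvd hp.2.2 hp.2.1
      rw [Nat.not_odd_iff_even, Nat.even_iff] at h3
      omega
    · intro p _ hp
      rw [Finsupp.notMem_support_iff] at hp
      rw [← h2 p, hp]; simp
  rw [Finset.sum_congr rfl h1, Finset.sum_comm]
  refine Finset.sum_congr rfl (fun p _ => ?_)
  rw [← Finset.mul_sum, Finset.card_filter]
  push_cast
  rfl

lemma v2_factorial (k : ℕ) : (31 / 32 : ℝ) * k - 5 ≤ ((k !).factorization 2 : ℝ) := by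
  have h1 := Nat.factorization_factorial Nat.prime_two (n := k) (b := max 6 (Nat.log 2 k + 1))
    (lt_of_lt_of_le (Nat.lt_succ_self _) (le_max_right _ _))
  have h2 : ∑ i ∈ Ico 1 6, k / 2 ^ i ≤ (k !).factorization 2 := by
    rw [h1]
    apply Finset.sum_le_sum_of_subset
    exact Finset.Ico_subset_Ico_right (le_max_left _ _)
  have h3 : ∑ i ∈ Ico 1 6, k / 2 ^ i = k / 2 + k / 4 + k / 8 + k / 16 + k / 32 := by
    simp [Finset.sum_Ico_succ_top]
  rw [h3] at h2
  have h4 : 31 * k ≤ 32 * (k !).factorization 2 + 160 := by omega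
  have : (31:ℝ) * k ≤ 32 * (k !).factorization 2 + 160 := by exact_mod_cast h4
  linarith

lemma v3_factorial (k : ℕ) : (13 / 27 : ℝ) * k - 3 ≤ ((k !).factorization 3 : ℝ) := by
  have h1 := Nat.factorization_factorial Nat.prime_three (n := k) (b := max 4 (Nat.log 3 k + 1))
    (lt_of_lt_of_le (Nat.lt_succ_self _) (le_max_right _ _))
  have h2 : ∑ i ∈ Ico 1 4, k / 3 ^ i ≤ (k !).factorization 3 := by
    rw [h1]
    apply Finset.sum_le_sum_of_subset
    exact Finset.Ico_subset_Ico_right (le_max_left _ _)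
  have h3 : ∑ i ∈ Ico 1 4, k / 3 ^ i = k / 3 + k / 9 + k / 27 := by
    simp [Finset.sum_Ico_succ_top]
  rw [h3] at h2
  have h4 : 13 * k ≤ 27 * (k !).factorization 3 + 81 := by omega
  have : (13:ℝ) * k ≤ 27 * (k !).factorization 3 + 81 := by exact_mod_cast h4
  linarith

/-- upper bound for the product of the squarefree parts -/
lemma sum_log_sqf_le {b k : ℕ} (hk : 3 ≤ k) (T : Finset ℕ) (hTJ : T ⊆ Ioc b (b + k))
    (hT : ∀ y ∈ T, ∀ p, p.Prime → k < p → ¬ Odd (y.factorization p)) :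
    ∑ y ∈ T, Real.log (sqf y : ℝ) ≤ Real.log (k ! : ℝ) + Chebyshev.theta k
      + Real.log 2 * (7 - 19 / 32 * k) + Real.log 3 * (5 - 2 / 9 * k) := by
  rw [sum_log_sqf k T (fun y hy => ⟨by have := hTJ hy; rw [mem_Ioc] at this; omega, hT y hy⟩)]
  have h2k : 2 ∈ Nat.primesLE k := by rw [Nat.mem_primesLE]; exact ⟨by omega, Nat.prime_two⟩
  have h3k : 3 ∈ Nat.primesLE k := by rw [Nat.mem_primesLE]; exact ⟨by omega, Nat.prime_three⟩
  have key : ∀ p ∈ Nat.primesLE k, Real.log p * ((T.filter (fun y => Odd (y.factorization p))).card : ℝ) ≤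
      (((k !).factorization p : ℝ) * Real.log p + Real.log p) +
      ((if p = 2 then Real.log 2 * (7 - 19 / 32 * (k:ℝ)) else 0) +
       (if p = 3 then Real.log 3 * (5 - 2 / 9 * (k:ℝ)) else 0)) := by
    intro p hp
    have hp' := Nat.prime_of_mem_primesLE hp
    have hlog : 0 ≤ Real.log (p:ℝ) := Real.log_natCast_nonneg p
    by_cases h2 : p = 2
    · subst h2
      have c1 : ((T.filter (fun y => Odd (y.factorization 2))).card : ℝ) ≤ 3 / 8 * k + 3 := by
        refine le_trans ?_ (card_odd_two b k)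
        exact_mod_cast card_le_card (Finset.filter_subset_filter _ hTJ)
      have c2 := v2_factorial k
      simp only [if_true]
      rw [if_neg (by norm_num : ¬ (2:ℕ) = 3)]
      push_cast
      have : (0:ℝ) ≤ Real.log 2 := Real.log_nonneg (by norm_num)
      have c3 : ((T.filter (fun y => Odd (y.factorization 2))).card : ℝ) ≤
        ((k !).factorization 2 : ℝ) + 1 + (7 - 19 / 32 * k) := by linarith
      have := mul_le_mul_of_nonneg_left c3 this
      linarith
    · by_cases h3 : p = 3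
      · subst h3
        have c1 : ((T.filter (fun y => Odd (y.factorization 3))).card : ℝ) ≤ 7 / 27 * k + 3 := by
          refine le_trans ?_ (card_odd_three b k)
          exact_mod_cast card_le_card (Finset.filter_subset_filter _ hTJ)
        have c2 := v3_factorial k
        simp only [if_true]
        rw [if_neg (by norm_num : ¬ (3:ℕ) = 2)]
        push_cast
        have : (0:ℝ) ≤ Real.log 3 := Real.log_nonneg (by norm_num)
        have c3 : ((T.filter (fun y => Odd (y.factorization 3))).card : ℝ) ≤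
          ((k !).factorization 3 : ℝ) + 1 + (5 - 2 / 9 * k) := by linarith
        have := mul_le_mul_of_nonneg_left c3 this
        linarith
      · rw [if_neg h2, if_neg h3]
        have c1 : (T.filter (fun y => Odd (y.factorization p))).card ≤ k / p + 1 := by
          refine le_trans (card_le_card ?_) (card_dvd b k p hp'.pos)
          intro y hy
          rw [mem_filter] at hy ⊢
          exact ⟨hTJ hy.1, dvd_of_odd_factorization hy.2⟩
        have c2 := Mertens.div_le_factorization hp' k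
        have c3 : ((T.filter (fun y => Odd (y.factorization p))).card : ℝ) ≤ ((k !).factorization p : ℝ) + 1 := by
          exact_mod_cast c1.trans (by omega)
        have := mul_le_mul_of_nonneg_left c3 hlog
        linarith
  refine (Finset.sum_le_sum key).trans ?_
  rw [Finset.sum_add_distrib, Finset.sum_add_distrib, Finset.sum_add_distrib, ← Mertens.log_factorial_eq,
    ← Chebyshev.theta_eq_sum_primesLE_log, Finset.sum_ite_eq', Finset.sum_ite_eq', if_pos h2k, if_pos h3k]
  linarith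

/-- lower bound for the product of the squarefree parts -/
lemma le_sum_log_sqf {b k : ℕ} (hb : k ^ 2 ≤ b) (T : Finset ℕ) (hTJ : T ⊆ Ioc b (b + k)) :
    ((T.card - 2 : ℕ) : ℝ) * Real.log (3 / 2) + Real.log (k ! : ℝ) - (k - (T.card - 2) : ℕ) * Real.log k
      ≤ ∑ y ∈ T, Real.log (sqf y : ℝ) := by
  have hinj : Set.InjOn sqf (T : Set ℕ) := by
    intro y hy y' hy' h
    exact sqf_injOn hb (hTJ hy) (hTJ hy') h
  have hcard : (T.image sqf).card = T.card := Finset.card_image_of_injOn hinj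
  have h1 := rank_bound T.card (T.image sqf) hcard (by
    intro w hw
    rw [mem_image] at hw
    obtain ⟨y, hy, rfl⟩ := hw
    obtain ⟨t, _, h2⟩ := sqf_spec y
    refine ⟨sqf_pos, fun h4 => ?_, fun h9 => ?_⟩
    · have : (2:ℕ) * 2 ∣ sqf y := by norm_num; exact h4
      have := h2 2 this
      rw [Nat.isUnit_iff] at this; omega
    · have : (3:ℕ) * 3 ∣ sqf y := by norm_num; exact h9
      have := h2 3 this
      rw [Nat.isUnit_iff] at this; omega)
  rw [Finset.sum_image hinj, sum_log_rank] at h1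
  have hTk : T.card ≤ k := by
    have := card_le_card hTJ
    rw [Nat.card_Ioc] at this; omega
  have h2 := log_factorial_sub (T.card - 2) k (by omega)
  linarith

/-- **Erdős–Selfridge variant**. -/
theorem es_count : ∃ k₀ : ℕ, 2 ≤ k₀ ∧ ∀ k, k₀ ≤ k → ∀ b, k ^ 2 ≤ b →
    ∃ A : Finset ℕ, A ⊆ Ioc b (b + k) ∧ (∀ y ∈ A, ∃ p, p.Prime ∧ k < p ∧ Odd (y.factorization p)) ∧
      (1 / 50 : ℝ) * k / Real.log k ≤ A.card := by
  classical
  obtain ⟨k₁, hk₁⟩ := Cheb.theta_bounds (show (0:ℝ) < 1 / 100 by norm_num)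
  have hlim : ∀ᶠ k : ℕ in Filter.atTop, Real.log k ≤ (1 / 1000 : ℝ) * k := by
    have h1 : ∀ᶠ x : ℝ in Filter.atTop, ‖Real.log x‖ ≤ (1 / 1000 : ℝ) * ‖x‖ :=
      Real.isLittleO_log_id_atTop.def (by norm_num)
    have h2 := (tendsto_natCast_atTop_atTop (R := ℝ)).eventually h1
    filter_upwards [h2] with k hk
    rw [Real.norm_eq_abs, Real.norm_eq_abs, abs_of_nonneg (Real.log_natCast_nonneg k),
      abs_of_nonneg (Nat.cast_nonneg k)] at hk
    exact hk
  obtain ⟨k₂, hk₂⟩ := Filter.eventually_atTop.mp hlim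
  refine ⟨max (max k₁ k₂) 100000, le_trans (by norm_num) (le_max_right _ _), fun k hk b hb => ?_⟩
  have hka : k₁ ≤ k := le_trans (le_trans (le_max_left _ _) (le_max_left _ _)) hk
  have hkb : k₂ ≤ k := le_trans (le_trans (le_max_right _ _) (le_max_left _ _)) hk
  have hkc : 100000 ≤ k := le_trans (le_max_right _ _) hk
  have hθ := (hk₁ k hka).2
  have hlogk := hk₂ k hkb
  set A := (Ioc b (b + k)).filter (fun y => ∃ p, p.Prime ∧ k < p ∧ Odd (y.factorization p)) with hA
  refine ⟨A, Finset.filter_subset _ _, fun y hy => ?_, ?_⟩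
  · rw [hA, mem_filter] at hy; exact hy.2
  by_contra hcon
  push Not at hcon
  set T := (Ioc b (b + k)).filter (fun y => ¬ ∃ p, p.Prime ∧ k < p ∧ Odd (y.factorization p)) with hT
  have hAT : A.card + T.card = k := by
    have := Finset.card_filter_add_card_filter_not (s := Ioc b (b + k))
      (fun y => ∃ p, p.Prime ∧ k < p ∧ Odd (y.factorization p))
    rw [Nat.card_Ioc] at this
    rw [hA, hT]
    omega
  have hTJ : T ⊆ Ioc b (b + k) := Finset.filter_subset _ _
  have h1 := sum_log_sqf_le (by omega : 3 ≤ k) T hTJ (by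
    intro y hy p hp hkp hodd
    rw [hT, mem_filter] at hy
    exact hy.2 ⟨p, hp, hkp, hodd⟩)
  have h2 := le_sum_log_sqf hb T hTJ
  have hkR : (100000:ℝ) ≤ k := by exact_mod_cast hkc
  have hlk1 : 1 ≤ Real.log k := by
    rw [Real.le_log_iff_exp_le (by linarith)]
    have := Real.exp_one_lt_d9
    linarith
  have hATR : (A.card : ℝ) + T.card = k := by exact_mod_cast hAT
  have hAlog : (A.card : ℝ) * Real.log k < (1 / 50 : ℝ) * k := by
    rwa [lt_div_iff₀ (by linarith)] at hcon
  have hA1 : (A.card : ℝ) < (1 / 50 : ℝ) * k := by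
    have : (A.card : ℝ) ≤ (A.card : ℝ) * Real.log k := le_mul_of_one_le_right (Nat.cast_nonneg _) hlk1
    linarith
  have hT2 : 2 ≤ T.card := by
    have : (2:ℝ) ≤ T.card := by linarith
    exact_mod_cast this
  have e1 : ((T.card - 2 : ℕ) : ℝ) = T.card - 2 := by rw [Nat.cast_sub hT2]; norm_num
  have e2 : ((k - (T.card - 2) : ℕ) : ℝ) = A.card + 2 := by
    rw [Nat.cast_sub (by omega), e1]; linarith
  rw [e1, e2] at h2
  have l2 := Real.log_two_gt_d9
  have l2' := Real.log_two_lt_d9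
  have l3 : 19 / 12 * Real.log 2 ≤ Real.log 3 := by
    have : Real.log ((2:ℝ) ^ 19) ≤ Real.log ((3:ℝ) ^ 12) := Real.log_le_log (by norm_num) (by norm_num)
    rw [Real.log_pow, Real.log_pow] at this
    push_cast at this
    linarith
  have l32 : Real.log (3 / 2) = Real.log 3 - Real.log 2 := Real.log_div (by norm_num) (by norm_num)
  have l3' : Real.log 3 ≤ 1.2 := by
    have : Real.log ((3:ℝ) ^ 5) ≤ Real.log ((2:ℝ) ^ 8) := Real.log_le_log (by norm_num) (by norm_num)
    rw [Real.log_pow, Real.log_pow] at this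
    push_cast at this
    linarith
  have l32' : Real.log (3 / 2) ≤ 1 / 2 := by
    have := Real.log_le_sub_one_of_pos (show (0:ℝ) < 3 / 2 by norm_num)
    linarith
  have l320 : 0 ≤ Real.log (3 / 2) := Real.log_nonneg (by norm_num)
  have hTR : (T.card : ℝ) = k - A.card := by linarith
  rw [hTR] at h2
  have e3 : (A.card : ℝ) * Real.log (3 / 2) ≤ (1 / 50 * k) * (1 / 2) := by
    apply mul_le_mul hA1.le l32' l320 (by positivity)
  have e4 : ((k:ℝ) - A.card - 2) * Real.log (3 / 2) = k * Real.log (3 / 2) - A.card * Real.log (3 / 2) - 2 * Real.log (3 / 2) := by ring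
  rw [e4] at h2
  have e5 : ((A.card : ℝ) + 2) * Real.log k = A.card * Real.log k + 2 * Real.log k := by ring
  rw [e5] at h2
  have e6 : (k:ℝ) * Real.log (3 / 2) + (19 / 32 * Real.log 2 * k) + 2 / 9 * Real.log 3 * k ≥ 1.059 * k := by
    rw [l32]
    have : (Real.log 3 - Real.log 2) + 19 / 32 * Real.log 2 + 2 / 9 * Real.log 3 ≥ 1.059 := by
      linarith
    nlinarith
  linarith

end Pool.Agent.helper91.D4
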