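import Mathlib
import Pool.Agent.helper91.ES

/-!
# The block `(b, b+k]` has many primes larger than `k/2` to an odd power

and a comparison of the lengths of the two blocks.
-/

open Finset
open scoped Nat

namespace Pool.Agent.helper91.D4

/-- the primes `p > k/2` dividing the block to an odd power -/
def oddPrimes (b k : ℕ) : Finset ℕ :=
  (Nat.primesLE (b + k)).filter (fun p => k < 2 * p ∧ Odd ((blk b k).factorization p))

lemma mem_oddPrimes {b k p : ℕ} (hp : p.Prime) (h1 : k < 2 * p) (h2 : Odd ((blk b k).factorization p)) :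
    p ∈ oddPrimes b k := by
  unfold oddPrimes
  rw [mem_filter, Nat.mem_primesLE]
  refine ⟨⟨?_, hp⟩, h1, h2⟩
  obtain ⟨x, hx, hpx⟩ := exists_dvd_of_dvd_blk hp (dvd_of_odd_factorization h2)
  rw [mem_Ioc] at hx
  exact (Nat.le_of_dvd (by omega) hpx).trans hx.2

/-- regime `b < k` -/
lemma pj_small {b k : ℕ} (hbk : b < k) :
    ∑ p ∈ (Nat.primesLE (b + k)).filter (fun p => (b + k) / 2 < p), Real.log p ≤
      ∑ p ∈ oddPrimes b k, Real.log p := by
  apply Finset.sum_le_sum_of_subset_of_nonneg
  · intro p hp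
    rw [mem_filter, Nat.mem_primesLE] at hp
    obtain ⟨⟨h1, h2⟩, h3⟩ := hp
    refine mem_oddPrimes h2 (by omega) ?_
    have h4 : (blk b k).factorization p = 1 := by
      rw [blk_factorization, Finset.sum_eq_single p]
      · exact factorization_eq_one h2 h2.pos dvd_rfl (by nlinarith [h2.two_le])
      · intro x hx hne
        rw [mem_Ioc] at hx
        apply Nat.factorization_eq_zero_of_not_dvd
        intro hpx
        obtain ⟨c, hc⟩ := hpx
        have hc0 : c ≠ 0 := by rintro rfl; omega
        have hc1 : c ≠ 1 := by rintro rfl; apply hne; rw [hc]; ring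
        have : 2 ≤ c := by omega
        have : p * 2 ≤ p * c := Nat.mul_le_mul_left _ this
        omega
      · intro hn
        exfalso; apply hn
        rw [mem_Ioc]; omega
    rw [h4]; decide
  · intro p _ _; exact Real.log_natCast_nonneg p

/-- regime `b < k^2`, general inequality -/
lemma pj_mid (b k : ℕ) (hX : 16 ≤ b + k) :
    Real.log ((b + k).choose k : ℝ) ≤ 12 * √((b + k : ℕ) : ℝ) + Chebyshev.theta k +
      ∑ p ∈ oddPrimes b k, Real.log p := by
  set X := b + k with hXdef
  set C := X.choose k with hC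
  have hCpos : 0 < C := Nat.choose_pos (by omega)
  have hX0 : (0:ℝ) < (X:ℝ) := by exact_mod_cast (by omega : 0 < X)
  set s := Nat.sqrt X with hs
  have hs4 : 4 ≤ s := by
    rw [hs, Nat.le_sqrt']; omega
  have hlogX : 0 ≤ Real.log (X:ℝ) := Real.log_natCast_nonneg X
  have h1 : Real.log (C : ℝ) = ∑ p ∈ Nat.primesLE X, (C.factorization p : ℝ) * Real.log p := by
    rw [Real.log_nat_eq_sum_factorization]
    refine Finsupp.sum_of_support_subset _ ?_ _ (by simp)
    intro p hp
    rw [Nat.support_factorization, Nat.mem_primeFactors] at hp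
    rw [Nat.mem_primesLE]
    refine ⟨?_, hp.1⟩
    have hd : C ∣ X ! := ⟨k ! * (X - k)!, by rw [hC, ← mul_assoc, Nat.choose_mul_factorial_mul_factorial (by omega)]⟩
    exact (hp.1.dvd_factorial).mp (hp.2.1.trans hd)
  have key : ∀ p ∈ Nat.primesLE X, (C.factorization p : ℝ) * Real.log p ≤
      ((if p ∈ Nat.primesLE s then Real.log X else 0) + (if p ∈ Nat.primesLE k then Real.log p else 0)) +
        (if p ∈ oddPrimes b k then Real.log p else 0) := by
    intro p hp
    have hp' := Nat.prime_of_mem_primesLE hp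
    have hlogp : 0 ≤ Real.log (p:ℝ) := Real.log_natCast_nonneg p
    have hnn1 : (0:ℝ) ≤ (if p ∈ Nat.primesLE s then Real.log X else 0) := by split_ifs <;> linarith
    have hnn2 : (0:ℝ) ≤ (if p ∈ Nat.primesLE k then Real.log (p:ℝ) else 0) := by split_ifs <;> linarith
    have hnn3 : (0:ℝ) ≤ (if p ∈ oddPrimes b k then Real.log (p:ℝ) else 0) := by split_ifs <;> linarith
    by_cases hps : p ≤ s
    · have : p ∈ Nat.primesLE s := Nat.mem_primesLE.mpr ⟨hps, hp'⟩
      rw [if_pos this]
      have h3 : p ^ C.factorization p ≤ X := Nat.pow_factorization_choose_le (by omega)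
      have h4 : (C.factorization p : ℝ) * Real.log p ≤ Real.log X := by
        rw [← Real.log_pow]
        apply Real.log_le_log (by have := hp'.pos; positivity)
        exact_mod_cast h3
      linarith
    · push Not at hps
      have hlt : X < p ^ 2 := by rw [hs, Nat.sqrt_lt'] at hps; exact hps
      have h3 : C.factorization p ≤ 1 := Nat.factorization_choose_le_one hlt
      have h3' : (C.factorization p : ℝ) ≤ 1 := by exact_mod_cast h3
      have h3'' : (C.factorization p : ℝ) * Real.log p ≤ Real.log p := by nlinarith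
      by_cases hpk : p ≤ k
      · rw [if_pos (Nat.mem_primesLE.mpr ⟨hpk, hp'⟩)] at hnn2 ⊢
        linarith
      · push Not at hpk
        by_cases h0 : C.factorization p = 0
        · rw [h0]; simp only [Nat.cast_zero, zero_mul]; linarith
        · have h5 : C.factorization p = 1 := by omega
          have h6 : (blk b k).factorization p = 1 := by
            rw [blk_eq_choose, Nat.factorization_mul (Nat.factorial_ne_zero _) hCpos.ne', Finsupp.add_apply,
              h5, Nat.factorization_eq_zero_of_not_dvd]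
            intro hd
            have := (hp'.dvd_factorial).mp hd
            omega
          have h7 : p ∈ oddPrimes b k := mem_oddPrimes hp' (by omega) (by rw [h6]; decide)
          rw [if_pos h7]
          linarith
  rw [h1]
  refine (Finset.sum_le_sum key).trans ?_
  rw [Finset.sum_add_distrib, Finset.sum_add_distrib]
  have hsub1 : Nat.primesLE s ⊆ Nat.primesLE X := by
    intro p hp
    rw [Nat.mem_primesLE] at hp ⊢
    exact ⟨hp.1.trans (Nat.sqrt_le_self X), hp.2⟩
  have hsub2 : Nat.primesLE k ⊆ Nat.primesLE X := by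
    intro p hp
    rw [Nat.mem_primesLE] at hp ⊢
    exact ⟨by omega, hp.2⟩
  have hsub3 : oddPrimes b k ⊆ Nat.primesLE X := Finset.filter_subset _ _
  rw [Finset.sum_ite_mem, Finset.sum_ite_mem, Finset.sum_ite_mem, Finset.inter_eq_right.mpr hsub1,
    Finset.inter_eq_right.mpr hsub2, Finset.inter_eq_right.mpr hsub3, ← Chebyshev.theta_eq_sum_primesLE_log,
    Finset.sum_const, nsmul_eq_mul]
  have h8 : ((Nat.primesLE s).card : ℝ) * Real.log X ≤ 12 * √(X:ℝ) := by
    have e1 : ((Nat.primesLE s).card : ℝ) = (Nat.primeCounting s : ℝ) := by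
      congr 1
      rw [Nat.primesLE_card_eq_primeCounting]
    rw [e1]
    have hs0 : (0:ℝ) < s := by exact_mod_cast (by omega : 0 < s)
    have e2 : Real.log X ≤ 3 * Real.log s := by
      have : X ≤ s ^ 3 := by
        have h9 : X < (s + 1) ^ 2 := by
          have h := Nat.lt_succ_sqrt' X
          rw [← hs] at h
          exact h
        nlinarith [Nat.mul_le_mul hs4 (le_refl (s ^ 2))]
      calc Real.log X ≤ Real.log ((s:ℝ) ^ 3) := Real.log_le_log hX0 (by exact_mod_cast this)
        _ = 3 * Real.log s := by rw [Real.log_pow]; norm_num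
    have e3 := Cheb.pi_mul_log_le s
    have e4 : (s:ℝ) ≤ √(X:ℝ) := by
      apply Real.le_sqrt_of_sq_le
      exact_mod_cast Nat.sqrt_le' X
    have e5 : (0:ℝ) ≤ (Nat.primeCounting s : ℝ) := Nat.cast_nonneg _
    calc (Nat.primeCounting s : ℝ) * Real.log X ≤ (Nat.primeCounting s : ℝ) * (3 * Real.log s) :=
          mul_le_mul_of_nonneg_left e2 e5
      _ = 3 * ((Nat.primeCounting s : ℝ) * Real.log s) := by ring
      _ ≤ 3 * (4 * s) := by linarith
      _ ≤ 12 * √(X:ℝ) := by linarith
  linarith

lemma log_choose_ge_central {b k : ℕ} (hk : 1 ≤ k) (hbk : k ≤ b) :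
    k * Real.log 4 - Real.log (2 * k) ≤ Real.log ((b + k).choose k : ℝ) := by
  have h1 : Nat.centralBinom k ≤ (b + k).choose k := by
    rw [Nat.centralBinom_eq_two_mul_choose]
    exact Nat.choose_le_choose k (by omega)
  have h2 := Nat.four_pow_le_two_mul_self_mul_centralBinom k (by omega)
  have h3 : (4:ℕ) ^ k ≤ 2 * k * (b + k).choose k := h2.trans (Nat.mul_le_mul_left _ h1)
  have hk0 : (0:ℝ) < k := by exact_mod_cast hk
  have hc : (0:ℝ) < ((b + k).choose k : ℝ) := by exact_mod_cast Nat.choose_pos (by omega)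
  have h4 : Real.log ((4:ℝ) ^ k) ≤ Real.log (2 * k * ((b + k).choose k : ℝ)) :=
    Real.log_le_log (by positivity) (by exact_mod_cast h3)
  rw [Real.log_pow, Real.log_mul (by positivity) hc.ne'] at h4
  linarith

lemma log_choose_ge_pow {b k B : ℕ} (hB : 1 ≤ B) (hbk : B * k ≤ b) :
    k * Real.log B ≤ Real.log ((b + k).choose k : ℝ) := by
  have h1 : B ^ k ≤ (b + k).choose k := by
    have h2 := blk_eq_choose b k
    have h3 : (b + 1) ^ k ≤ blk b k := by
      unfold blk
      have := Finset.pow_card_le_prod (Ioc b (b + k)) (fun x => x) (b + 1) (fun x hx => by rw [mem_Ioc] at hx; omega)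
      simpa using this
    have h4 : k ! ≤ k ^ k := Nat.factorial_le_pow k
    have h5 : (B * k) ^ k ≤ k ^ k * (b + k).choose k := by
      calc (B * k) ^ k ≤ (b + 1) ^ k := Nat.pow_le_pow_left (by omega) k
        _ ≤ blk b k := h3
        _ = k ! * (b + k).choose k := h2
        _ ≤ _ := Nat.mul_le_mul_right _ h4
    rw [mul_pow, mul_comm] at h5
    rcases Nat.eq_zero_or_pos k with rfl | hk
    · simp
    · exact Nat.le_of_mul_le_mul_left h5 (pow_pos hk k)
  have hB0 : (0:ℝ) < B := by exact_mod_cast hB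
  rw [← Real.log_pow]
  exact Real.log_le_log (by positivity) (by exact_mod_cast h1)

/-- regime `b ≥ k^2` -/
lemma pj_large {b k : ℕ} (hk : 2 ≤ k) (A : Finset ℕ) (hA : A ⊆ Ioc b (b + k))
    (hA2 : ∀ y ∈ A, ∃ p, p.Prime ∧ k < p ∧ Odd (y.factorization p)) :
    (A.card : ℝ) * Real.log k ≤ ∑ p ∈ oddPrimes b k, Real.log p := by
  classical
  choose! f hf using hA2
  have hk0 : (0:ℝ) < k := by exact_mod_cast (by omega : 0 < k)
  have hdvd : ∀ y ∈ A, f y ∣ y := fun y hy => dvd_of_odd_factorization (hf y hy).2.2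
  have hinj : Set.InjOn f (A : Set ℕ) := by
    intro y hy y' hy' h
    have h1 := hf y hy
    exact eq_of_dvd_of_dvd h1.2.1.le (hA hy) (hA hy') (hdvd y hy) (h ▸ hdvd y' hy')
  have hsub : A.image f ⊆ oddPrimes b k := by
    intro p hp
    rw [mem_image] at hp
    obtain ⟨y, hy, rfl⟩ := hp
    obtain ⟨h1, h2, h3⟩ := hf y hy
    refine mem_oddPrimes h1 (by omega) ?_
    rw [blk_factorization_of_dvd h2.le (hA hy) (hdvd y hy)]
    exact h3
  calc (A.card : ℝ) * Real.log k = ∑ y ∈ A, Real.log k := by rw [Finset.sum_const, nsmul_eq_mul]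
    _ ≤ ∑ y ∈ A, Real.log (f y : ℝ) := by
        refine Finset.sum_le_sum (fun y hy => ?_)
        exact Real.log_le_log hk0 (by exact_mod_cast (hf y hy).2.1.le)
    _ = ∑ p ∈ A.image f, Real.log (p:ℝ) := by rw [Finset.sum_image hinj]
    _ ≤ _ := Finset.sum_le_sum_of_subset_of_nonneg hsub (fun p _ _ => Real.log_natCast_nonneg p)

/-- **Lemma PJ** -/
theorem pj : ∃ k₀ : ℕ, 2 ≤ k₀ ∧ ∀ k, k₀ ≤ k → ∀ b, (1 / 50 : ℝ) * k ≤ ∑ p ∈ oddPrimes b k, Real.log p := by
  obtain ⟨k₁, hk₁⟩ := Cheb.theta_half
  obtain ⟨k₂, hk₂2, hk₂⟩ := es_count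
  obtain ⟨k₃, hk₃⟩ := Cheb.theta_bounds (show (0:ℝ) < 1 / 100 by norm_num)
  obtain ⟨B, hB⟩ := exists_nat_ge (Real.exp 27)
  have hB1 : (1:ℝ) ≤ B := by
    have := Real.one_le_exp (show (0:ℝ) ≤ 27 by norm_num)
    linarith
  have hB1' : 1 ≤ B := by exact_mod_cast hB1
  obtain ⟨M0, hM0⟩ : ∃ M0 : ℕ, M0 = 1000000 * (B + 1) := ⟨_, rfl⟩
  refine ⟨k₁ + k₂ + k₃ + M0, by omega, fun k hk b => ?_⟩
  have hk1000 : 1000000 * (B + 1) ≤ k := by rw [← hM0]; omega
  have hkR : (1000000:ℝ) * (B + 1) ≤ k := by exact_mod_cast hk1000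
  have hk0 : (0:ℝ) < k := by nlinarith
  rcases Nat.lt_or_ge b k with hbk | hbk
  · have h1 := hk₁ (b + k) (by omega)
    have h2 := pj_small hbk
    push_cast at h1
    have : (0:ℝ) ≤ b := Nat.cast_nonneg b
    linarith
  · rcases Nat.lt_or_ge b (k ^ 2) with hb2 | hb2
    · have h1 := pj_mid b k (by omega)
      have h2 := (hk₃ k (by omega)).2
      rcases Nat.le_total b (B * k) with h3 | h3
      · have h4 := log_choose_ge_central (by omega : 1 ≤ k) hbk
        have h5 : √((b + k : ℕ) : ℝ) ≤ 1 / 1000 * k := by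
          apply Real.sqrt_le_iff.mpr
          refine ⟨by positivity, ?_⟩
          have : ((b + k : ℕ) : ℝ) ≤ (B + 1) * k := by
            have : b + k ≤ (B + 1) * k := by linarith
            exact_mod_cast this
          nlinarith
        have h6 : Real.log (2 * k) ≤ 1 / 1000 * k := by
          refine (Cheb.log_le_sqrt (by positivity)).trans ?_
          apply Real.sqrt_le_iff.mpr
          refine ⟨by positivity, ?_⟩
          nlinarith
        have h7 : (1.38:ℝ) ≤ Real.log 4 := by
          have : Real.log 4 = 2 * Real.log 2 := by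
            rw [show (4:ℝ) = 2 ^ 2 by norm_num, Real.log_pow]; norm_num
          rw [this]
          have := Real.log_two_gt_d9
          linarith
        nlinarith
      · have h4 := log_choose_ge_pow hB1' h3
        have h5 : √((b + k : ℕ) : ℝ) ≤ 2 * k := by
          apply Real.sqrt_le_iff.mpr
          refine ⟨by positivity, ?_⟩
          have : ((b + k : ℕ) : ℝ) ≤ k ^ 2 + k := by
            have : b + k ≤ k ^ 2 + k := by omega
            exact_mod_cast this
          nlinarith
        have h6 : (27:ℝ) ≤ Real.log B := by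
          rw [Real.le_log_iff_exp_le (by linarith)]; exact hB
        nlinarith
    · obtain ⟨A, hA1, hA2, hA3⟩ := hk₂ k (by omega) b hb2
      have h1 := pj_large (by omega) A hA1 hA2
      have hlog : 0 < Real.log k := Real.log_pos (by linarith)
      rw [div_le_iff₀ hlog] at hA3
      linarith

/-- **Comparison of the block lengths.** -/
theorem cmp : ∃ C : ℝ, 1 ≤ C ∧ ∀ a h b k : ℕ, Sol a h b k → (k:ℝ) ≤ C * h * (1 + Real.log ((a + h : ℕ) / h)) := by
  obtain ⟨k₀, hk₀, hpj⟩ := pj
  refine ⟨k₀ + 50, by have : (0:ℝ) ≤ k₀ := Nat.cast_nonneg _; linarith, fun a h b k hs => ?_⟩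
  have hh : 1 ≤ h := hs.1
  have hh0 : (1:ℝ) ≤ h := by exact_mod_cast hh
  have hah : (h:ℝ) ≤ ((a + h : ℕ) : ℝ) := by exact_mod_cast Nat.le_add_left h a
  have hlog : 0 ≤ Real.log ((a + h : ℕ) / h) := Real.log_nonneg (by rw [le_div_iff₀ (by linarith)]; linarith)
  have hk00 : (0:ℝ) ≤ k₀ := Nat.cast_nonneg _
  rcases Nat.lt_or_ge k k₀ with hk | hk
  · have : (k:ℝ) ≤ k₀ := by exact_mod_cast hk.le
    nlinarith [mul_nonneg (mul_nonneg (by linarith : (0:ℝ) ≤ k₀ + 50) (by linarith : (0:ℝ) ≤ h)) hlog]
  · rcases Nat.lt_or_ge k (2 * h) with hkh | hkh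
    · have : (k:ℝ) ≤ 2 * h := by exact_mod_cast hkh.le
      nlinarith [mul_nonneg (mul_nonneg (by linarith : (0:ℝ) ≤ k₀ + 50) (by linarith : (0:ℝ) ≤ h)) hlog]
    · have h1 := hpj k hk b
      set C := (a + h).choose h with hC
      have hCpos : 0 < C := Nat.choose_pos (by omega)
      have h2 : ∏ p ∈ oddPrimes b k, p ∣ C := by
        apply Finset.prod_primes_dvd
        · intro p hp
          unfold oddPrimes at hp
          rw [mem_filter, Nat.mem_primesLE] at hp
          exact hp.1.2.prime
        · intro p hp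
          unfold oddPrimes at hp
          rw [mem_filter, Nat.mem_primesLE] at hp
          obtain ⟨⟨h3, h4⟩, h5, h6⟩ := hp
          have h7 := (hs.odd_iff p).mpr h6
          have h8 : p ∣ blk a h := dvd_of_odd_factorization h7
          rw [blk_eq_choose] at h8
          rcases (h4.dvd_mul).mp h8 with h9 | h9
          · have := (h4.dvd_factorial).mp h9
            omega
          · exact h9
      have h3 : ∑ p ∈ oddPrimes b k, Real.log (p:ℝ) ≤ Real.log C := by
        rw [← Real.log_prod]
        · apply Real.log_le_log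
          · apply Finset.prod_pos
            intro p hp
            unfold oddPrimes at hp
            rw [mem_filter, Nat.mem_primesLE] at hp
            exact_mod_cast hp.1.2.pos
          · rw [← Nat.cast_prod]
            exact_mod_cast Nat.le_of_dvd hCpos h2
        · intro p hp
          unfold oddPrimes at hp
          rw [mem_filter, Nat.mem_primesLE] at hp
          have := hp.1.2.pos
          positivity
      have h4 : Real.log C ≤ h * (1 + Real.log ((a + h : ℕ) / h)) := by
        have h5 : (C:ℝ) ≤ ((a + h : ℕ) : ℝ) ^ h / (h ! : ℝ) := by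
          have := Nat.choose_le_pow_div h (a + h) (α := ℝ)
          simpa [hC] using this
        have h6 : Real.log (C:ℝ) ≤ Real.log (((a + h : ℕ) : ℝ) ^ h / (h ! : ℝ)) :=
          Real.log_le_log (by exact_mod_cast hCpos) h5
        have hm0 : (0:ℝ) < ((a + h : ℕ) : ℝ) := by linarith
        rw [Real.log_div (by positivity) (by positivity), Real.log_pow] at h6
        have h7 : h * Real.log h - h ≤ Real.log (h ! : ℝ) := by
          have h8 : ((h:ℝ) / Real.exp 1) ^ h ≤ (h ! : ℝ) := by
            have h9 : (h:ℝ) ^ h / (h ! : ℝ) ≤ Real.exp h := Real.pow_div_factorial_le_exp h (by linarith) h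
            rw [div_pow, div_le_iff₀ (by positivity), ← Real.exp_nat_mul, mul_one]
            rw [div_le_iff₀ (by positivity)] at h9
            linarith
          have h10 : Real.log (((h:ℝ) / Real.exp 1) ^ h) ≤ Real.log (h ! : ℝ) := Real.log_le_log (by positivity) h8
          rw [Real.log_pow, Real.log_div (by positivity) (by positivity), Real.log_exp] at h10
          linarith
        rw [Real.log_div hm0.ne' (by positivity)]
        linarith
      have h5 : (k:ℝ) ≤ 50 * (h * (1 + Real.log ((a + h : ℕ) / h))) := by linarith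
      nlinarith [mul_nonneg (mul_nonneg hk00 (by linarith : (0:ℝ) ≤ h)) (by linarith : (0:ℝ) ≤ 1 + Real.log ((a + h : ℕ) / h))]

end Pool.Agent.helper91.D4
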