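import Mathlib
import Pool.Agent.helper91.Align
import Pool.Agent.helper91.PJ

/-!
# Long blocks: no solutions
-/

open Finset
open scoped Nat

namespace Pool.Agent.helper91.D4

/-- from a quadratic counting bound to a bound for the sum of reciprocals -/
lemma sum_inv_of_card {P : ℕ → Prop} [DecidablePred P] {A : ℝ} (hA : 0 ≤ A)
    (h : ∀ v : ℕ, (((Icc 1 v).filter P).card : ℝ) ≤ A * v ^ 2) (U : ℕ) :
    ∑ u ∈ (Icc 1 U).filter P, (1:ℝ) / u ≤ 2 * A * U := by
  have key : ∀ U : ℕ, ∑ u ∈ (Icc 1 U).filter P, (1:ℝ) / u ≤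
      (((Icc 1 U).filter P).card : ℝ) / U + A * U := by
    intro U
    induction U with
    | zero => simp
    | succ U ih =>
      have hins : Icc 1 (U + 1) = insert (U + 1) (Icc 1 U) := by
        ext x; simp only [mem_Icc, mem_insert]; omega
      have hnot : (U + 1) ∉ (Icc 1 U).filter P := by
        simp only [mem_filter, mem_Icc]; omega
      have hstep : (((Icc 1 U).filter P).card : ℝ) / U ≤ (((Icc 1 U).filter P).card : ℝ) / (U + 1 : ℕ) + A := by
        rcases Nat.eq_zero_or_pos U with rfl | hU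
        · simp; exact hA
        · have hU0 : (0:ℝ) < U := by exact_mod_cast hU
          have h1 := h U
          push_cast
          rw [div_add' _ _ _ (by positivity), div_le_div_iff₀ hU0 (by positivity)]
          nlinarith
      have hc : A * ((U + 1 : ℕ) : ℝ) = A * U + A := by push_cast; ring
      rw [hins, Finset.filter_insert]
      split_ifs with hP
      · rw [Finset.sum_insert hnot, Finset.card_insert_of_notMem hnot, hc]
        have e : ((((Icc 1 U).filter P).card + 1 : ℕ) : ℝ) / ((U + 1 : ℕ) : ℝ) =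
          (((Icc 1 U).filter P).card : ℝ) / (U + 1 : ℕ) + 1 / (U + 1 : ℕ) := by
          push_cast; ring
        rw [e]
        linarith
      · rw [hc]; linarith
  refine (key U).trans ?_
  have h2 : (((Icc 1 U).filter P).card : ℝ) / U ≤ A * U := by
    rcases Nat.eq_zero_or_pos U with rfl | hU
    · simp
    · have hU0 : (0:ℝ) < U := by exact_mod_cast hU
      rw [div_le_iff₀ hU0]
      have := h U
      nlinarith
  linarith

lemma harmonic_le {s t : ℕ} (hs : 1 ≤ s) (hst : s ≤ t) :
    ∑ u ∈ Icc s t, (1:ℝ) / u ≤ 1 + Real.log (t / s) := by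
  have hs0 : (0:ℝ) < s := by exact_mod_cast hs
  induction t, hst using Nat.le_induction with
  | base =>
    rw [Finset.Icc_self, Finset.sum_singleton, div_self hs0.ne', Real.log_one, add_zero]
    rw [div_le_one hs0]; exact_mod_cast hs
  | succ t hst ih =>
    have hins : Icc s (t + 1) = insert (t + 1) (Icc s t) := by
      ext x; simp only [mem_Icc, mem_insert]; omega
    rw [hins, Finset.sum_insert (by simp)]
    have ht0 : (0:ℝ) < t := by exact_mod_cast (by omega : 0 < t)
    have h1 : Real.log (((t + 1 : ℕ) : ℝ) / s) = Real.log (t / s) + Real.log ((t + 1) / t) := by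
      rw [← Real.log_mul (by positivity) (by positivity)]
      congr 1; push_cast; field_simp
    have h2 : (1:ℝ) / ((t + 1 : ℕ) : ℝ) ≤ Real.log ((t + 1) / t) := by
      have := Real.one_sub_inv_le_log_of_pos (show (0:ℝ) < (t + 1) / t by positivity)
      have e : 1 - ((t + 1) / (t:ℝ))⁻¹ = 1 / ((t + 1 : ℕ) : ℝ) := by
        push_cast; field_simp; ring
      linarith
    linarith

/-- a prime in the upper block which is larger than `m/2` is impossible -/
lemma Sol.no_prime {a h b k : ℕ} (hs : Sol a h b k) {p : ℕ} (hp : p.Prime) (h1 : a < p) (h2 : p ≤ a + h)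
    (h3 : a + h < 2 * p) : False := by
  have h4 : (blk a h).factorization p = 1 := by
    rw [blk_factorization, Finset.sum_eq_single p]
    · exact factorization_eq_one hp hp.pos dvd_rfl (by nlinarith [hp.two_le])
    · intro x hx hne
      rw [mem_Ioc] at hx
      apply Nat.factorization_eq_zero_of_not_dvd
      intro hpx
      obtain ⟨c, hc⟩ := hpx
      have hc0 : c ≠ 0 := by rintro rfl; omega
      have hc1 : c ≠ 1 := by rintro rfl; apply hne; rw [hc]; ring
      have : 2 ≤ c := by omega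
      have : p * 2 ≤ p * c := Nat.mul_le_mul_left _ this
      omega
    · intro hn
      exfalso; apply hn
      rw [mem_Ioc]; omega
  have h5 : Odd ((blk b k).factorization p) := (hs.odd_iff p).mp (by rw [h4]; decide)
  obtain ⟨y, hy, hpy⟩ := exists_dvd_of_dvd_blk hp (dvd_of_odd_factorization h5)
  rw [mem_Ioc] at hy
  have := Nat.le_of_dvd (by omega) hpy
  have := hs.2.1
  omega

/-- the upper block is at most half -/
lemma Sol.two_mul_le {a h b k : ℕ} (hs : Sol a h b k) (hm : 2 ≤ a + h) : h ≤ a := by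
  by_contra hlt
  push Not at hlt
  obtain ⟨p, hp, h1, h2⟩ := Nat.exists_prime_lt_and_le_two_mul ((a + h) / 2) (by omega)
  exact hs.no_prime hp (by omega) (by omega) (by omega)

/-- contribution of the primes up to `h` to the members of the block not divisible by `us` -/
lemma small_primes_mass {a h us : ℕ} (hus : 1 ≤ us) (hh : 2 ≤ h) (hm : a + h ≤ h ^ 2) :
    ∑ p ∈ Nat.primesLE h, Real.log p * ∑ x ∈ (Ioc a (a + h)).filter (fun x => ¬ us ∣ x), (x.factorization p : ℝ) ≤
      (1 - 1 / us) * h * Real.log h + (12 + 2 * Mertens.Cpp) * h := by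
  have hus0 : (0:ℝ) < us := by exact_mod_cast hus
  have hh0 : (0:ℝ) < h := by exact_mod_cast (by omega : 0 < h)
  have hlogm : Real.log ((a + h : ℕ) : ℝ) ≤ 2 * Real.log h := by
    have : Real.log ((a + h : ℕ) : ℝ) ≤ Real.log ((h:ℝ) ^ 2) :=
      Real.log_le_log (by exact_mod_cast (by omega : 0 < a + h)) (by exact_mod_cast hm)
    rwa [Real.log_pow] at this
  have key : ∀ p ∈ Nat.primesLE h, Real.log p * ∑ x ∈ (Ioc a (a + h)).filter (fun x => ¬ us ∣ x), (x.factorization p : ℝ) ≤
      h * (Real.log p / (p - 1)) + 2 * Real.log h - (h / us) * (Real.log p / p) + Real.log p := by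
    intro p hp
    have hp' := Nat.prime_of_mem_primesLE hp
    have hp0 : (0:ℝ) < p := by exact_mod_cast hp'.pos
    have hp1 : (1:ℝ) < p := by exact_mod_cast hp'.one_lt
    have hlogp : 0 ≤ Real.log (p:ℝ) := Real.log_natCast_nonneg p
    have h1 : ∑ x ∈ (Ioc a (a + h)).filter (fun x => ¬ us ∣ x), (x.factorization p : ℝ) =
        ((blk a h).factorization p : ℝ) - ∑ x ∈ (Ioc a (a + h)).filter (fun x => us ∣ x), (x.factorization p : ℝ) := by
      rw [blk_factorization]
      push_cast
      rw [← Finset.sum_filter_add_sum_filter_not (Ioc a (a + h)) (fun x => us ∣ x)]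
      ring
    have h2 : ((blk a h).factorization p : ℝ) * Real.log p ≤ h * (Real.log p / (p - 1)) + 2 * Real.log h := by
      rw [blk_eq_choose, Nat.factorization_mul (Nat.factorial_ne_zero _) (Nat.choose_pos (by omega)).ne',
        Finsupp.add_apply]
      push_cast
      have e1 := Mertens.factorization_le hp' h
      have e2 : p ^ ((a + h).choose h).factorization p ≤ a + h := Nat.pow_factorization_choose_le (by omega)
      have e3 : (((a + h).choose h).factorization p : ℝ) * Real.log p ≤ Real.log ((a + h : ℕ) : ℝ) := by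
        rw [← Real.log_pow]
        apply Real.log_le_log (by positivity)
        exact_mod_cast e2
      have e4 := mul_le_mul_of_nonneg_right e1 hlogp
      have e5 : (h:ℝ) / (p - 1) * Real.log p = h * (Real.log p / (p - 1)) := by ring
      rw [e5] at e4
      linarith
    have h3 : (h:ℝ) / (us * p) - 1 ≤ ∑ x ∈ (Ioc a (a + h)).filter (fun x => us ∣ x), (x.factorization p : ℝ) := by
      have e1 := BT.count_dvd a h (us * p) (by have := hp'.pos; positivity)
      rw [abs_le] at e1
      push_cast at e1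
      refine le_trans (by linarith [e1.1] : (h:ℝ) / (us * p) - 1 ≤ (((Ioc a (a + h)).filter (fun n => us * p ∣ n)).card : ℝ)) ?_
      rw [Finset.card_eq_sum_ones]
      push_cast
      calc ∑ x ∈ (Ioc a (a + h)).filter (fun n => us * p ∣ n), (1:ℝ) ≤
          ∑ x ∈ (Ioc a (a + h)).filter (fun n => us * p ∣ n), (x.factorization p : ℝ) := by
            refine Finset.sum_le_sum (fun x hx => ?_)
            rw [mem_filter, mem_Ioc] at hx
            have : 1 ≤ x.factorization p :=
              (hp'.dvd_iff_one_le_factorization (by omega)).mp ((dvd_mul_left p us).trans hx.2)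
            exact_mod_cast this
        _ ≤ _ := by
            apply Finset.sum_le_sum_of_subset_of_nonneg
            · intro x hx
              rw [mem_filter] at hx ⊢
              exact ⟨hx.1, (dvd_mul_right us p).trans hx.2⟩
            · intro _ _ _; positivity
    rw [h1]
    have h4 := mul_le_mul_of_nonneg_left h3 hlogp
    have h5 : Real.log p * ((h:ℝ) / (us * p) - 1) = (h / us) * (Real.log p / p) - Real.log p := by
      field_simp
    rw [h5] at h4
    linarith
  refine (Finset.sum_le_sum key).trans ?_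
  have hsplit : ∑ p ∈ Nat.primesLE h, (h * (Real.log p / (p - 1)) + 2 * Real.log h - (h / us) * (Real.log p / p) + Real.log p) =
      h * ∑ p ∈ Nat.primesLE h, Real.log p / ((p:ℝ) - 1) + ((Nat.primesLE h).card : ℝ) * (2 * Real.log h)
        - (h / us) * Mertens.M h + Chebyshev.theta h := by
    rw [Finset.sum_add_distrib, Finset.sum_sub_distrib, Finset.sum_add_distrib,
      Finset.sum_const, nsmul_eq_mul, ← Chebyshev.theta_eq_sum_primesLE_log, Mertens.M,
      ← Finset.mul_sum, ← Finset.mul_sum]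
  rw [hsplit]
  have e1 := Mertens.sum_pred_le (by omega : 1 ≤ h)
  have e2 := Mertens.lower (by omega : 1 ≤ h)
  have e3 : Chebyshev.theta h ≤ Real.log 4 * h := Chebyshev.theta_le_log4_mul_x hh0.le
  have e4 : ((Nat.primesLE h).card : ℝ) * (2 * Real.log h) ≤ 8 * h := by
    rw [Nat.primesLE_card_eq_primeCounting]
    have := Cheb.pi_mul_log_le h
    linarith
  have e5 := Cheb.log_four_le
  have hC := Mertens.Cpp_nonneg
  have hinv : (0:ℝ) < 1 / us := by positivity
  have hinv1 : (1:ℝ) / us ≤ 1 := by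
    rw [div_le_one hus0]; exact_mod_cast hus
  have f1 := mul_le_mul_of_nonneg_left e1 hh0.le
  have f2 := mul_le_mul_of_nonneg_left e2 (by positivity : (0:ℝ) ≤ h / us)
  have f3 : (h:ℝ) / us * (Real.log h - (1 + Mertens.Cpp)) = (1 / us) * h * Real.log h - (1 / us) * h * (1 + Mertens.Cpp) := by
    field_simp
  rw [f3] at f2
  have f4 : (1:ℝ) / us * h * (1 + Mertens.Cpp) ≤ 1 * h * (1 + Mertens.Cpp) := by
    apply mul_le_mul_of_nonneg_right _ (by linarith)
    exact mul_le_mul_of_nonneg_right hinv1 hh0.le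
  have f5 : Real.log 4 * h ≤ 1.4 * h := mul_le_mul_of_nonneg_right e5 hh0.le
  nlinarith

/-- contribution of the primes larger than `h` to the members of the block not divisible by `us` -/
lemma large_primes_mass {a h us : ℕ} {δ : ℝ} (hδ : 0 < δ) (hh : 2 ≤ h)
    (hm : (1 + δ) * Real.log ((a + h : ℕ) : ℝ) ≤ 2 * Real.log h) (U : Finset ℕ)
    (hU : ∀ p x, p.Prime → h < p → x ∈ Ioc a (a + h) → ¬ us ∣ x → p ∣ x → x / p ∈ U)
    (hU' : ∀ u ∈ U, 1 ≤ u ∧ u * h ≤ a + h) :
    ∑ p ∈ (Nat.primesLE (a + h)).filter (fun p => h < p),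
      Real.log p * ∑ x ∈ (Ioc a (a + h)).filter (fun x => ¬ us ∣ x), (x.factorization p : ℝ) ≤
      40 / δ * h * ∑ u ∈ U, (1:ℝ) / u := by
  set m := a + h with hmdef
  have hh0 : (0:ℝ) < h := by exact_mod_cast (by omega : 0 < h)
  have hm1 : (1:ℝ) < (m:ℝ) := by exact_mod_cast (by omega : 1 < m)
  have hm0 : (0:ℝ) < (m:ℝ) := by linarith
  have hlm : 0 < Real.log (m:ℝ) := Real.log_pos hm1
  have hmh : (m:ℝ) < (h:ℝ) ^ 2 := by
    have : Real.log (m:ℝ) < Real.log ((h:ℝ) ^ 2) := by
      rw [Real.log_pow]; push_cast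
      have : (1 + δ) * Real.log (m:ℝ) = Real.log (m:ℝ) + δ * Real.log (m:ℝ) := by ring
      have := mul_pos hδ hlm
      linarith
    exact (Real.log_lt_log_iff hm0 (by positivity)).mp this
  have hmh' : m < h ^ 2 := by exact_mod_cast hmh
  set Is := (Ioc a m).filter (fun x => ¬ us ∣ x) with hIs
  set P := (Nat.primesLE m).filter (fun p => h < p) with hP
  set Pairs := (P ×ˢ Is).filter (fun q => q.1 ∣ q.2) with hPairs
  have h1 : ∑ p ∈ P, Real.log p * ∑ x ∈ Is, (x.factorization p : ℝ) ≤ Real.log m * (Pairs.card : ℝ) := by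
    have e1 : (Pairs.card : ℝ) = ∑ p ∈ P, ∑ x ∈ Is, (if p ∣ x then (1:ℝ) else 0) := by
      rw [hPairs, Finset.card_filter, Finset.sum_product]
      push_cast
      rfl
    rw [e1, Finset.mul_sum]
    refine Finset.sum_le_sum (fun p hp => ?_)
    rw [hP, mem_filter, Nat.mem_primesLE] at hp
    obtain ⟨⟨hpm, hp'⟩, hhp⟩ := hp
    have hpp : (0:ℝ) < p := by exact_mod_cast hp'.pos
    have hlp : Real.log p ≤ Real.log m := Real.log_le_log hpp (by exact_mod_cast hpm)
    have hlp0 : 0 ≤ Real.log (p:ℝ) := Real.log_natCast_nonneg p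
    have e2 : ∀ x ∈ Is, (x.factorization p : ℝ) ≤ (if p ∣ x then (1:ℝ) else 0) := by
      intro x hx
      rw [hIs, mem_filter, mem_Ioc] at hx
      split_ifs with hpx
      · have : x.factorization p = 1 := by
          apply factorization_eq_one hp' (by omega) hpx
          have : h ^ 2 ≤ p ^ 2 := Nat.pow_le_pow_left hhp.le 2
          omega
        rw [this]; simp
      · rw [Nat.factorization_eq_zero_of_not_dvd hpx]; simp
    have e3 := Finset.sum_le_sum e2
    have e4 : (0:ℝ) ≤ ∑ x ∈ Is, (x.factorization p : ℝ) := Finset.sum_nonneg (fun _ _ => Nat.cast_nonneg _)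
    exact mul_le_mul hlp e3 e4 hlm.le
  have h2 : Pairs.card ≤ ∑ u ∈ U, BT.primesIn (a / u) (h / u + 1) := by
    unfold BT.primesIn
    rw [← Finset.card_sigma]
    apply Finset.card_le_card_of_injOn (fun q => ⟨q.2 / q.1, q.1⟩)
    · intro q hq
      have hq' : q ∈ Pairs := hq
      rw [hPairs, mem_filter, mem_product, hP, hIs, mem_filter, mem_filter, Nat.mem_primesLE] at hq'
      obtain ⟨⟨⟨⟨q1, q2⟩, q3⟩, q4, q5⟩, q6⟩ := hq'
      have hu := hU q.1 q.2 q2 q3 q4 q5 q6
      have hu' := hU' _ hu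
      rw [mem_Ioc] at q4
      obtain ⟨c, hc⟩ := q6
      have hc' : q.2 / q.1 = c := by rw [hc]; exact Nat.mul_div_cancel_left c q2.pos
      simp only [Finset.coe_sigma, Set.mem_sigma_iff, Finset.mem_coe, mem_filter, mem_Ioc]
      rw [hc'] at hu hu' ⊢
      refine ⟨hu, ⟨?_, ?_⟩, q2⟩
      · rw [Nat.div_lt_iff_lt_mul (by omega)]
        rw [hc] at q4; exact q4.1
      · by_contra hlt
        push Not at hlt
        have e1 : a < (a / c + 1) * c := by
          exact Nat.lt_mul_of_div_lt (Nat.lt_succ_self _) (by omega)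
        have e2 : h < (h / c + 1) * c := Nat.lt_mul_of_div_lt (Nat.lt_succ_self _) (by omega)
        have e3 : (a / c + 1 + (h / c + 1)) * c ≤ q.1 * c := Nat.mul_le_mul_right _ (by omega)
        have e4 : q.1 * c ≤ m := by rw [← hc]; exact q4.2
        have e5 : (a / c + 1 + (h / c + 1)) * c = (a / c + 1) * c + (h / c + 1) * c := by ring
        omega
    · intro q hq q' hq' heq
      have hq1 : q ∈ Pairs := hq
      have hq1' : q' ∈ Pairs := hq'
      rw [hPairs, mem_filter] at hq1 hq1'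
      simp only [Sigma.mk.injEq, heq_eq_eq] at heq
      have e1 := Nat.div_mul_cancel hq1.2
      have e2 := Nat.div_mul_cancel hq1'.2
      ext
      · exact heq.2
      · rw [← e1, ← e2, heq.1, heq.2]
  have h3 : ∀ u ∈ U, (BT.primesIn (a / u) (h / u + 1) : ℝ) ≤ 40 * h / (δ * Real.log m) * (1 / u) := by
    intro u hu
    obtain ⟨hu1, hu2⟩ := hU' u hu
    have hu0 : (0:ℝ) < u := by exact_mod_cast hu1
    have huh : u ≤ h := by
      by_contra hlt
      push Not at hlt
      have : h * h ≤ u * h := Nat.mul_le_mul_right _ hlt.le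
      nlinarith
    have hq : 1 ≤ h / u := by rw [Nat.le_div_iff_mul_le (by omega)]; omega
    have h4 := BT.brun_titchmarsh (a / u) (h / u + 1) (by omega)
    have h5 : (((h / u + 1 : ℕ)) : ℝ) ≤ 2 * (h / u) := by
      have : ((h / u : ℕ) : ℝ) ≤ h / u := Nat.cast_div_le
      have h6 : (1:ℝ) ≤ h / u := by rw [le_div_iff₀ hu0]; simpa using (by exact_mod_cast huh : (u:ℝ) ≤ h)
      push_cast; linarith
    have h7 : (h:ℝ) / u ≤ ((h / u + 1 : ℕ) : ℝ) := by
      have := Nat.lt_floor_add_one ((h:ℝ) / u)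
      rw [Nat.floor_div_eq_div] at this
      push_cast; exact this.le
    have h8 : δ * Real.log m ≤ Real.log ((h / u + 1 : ℕ) : ℝ) := by
      have e1 : Real.log ((h:ℝ) / u) ≤ Real.log ((h / u + 1 : ℕ) : ℝ) := Real.log_le_log (by positivity) h7
      have e2 : Real.log ((h:ℝ) / u) = Real.log h - Real.log u := Real.log_div hh0.ne' hu0.ne'
      have e3 : Real.log u ≤ Real.log m - Real.log h := by
        rw [← Real.log_div hm0.ne' hh0.ne']
        apply Real.log_le_log hu0
        rw [le_div_iff₀ hh0]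
        exact_mod_cast hu2
      linarith
    have h9 : 0 < δ * Real.log m := by positivity
    calc (BT.primesIn (a / u) (h / u + 1) : ℝ) ≤ 20 * ((h / u + 1 : ℕ) : ℝ) / Real.log ((h / u + 1 : ℕ) : ℝ) := h4
      _ ≤ 20 * (2 * (h / u)) / (δ * Real.log m) := by
          apply div_le_div₀ (by positivity) _ h9 h8
          linarith
      _ = _ := by field_simp; ring
  have h4 : (Pairs.card : ℝ) ≤ ∑ u ∈ U, 40 * h / (δ * Real.log m) * ((1:ℝ) / u) := by
    calc (Pairs.card : ℝ) ≤ ((∑ u ∈ U, BT.primesIn (a / u) (h / u + 1) : ℕ) : ℝ) := by exact_mod_cast h2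
      _ = ∑ u ∈ U, (BT.primesIn (a / u) (h / u + 1) : ℝ) := by push_cast; rfl
      _ ≤ _ := Finset.sum_le_sum h3
  rw [← Finset.mul_sum] at h4
  refine h1.trans ?_
  calc Real.log m * (Pairs.card : ℝ) ≤ Real.log m * (40 * h / (δ * Real.log m) * ∑ u ∈ U, (1:ℝ) / u) :=
        mul_le_mul_of_nonneg_left h4 hlm.le
    _ = _ := by field_simp

lemma exists_prime_of_long (T : ℝ) (hT : 1 ≤ T) : ∃ m₀ : ℕ, ∀ a h : ℕ, m₀ ≤ a + h → h ≤ a → 0 < h →
    ((a + h : ℕ) : ℝ) ≤ T * h → ∃ p, p.Prime ∧ a < p ∧ p ≤ a + h := by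
  obtain ⟨n₀, hn₀⟩ := Cheb.theta_bounds (show (0:ℝ) < 1 / (4 * T) by positivity)
  refine ⟨2 * n₀, fun a h hm hha hh0 hTh => ?_⟩
  by_contra hcon
  push Not at hcon
  have h1 := (hn₀ (a + h) (by omega)).1
  have h2 := (hn₀ a (by omega)).2
  have h3 := Cheb.theta_sub_eq a (a + h) (by omega)
  have h4 : (Nat.primesLE (a + h)).filter (fun p => a < p) = ∅ := by
    rw [Finset.filter_eq_empty_iff]
    intro p hp hap
    rw [Nat.mem_primesLE] at hp
    have := hcon p hp.2 hap
    omega
  rw [h4, Finset.sum_empty] at h3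
  push_cast at h1 hTh h3
  have hhR : (0:ℝ) < h := by exact_mod_cast hh0
  have hη : (1:ℝ) / (4 * T) * (a + h) ≤ h / 4 := by
    rw [div_mul_eq_mul_div, div_le_iff₀ (by positivity)]
    linarith
  have hη0 : (0:ℝ) < 1 / (4 * T) := by positivity
  have ha0 : (0:ℝ) ≤ a := Nat.cast_nonneg a
  nlinarith [mul_pos hη0 hhR]

lemma log_one_add_le {c x : ℝ} (hc : 0 < c) (hx : 0 ≤ x) : Real.log (1 + x) ≤ (1 + x) / c + Real.log c := by
  have h1 := Real.log_le_sub_one_of_pos (show (0:ℝ) < (1 + x) / c by positivity)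
  rw [Real.log_div (by positivity) hc.ne'] at h1
  linarith

lemma bound_of_log_ineq (K₁ K₂ : ℝ) (hK₂ : 0 < K₂) : ∃ T : ℝ, 0 ≤ T ∧ ∀ t : ℝ, 0 ≤ t →
    t ≤ K₁ + K₂ * Real.log (1 + t) → t ≤ T := by
  refine ⟨max 0 (2 * K₁ + 1 + 2 * K₂ * Real.log (2 * K₂)), le_max_left _ _, fun t ht h => ?_⟩
  refine le_trans ?_ (le_max_right _ _)
  have h1 := log_one_add_le (show (0:ℝ) < 2 * K₂ by positivity) ht
  have h2 := mul_le_mul_of_nonneg_left h1 hK₂.le
  have h3 : K₂ * ((1 + t) / (2 * K₂) + Real.log (2 * K₂)) = (1 + t) / 2 + K₂ * Real.log (2 * K₂) := by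
    field_simp
  linarith

/-- **Case III**: no solutions with a long block. -/
theorem caseIII {δ : ℝ} (hδ : 0 < δ) : ∃ m₀ : ℕ, ∀ a h b k : ℕ, Sol a h b k → m₀ ≤ a + h →
    ((a + h : ℕ) : ℝ) ^ (1 / 2 + δ) ≤ ((max h k : ℕ) : ℝ) → False := by
  classical
  obtain ⟨C, hC1, hcmp⟩ := cmp
  have hC0 : (0:ℝ) < C := by linarith
  -- constants
  have hCpp := Mertens.Cpp_nonneg
  set K₂ : ℝ := 2 * (40 / δ) with hK₂
  set K₁ : ℝ := 2 * (2 + 12 + 2 * Mertens.Cpp + 40 / δ * (33 + Real.log (2 * C))) with hK₁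
  obtain ⟨T, hT0, hT⟩ := bound_of_log_ineq K₁ K₂ (by positivity)
  obtain ⟨m₁, hm₁⟩ := exists_prime_of_long (Real.exp T) (Real.one_le_exp hT0)
  -- log condition
  obtain ⟨m₂, hm₂⟩ : ∃ m₂ : ℕ, ∀ m : ℕ, m₂ ≤ m → Real.log C + Real.log (1 + Real.log m) ≤ δ / 2 * Real.log m := by
    have hlim : ∀ᶠ m : ℕ in Filter.atTop, 4 / δ * (Real.log C + δ / 4 + Real.log (4 / δ)) ≤ Real.log m :=
      (Real.tendsto_log_atTop.comp tendsto_natCast_atTop_atTop).eventually_ge_atTop _
    obtain ⟨m₂, hm₂⟩ := Filter.eventually_atTop.mp hlim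
    refine ⟨m₂, fun m hm => ?_⟩
    have h1 := hm₂ m hm
    have h2 := log_one_add_le (show (0:ℝ) < 4 / δ by positivity) (Real.log_natCast_nonneg m)
    rw [div_mul_eq_mul_div, div_le_iff₀ hδ] at h1
    have h3 : (1 + Real.log m) / (4 / δ) = δ / 4 * (1 + Real.log m) := by field_simp
    rw [h3] at h2
    linarith
  refine ⟨m₁ + m₂ + 4, fun a h b k hs hm hL => ?_⟩
  set m := a + h with hmdef
  set L := max h k with hLdef
  have hh1 : 1 ≤ h := hs.1
  have hha : h ≤ a := hs.two_mul_le (by omega)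
  have hm4 : 4 ≤ m := by omega
  have hh0 : (0:ℝ) < h := by exact_mod_cast hh1
  have hmR : (4:ℝ) ≤ (m:ℝ) := by exact_mod_cast hm4
  have hm0 : (0:ℝ) < (m:ℝ) := by linarith
  have hhm : (h:ℝ) ≤ (m:ℝ) := by exact_mod_cast (by omega : h ≤ m)
  set t := Real.log ((m:ℝ) / h) with ht
  have ht0 : 0 ≤ t := Real.log_nonneg (by rw [le_div_iff₀ hh0]; linarith)
  have hteq : t = Real.log m - Real.log h := Real.log_div hm0.ne' hh0.ne'
  have hlogh0 : 0 ≤ Real.log (h:ℝ) := Real.log_natCast_nonneg h
  have htm : t ≤ Real.log m := by linarith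
  have hkC : (k:ℝ) ≤ C * h * (1 + t) := hcmp a h b k hs
  have hLC : (L:ℝ) ≤ C * h * (1 + t) := by
    rw [hLdef]
    push_cast
    apply max_le _ hkC
    have : (h:ℝ) * 1 ≤ (C * h) * (1 + t) := by
      apply mul_le_mul _ (by linarith) (by norm_num) (by positivity)
      nlinarith
    linarith
  have hhL : h ≤ L := le_max_left _ _
  have hkL : k ≤ L := le_max_right _ _
  have hL0 : (0:ℝ) < L := lt_of_lt_of_le hh0 (by exact_mod_cast hhL)
  have hLlog : (1 / 2 + δ) * Real.log m ≤ Real.log L := by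
    rw [← Real.log_rpow hm0]
    exact Real.log_le_log (by positivity) hL
  have hLlog2 : Real.log L ≤ Real.log C + Real.log h + Real.log (1 + t) := by
    have := Real.log_le_log hL0 hLC
    rwa [Real.log_mul (by positivity) (by positivity), Real.log_mul hC0.ne' hh0.ne'] at this
  have hlog1 : Real.log (1 + t) ≤ Real.log (1 + Real.log m) := Real.log_le_log (by linarith) (by linarith)
  have hm2 := hm₂ m (by omega)
  have hlogm0 : 0 < Real.log (m:ℝ) := Real.log_pos (by linarith)
  have hmain : (1 + δ) * Real.log (m:ℝ) ≤ 2 * Real.log h := by linarith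
  have hlm1 : (1:ℝ) ≤ Real.log m := by
    rw [Real.le_log_iff_exp_le hm0]
    have := Real.exp_one_lt_d9
    linarith
  have hh2 : 2 ≤ h := by
    by_contra hlt
    have : h = 1 := by omega
    rw [this] at hmain
    simp only [Nat.cast_one, Real.log_one, mul_zero] at hmain
    have : 0 < (1 + δ) * Real.log (m:ℝ) := by positivity
    linarith
  have hmh2 : (m:ℝ) ≤ (h:ℝ) ^ 2 := by
    have : Real.log (m:ℝ) ≤ Real.log ((h:ℝ) ^ 2) := by
      rw [Real.log_pow]; push_cast
      have := mul_pos hδ hlogm0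
      linarith
    exact (Real.log_le_log_iff hm0 (by positivity)).mp this
  have hmh2' : m ≤ h ^ 2 := by exact_mod_cast hmh2
  obtain ⟨us, hus2, hus⟩ := hs.align hhL hkL hha
  rw [← hmdef] at hus
  have hus0 : (0:ℝ) < us := by exact_mod_cast (by omega : 0 < us)
  set U₁ := (Icc 1 (m / h)).filter (fun u => m ≤ 2 * (L * u)) with hU₁
  set U₂ := (Icc 1 (m / L)).filter (Non a h L us) with hU₂
  have hL1 : 0 < L := by omega
  -- small primes
  have hsmall := small_primes_mass (a := a) (h := h) (us := us) (by omega) hh2 hmh2'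
  -- large primes
  have hlarge := large_primes_mass (a := a) (h := h) (us := us) hδ hh2 hmain (U₁ ∪ U₂) (by
    intro p x hp hhp hx husx hpx
    rw [mem_Ioc] at hx
    obtain ⟨u, hu⟩ := hpx
    have hxp : x / p = u := by rw [hu]; exact Nat.mul_div_cancel_left u hp.pos
    rw [hxp]
    have hu1 : 1 ≤ u := by
      rcases Nat.eq_zero_or_pos u with h0 | h0
      · rw [h0] at hu; omega
      · exact h0
    rw [mem_union]
    by_cases hpL : p ≤ L
    · left
      rw [hU₁, mem_filter, mem_Icc]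
      refine ⟨⟨hu1, ?_⟩, ?_⟩
      · rw [Nat.le_div_iff_mul_le (by omega)]
        calc u * h ≤ u * p := Nat.mul_le_mul_left _ hhp.le
          _ = x := by rw [hu]; ring
          _ ≤ m := hx.2
      · have : p * u ≤ L * u := Nat.mul_le_mul_right _ hpL
        omega
    · right
      push Not at hpL
      rw [hU₂, mem_filter, mem_Icc]
      refine ⟨⟨hu1, ?_⟩, ?_⟩
      · rw [Nat.le_div_iff_mul_le hL1]
        calc u * L ≤ u * p := Nat.mul_le_mul_left _ hpL.le
          _ = x := by rw [hu]; ring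
          _ ≤ m := hx.2
      · refine ⟨p, hp, hpL, ?_, ?_, ?_⟩
        · have h1 : (h + 1) ^ 2 ≤ p ^ 2 := Nat.pow_le_pow_left hhp 2
          nlinarith
        · rw [mem_Ioc, ← hu]; exact hx
        · rw [← hu]; exact husx) (by
    intro u hu
    rw [mem_union, hU₁, hU₂, mem_filter, mem_filter, mem_Icc, mem_Icc] at hu
    rcases hu with ⟨⟨h1, h2⟩, _⟩ | ⟨⟨h1, h2⟩, _⟩
    · rw [Nat.le_div_iff_mul_le (by omega)] at h2
      exact ⟨h1, h2⟩
    · rw [Nat.le_div_iff_mul_le hL1] at h2
      exact ⟨h1, (Nat.mul_le_mul_left _ hhL).trans h2⟩)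
  -- sum of reciprocals
  have hLh1 : (1:ℝ) ≤ 2 * L / h := by
    rw [le_div_iff₀ hh0]
    have : (h:ℝ) ≤ L := by exact_mod_cast hhL
    linarith
  have hinv1 : ∑ u ∈ U₁, (1:ℝ) / u ≤ 1 + Real.log (2 * L / h) := by
    set s := (m + 2 * L - 1) / (2 * L) with hs'
    have hs1 : 1 ≤ s := by
      rw [hs', Nat.le_div_iff_mul_le (by omega)]; omega
    have hsub : U₁ ⊆ Icc s (m / h) := by
      intro u hu
      rw [hU₁, mem_filter, mem_Icc] at hu
      rw [mem_Icc]
      refine ⟨?_, hu.1.2⟩
      rw [hs']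
      apply Nat.le_of_lt_succ
      rw [Nat.div_lt_iff_lt_mul (by omega)]
      have := hu.2
      have e : (u + 1) * (2 * L) = 2 * (L * u) + 2 * L := by ring
      show m + 2 * L - 1 < (u + 1) * (2 * L)
      omega
    rcases Nat.lt_or_ge (m / h) s with hlt | hge
    · rw [Finset.Icc_eq_empty (by omega)] at hsub
      rw [Finset.subset_empty.mp hsub, Finset.sum_empty]
      have := Real.log_nonneg hLh1
      linarith
    · have hharm := harmonic_le hs1 hge
      have hsR : (0:ℝ) < s := by exact_mod_cast hs1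
      have h1 : (((m / h : ℕ) : ℝ) / s) ≤ 2 * L / h := by
        have e1 : ((m / h : ℕ) : ℝ) ≤ m / h := Nat.cast_div_le
        have e2 : (m:ℝ) ≤ 2 * L * s := by
          have : m ≤ 2 * L * s := by
            have := Nat.lt_mul_of_div_lt (Nat.lt_succ_self s) (by omega : 0 < 2 * L)
            have e : (s + 1) * (2 * L) = 2 * L * s + 2 * L := by ring
            have h' : m + 2 * L - 1 < (s + 1) * (2 * L) := this
            omega
          exact_mod_cast this
        rw [div_le_div_iff₀ hsR hh0]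
        have e3 : ((m / h : ℕ) : ℝ) * h ≤ m := by
          rw [le_div_iff₀ hh0] at e1; exact e1
        linarith
      have h2 : Real.log (((m / h : ℕ) : ℝ) / s) ≤ Real.log (2 * L / h) := by
        apply Real.log_le_log _ h1
        have : 0 < m / h := by omega
        positivity
      refine (Finset.sum_le_sum_of_subset_of_nonneg hsub (fun _ _ _ => by positivity)).trans ?_
      linarith
  have hinv2 : ∑ u ∈ U₂, (1:ℝ) / u ≤ 32 := by
    have h1 := sum_inv_of_card (P := Non a h L us) (A := 16 * (L / m)) (by positivity) (by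
      intro v; convert hus v) (m / L)
    refine h1.trans ?_
    have e1 : ((m / L : ℕ) : ℝ) ≤ m / L := Nat.cast_div_le
    calc 2 * (16 * ((L:ℝ) / m)) * ((m / L : ℕ) : ℝ) ≤ 2 * (16 * ((L:ℝ) / m)) * ((m:ℝ) / L) :=
          mul_le_mul_of_nonneg_left e1 (by positivity)
      _ = 32 := by field_simp; norm_num
  have hinv : ∑ u ∈ U₁ ∪ U₂, (1:ℝ) / u ≤ 33 + Real.log (2 * L / h) := by
    have := Finset.sum_union_inter (s₁ := U₁) (s₂ := U₂) (f := fun u => (1:ℝ) / u)
    have h0 : (0:ℝ) ≤ ∑ u ∈ U₁ ∩ U₂, (1:ℝ) / u := Finset.sum_nonneg (fun _ _ => by positivity)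
    linarith
  -- total
  set Is := (Ioc a m).filter (fun x => ¬ us ∣ x) with hIs
  have htotal : ∑ x ∈ Is, Real.log (x:ℝ) = ∑ p ∈ Nat.primesLE m, Real.log p * ∑ x ∈ Is, (x.factorization p : ℝ) := by
    have h1 : ∀ x ∈ Is, Real.log (x:ℝ) = ∑ p ∈ Nat.primesLE m, Real.log p * (x.factorization p : ℝ) := by
      intro x hx
      rw [hIs, mem_filter, mem_Ioc] at hx
      rw [Real.log_nat_eq_sum_factorization]
      rw [Finsupp.sum_of_support_subset (s := Nat.primesLE m)]
      · exact Finset.sum_congr rfl (fun p _ => by ring)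
      · intro p hp
        rw [Nat.support_factorization, Nat.mem_primeFactors] at hp
        rw [Nat.mem_primesLE]
        exact ⟨(Nat.le_of_dvd (by omega) hp.2.1).trans hx.1.2, hp.1⟩
      · intro p _; simp
    rw [Finset.sum_congr rfl h1, Finset.sum_comm]
    refine Finset.sum_congr rfl (fun p _ => ?_)
    rw [Finset.mul_sum]
  have hsplit : ∑ p ∈ Nat.primesLE m, Real.log p * ∑ x ∈ Is, (x.factorization p : ℝ) =
      ∑ p ∈ Nat.primesLE h, Real.log p * ∑ x ∈ Is, (x.factorization p : ℝ) +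
      ∑ p ∈ (Nat.primesLE m).filter (fun p => h < p), Real.log p * ∑ x ∈ Is, (x.factorization p : ℝ) := by
    rw [← Finset.sum_filter_add_sum_filter_not (Nat.primesLE m) (fun p => h < p), add_comm]
    congr 1
    apply Finset.sum_congr _ (fun _ _ => rfl)
    ext p
    simp only [mem_filter, Nat.mem_primesLE, not_lt]
    constructor
    · rintro ⟨⟨h1, h2⟩, h3⟩; exact ⟨h3, h2⟩
    · rintro ⟨h1, h2⟩; exact ⟨⟨by omega, h2⟩, h1⟩
  have hcard : (h:ℝ) - (h / us + 1) ≤ (Is.card : ℝ) := by
    have h1 := BT.count_dvd a h us (by omega)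
    rw [abs_le] at h1
    have h2 := Finset.card_filter_add_card_filter_not (s := Ioc a (a + h)) (fun x => us ∣ x)
    rw [Nat.card_Ioc, Nat.add_sub_cancel_left] at h2
    have h3 : (((Ioc a (a + h)).filter (fun x => us ∣ x)).card : ℝ) + (Is.card : ℝ) = h := by
      rw [hIs, hmdef]; exact_mod_cast h2
    linarith [h1.2]
  have hlower : (Is.card : ℝ) * (Real.log m - Real.log 2) ≤ ∑ x ∈ Is, Real.log (x:ℝ) := by
    rw [← nsmul_eq_mul]
    apply Finset.card_nsmul_le_sum
    intro x hx
    rw [hIs, mem_filter, mem_Ioc] at hx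
    rw [← Real.log_div hm0.ne' (by norm_num)]
    apply Real.log_le_log (by positivity)
    rw [div_le_iff₀ (by norm_num)]
    have : m ≤ x * 2 := by omega
    exact_mod_cast this
  have hl2 := Real.log_two_lt_d9
  have hl2' := Real.log_two_gt_d9
  have hE0 : 0 ≤ Real.log m - Real.log 2 := by linarith
  have hlower2 := (mul_le_mul_of_nonneg_right hcard hE0).trans hlower
  have hlogmh : Real.log (m:ℝ) ≤ h := by
    have h1 : Real.log (m:ℝ) ≤ 2 * Real.log h := by
      have := mul_pos hδ hlogm0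
      linarith
    have := Cheb.log_le_half hh0
    linarith
  have hLh : Real.log (2 * L / h) ≤ Real.log (2 * C) + Real.log (1 + t) := by
    rw [← Real.log_mul (by positivity) (by positivity)]
    apply Real.log_le_log (by positivity)
    rw [div_le_iff₀ hh0]
    linarith
  have hus2R : (2:ℝ) ≤ us := by exact_mod_cast hus2
  have hiu : (1:ℝ) / us ≤ 1 / 2 := one_div_le_one_div_of_le (by norm_num) hus2R
  have hiu0 : (0:ℝ) < 1 / us := by positivity
  set v : ℝ := 1 - 1 / us with hv
  have hv1 : 1 / 2 ≤ v := by linarith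
  have e1 : (h:ℝ) - (h / us + 1) = v * h - 1 := by rw [hv]; ring
  rw [e1] at hlower2
  have h40 : (0:ℝ) < 40 / δ := by positivity
  have hlarge2 : 40 / δ * h * ∑ u ∈ U₁ ∪ U₂, (1:ℝ) / u ≤
      40 / δ * h * (33 + Real.log (2 * C) + Real.log (1 + t)) := by
    apply mul_le_mul_of_nonneg_left _ (by positivity)
    linarith
  have hfin : v * h * (t - Real.log 2) ≤ h * (1 + (12 + 2 * Mertens.Cpp) + 40 / δ * (33 + Real.log (2 * C) + Real.log (1 + t))) := by
    have e2 : (v * h - 1) * (Real.log m - Real.log 2) = v * h * (t - Real.log 2) + v * h * Real.log h - (Real.log m - Real.log 2) := by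
      rw [hteq]; ring
    rw [e2] at hlower2
    rw [htotal, hsplit] at hlower2
    have e3 : h * (1 + (12 + 2 * Mertens.Cpp) + 40 / δ * (33 + Real.log (2 * C) + Real.log (1 + t))) =
      h + (12 + 2 * Mertens.Cpp) * h + 40 / δ * h * (33 + Real.log (2 * C) + Real.log (1 + t)) := by ring
    rw [e3]
    linarith
  have hfin2 : v * (t - Real.log 2) ≤ 1 + (12 + 2 * Mertens.Cpp) + 40 / δ * (33 + Real.log (2 * C) + Real.log (1 + t)) := by
    have : h * (v * (t - Real.log 2)) ≤ h * (1 + (12 + 2 * Mertens.Cpp) + 40 / δ * (33 + Real.log (2 * C) + Real.log (1 + t))) := by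
      linarith
    exact le_of_mul_le_mul_left this hh0
  have hv2 : v ≤ 1 := by linarith
  have hfin3 : t ≤ K₁ + K₂ * Real.log (1 + t) := by
    have h1 : v * Real.log 2 ≤ 1 := by nlinarith
    have h2 : 1 / 2 * t ≤ v * t := mul_le_mul_of_nonneg_right hv1 ht0
    rw [hK₁, hK₂]
    have h3 : v * (t - Real.log 2) = v * t - v * Real.log 2 := by ring
    rw [h3] at hfin2
    have e4 : 2 * (2 + 12 + 2 * Mertens.Cpp + 40 / δ * (33 + Real.log (2 * C))) + 2 * (40 / δ) * Real.log (1 + t) =
      2 * (1 + (1 + (12 + 2 * Mertens.Cpp) + 40 / δ * (33 + Real.log (2 * C) + Real.log (1 + t)))) := by ring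
    rw [e4]
    linarith
  have hfin4 := hT t ht0 hfin3
  have hfin5 : ((a + h : ℕ) : ℝ) ≤ Real.exp T * h := by
    have : (m:ℝ) / h ≤ Real.exp T := by
      rw [← Real.log_le_iff_le_exp (by positivity)]
      exact hfin4
    rwa [div_le_iff₀ hh0] at this
  obtain ⟨p, hp, hp1, hp2⟩ := hm₁ a h (by omega) hha (by omega) hfin5
  exact hs.no_prime hp hp1 hp2 (by omega)

end Pool.Agent.helper91.D4
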