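import Mathlib

/-!
# A one-sided discrete maximal inequality
-/

open Finset

namespace Pool.Agent.helper91.MaxIneq

open Classical in
/-- the set of `m ≤ n` having a window `(m-h, m]` with large average -/
noncomputable def badSet (f : ℕ → ℝ) (l : ℝ) (n : ℕ) : Finset ℕ :=
  (Ioc 0 n).filter (fun m => ∃ h, 1 ≤ h ∧ h ≤ m ∧ l * h < ∑ x ∈ Ioc (m - h) m, f x)

lemma mem_badSet {f : ℕ → ℝ} {l : ℝ} {n m : ℕ} : m ∈ badSet f l n ↔
    (0 < m ∧ m ≤ n) ∧ ∃ h, 1 ≤ h ∧ h ≤ m ∧ l * h < ∑ x ∈ Ioc (m - h) m, f x := by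
  classical
  unfold badSet
  rw [Finset.mem_filter, mem_Ioc]

theorem maximal (f : ℕ → ℝ) (hf : ∀ x, 0 ≤ f x) {l : ℝ} (hl : 0 ≤ l) (n : ℕ) :
    ((badSet f l n).card : ℝ) * l ≤ ∑ x ∈ Ioc 0 n, f x := by
  induction n using Nat.strong_induction_on with
  | _ n ih =>
    rcases Nat.eq_zero_or_pos n with rfl | hn
    · simp [badSet]
    by_cases hb : n ∈ badSet f l n
    · have hb' := hb
      rw [mem_badSet] at hb'
      obtain ⟨-, h, h1, h2, h3⟩ := hb'
      have ih' := ih (n - h) (by omega)
      have hsub : badSet f l n ⊆ badSet f l (n - h) ∪ Ioc (n - h) n := by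
        intro m hm
        simp only [mem_badSet, mem_Ioc, mem_union] at hm ⊢
        by_cases hmn : m ≤ n - h
        · exact Or.inl ⟨⟨hm.1.1, hmn⟩, hm.2⟩
        · exact Or.inr ⟨by omega, hm.1.2⟩
      have hc : ((badSet f l n).card : ℝ) ≤ (badSet f l (n - h)).card + h := by
        have := (Finset.card_le_card hsub).trans (Finset.card_union_le _ _)
        rw [Nat.card_Ioc] at this
        have e : n - (n - h) = h := by omega
        rw [e] at this
        exact_mod_cast this
      have hs : ∑ x ∈ Ioc 0 n, f x = ∑ x ∈ Ioc 0 (n - h), f x + ∑ x ∈ Ioc (n - h) n, f x := by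
        rw [← Finset.sum_union]
        · congr 1
          ext x; simp only [mem_Ioc, mem_union]; omega
        · rw [Finset.disjoint_left]
          intro x; simp only [mem_Ioc]; omega
      rw [hs]
      nlinarith
    · have ih' := ih (n - 1) (by omega)
      have hsub : badSet f l n ⊆ badSet f l (n - 1) := by
        intro m hm
        have hmn : m ≠ n := fun h => hb (h ▸ hm)
        simp only [mem_badSet] at hm ⊢
        exact ⟨⟨hm.1.1, by omega⟩, hm.2⟩
      have hc : ((badSet f l n).card : ℝ) ≤ (badSet f l (n - 1)).card := by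
        exact_mod_cast Finset.card_le_card hsub
      have hs : ∑ x ∈ Ioc 0 (n - 1), f x ≤ ∑ x ∈ Ioc 0 n, f x := by
        apply Finset.sum_le_sum_of_subset_of_nonneg
        · intro x; simp only [mem_Ioc]; omega
        · intro _ _ _; exact hf _
      nlinarith

end Pool.Agent.helper91.MaxIneq
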