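import Mathlib
import Pool.Agent.helper91.Mertens
import Pool.Agent.helper91.BrunTitchmarsh

/-!
# A second moment (Turán–Kubilius type) inequality for short windows
-/

open Finset

namespace Pool.Agent.helper91.TK

open Mertens (M)

/-- indicator of divisibility -/
noncomputable def ind (p x : ℕ) : ℝ := if p ∣ x then 1 else 0

/-- number of multiples of `p` in the window `(N, N+h]` -/
def c (p N h : ℕ) : ℕ := ((Ioc N (N + h)).filter (fun x => p ∣ x)).card

/-- centered count -/
noncomputable def g (p h N : ℕ) : ℝ := (c p N h : ℝ) - h / p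

lemma c_eq (p N h : ℕ) : (c p N h : ℝ) = ∑ i ∈ range h, ind p (N + i + 1) := by
  unfold c ind
  rw [Finset.card_filter]
  push_cast
  rw [← Finset.sum_image (s := range h) (g := fun i => N + i + 1) (f := fun x => if p ∣ x then (1:ℝ) else 0)]
  · congr 1
    ext x
    simp only [mem_Ioc, mem_image, mem_range]
    constructor
    · rintro ⟨h1, h2⟩
      exact ⟨x - N - 1, by omega, by omega⟩
    · rintro ⟨i, hi, rfl⟩
      omega
  · intro x _ y _ hxy
    simp only at hxy
    omega

lemma g_eq (p h N : ℕ) : g p h N = ∑ i ∈ range h, (ind p (N + i + 1) - 1 / p) := by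
  unfold g
  rw [c_eq, Finset.sum_sub_distrib, Finset.sum_const, card_range, nsmul_eq_mul]
  ring

lemma sum_ind (p i n : ℕ) (hp : 0 < p) : |∑ N ∈ range n, ind p (N + i + 1) - n / p| ≤ 1 := by
  have h := BT.count_dvd i n p hp
  have h2 := c_eq p i n
  unfold c at h2
  rw [h2] at h
  convert h using 4 with N hN
  congr 1; ring

lemma sum_ind_ind (p q i j n : ℕ) (hp : 0 < p) (hq : 0 < q) (hpq : Nat.Coprime p q) :
    |∑ N ∈ range n, ind p (N + i + 1) * ind q (N + j + 1) - n / (p * q)| ≤ 1 := by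
  obtain ⟨r, hr1, hr2⟩ := Nat.chineseRemainder hpq i j
  have h1 : ∀ N ∈ range n, ind p (N + i + 1) * ind q (N + j + 1) = ind (p * q) (N + r + 1) := by
    intro N _
    have e1 : p ∣ N + i + 1 ↔ p ∣ N + r + 1 := by
      have : N + r + 1 ≡ N + i + 1 [MOD p] := (hr1.add_left N).add_right 1
      exact (this.dvd_iff (dvd_refl p)).symm
    have e2 : q ∣ N + j + 1 ↔ q ∣ N + r + 1 := by
      have : N + r + 1 ≡ N + j + 1 [MOD q] := (hr2.add_left N).add_right 1
      exact (this.dvd_iff (dvd_refl q)).symm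
    have e3 : p * q ∣ N + r + 1 ↔ (p ∣ N + r + 1 ∧ q ∣ N + r + 1) := by
      constructor
      · intro h
        exact ⟨(dvd_mul_right p q).trans h, (dvd_mul_left q p).trans h⟩
      · rintro ⟨h1, h2⟩
        exact hpq.mul_dvd_of_dvd_of_dvd h1 h2
    unfold ind
    simp only [e1, e2, e3]
    by_cases h1 : p ∣ N + r + 1 <;> by_cases h2 : q ∣ N + r + 1 <;> simp [h1, h2]
  rw [Finset.sum_congr rfl h1]
  have := sum_ind (p * q) r n (Nat.mul_pos hp hq)
  push_cast at this
  exact this

lemma offdiag_term (p q i j n : ℕ) (hp : 2 ≤ p) (hq : 2 ≤ q) (hpq : Nat.Coprime p q) :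
    |∑ N ∈ range n, (ind p (N + i + 1) - 1 / p) * (ind q (N + j + 1) - 1 / q)| ≤ 2 := by
  have h1 := sum_ind p i n (by omega)
  have h2 := sum_ind q j n (by omega)
  have h3 := sum_ind_ind p q i j n (by omega) (by omega) hpq
  have hp' : (2:ℝ) ≤ p := by exact_mod_cast hp
  have hq' : (2:ℝ) ≤ q := by exact_mod_cast hq
  set A := ∑ N ∈ range n, ind p (N + i + 1) with hA
  set B := ∑ N ∈ range n, ind q (N + j + 1) with hB
  set C := ∑ N ∈ range n, ind p (N + i + 1) * ind q (N + j + 1) with hC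
  have h4 : ∑ N ∈ range n, (ind p (N + i + 1) - 1 / p) * (ind q (N + j + 1) - 1 / q) =
      (C - n / (p * q)) - (A - n / p) * (1 / q) - (B - n / q) * (1 / p) := by
    have : ∀ N ∈ range n, (ind p (N + i + 1) - 1 / (p:ℝ)) * (ind q (N + j + 1) - 1 / q) =
      ind p (N + i + 1) * ind q (N + j + 1) - ind p (N + i + 1) * (1 / q) - ind q (N + j + 1) * (1 / p)
        + 1 / (p * q) := by
      intro N _
      have : (1:ℝ) / (p * q) = (1 / p) * (1 / q) := by rw [one_div_mul_one_div]
      rw [this]; ring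
    rw [Finset.sum_congr rfl this, Finset.sum_add_distrib, Finset.sum_sub_distrib, Finset.sum_sub_distrib,
      ← Finset.sum_mul, ← Finset.sum_mul, ← hA, ← hB, ← hC, Finset.sum_const, card_range, nsmul_eq_mul]
    have e1 : (n:ℝ) / (p * q) = n / p * (1 / q) := by field_simp
    have e2 : (n:ℝ) / q * (1 / p) = n / p * (1 / q) := by field_simp
    have e3 : (n:ℝ) * (1 / (p * q)) = n / p * (1 / q) := by field_simp
    rw [e1, e3]
    linear_combination (-1:ℝ) * e2
  rw [h4]
  have i1 : |(A - n / p) * (1 / (q:ℝ))| ≤ 1 * (1 / 2) := by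
    rw [abs_mul]
    have : |(1:ℝ) / q| ≤ 1 / 2 := by
      rw [abs_of_nonneg (by positivity)]
      exact one_div_le_one_div_of_le (by norm_num) hq'
    exact mul_le_mul h1 this (abs_nonneg _) (by norm_num)
  have i2 : |(B - n / q) * (1 / (p:ℝ))| ≤ 1 * (1 / 2) := by
    rw [abs_mul]
    have : |(1:ℝ) / p| ≤ 1 / 2 := by
      rw [abs_of_nonneg (by positivity)]
      exact one_div_le_one_div_of_le (by norm_num) hp'
    exact mul_le_mul h2 this (abs_nonneg _) (by norm_num)
  rw [abs_le] at *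
  constructor <;> linarith [h3.1, h3.2, i1.1, i1.2, i2.1, i2.2]

lemma offdiag (p q h n : ℕ) (hp : 2 ≤ p) (hq : 2 ≤ q) (hpq : Nat.Coprime p q) :
    |∑ N ∈ range n, g p h N * g q h N| ≤ 2 * h ^ 2 := by
  have h1 : ∑ N ∈ range n, g p h N * g q h N = ∑ i ∈ range h, ∑ j ∈ range h,
      ∑ N ∈ range n, (ind p (N + i + 1) - 1 / p) * (ind q (N + j + 1) - 1 / q) := by
    calc ∑ N ∈ range n, g p h N * g q h N
        = ∑ N ∈ range n, ∑ i ∈ range h, ∑ j ∈ range h,
          (ind p (N + i + 1) - 1 / p) * (ind q (N + j + 1) - 1 / q) := by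
          refine Finset.sum_congr rfl (fun N _ => ?_)
          rw [g_eq, g_eq, Finset.sum_mul_sum]
      _ = ∑ i ∈ range h, ∑ N ∈ range n, ∑ j ∈ range h,
          (ind p (N + i + 1) - 1 / p) * (ind q (N + j + 1) - 1 / q) := Finset.sum_comm
      _ = _ := by
          refine Finset.sum_congr rfl (fun i _ => ?_)
          exact Finset.sum_comm
  rw [h1]
  refine (Finset.abs_sum_le_sum_abs _ _).trans ?_
  calc ∑ i ∈ range h, |∑ j ∈ range h, ∑ N ∈ range n, (ind p (N + i + 1) - 1 / p) * (ind q (N + j + 1) - 1 / q)|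
      ≤ ∑ i ∈ range h, ((h:ℝ) * 2) := by
        refine Finset.sum_le_sum (fun i _ => ?_)
        refine (Finset.abs_sum_le_sum_abs _ _).trans ?_
        calc _ ≤ ∑ j ∈ range h, (2:ℝ) := Finset.sum_le_sum (fun j _ => offdiag_term p q i j n hp hq hpq)
          _ = _ := by rw [Finset.sum_const, card_range, nsmul_eq_mul]
    _ = 2 * h ^ 2 := by rw [Finset.sum_const, card_range, nsmul_eq_mul]; ring

lemma diag (p h n : ℕ) (hp : 2 ≤ p) (hpn : p ≤ n) :
    ∑ N ∈ range n, g p h N ^ 2 ≤ 3 * n * h / p := by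
  have hp0 : (0:ℝ) < p := by exact_mod_cast (by omega : 0 < p)
  have hpn' : (p:ℝ) ≤ n := by exact_mod_cast hpn
  have hn0 : (0:ℝ) < n := hp0.trans_le hpn'
  rcases lt_or_ge h p with hlt | hge
  · have hc : ∀ N, (c p N h : ℝ) ^ 2 = c p N h := by
      intro N
      have : c p N h ≤ 1 := by
        unfold c
        rw [Finset.card_le_one]
        intro x hx y hy
        simp only [mem_filter, mem_Ioc] at hx hy
        obtain ⟨⟨a1, a2⟩, a3⟩ := hx
        obtain ⟨⟨b1, b2⟩, b3⟩ := hy
        rcases le_total x y with hxy | hxy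
        · have h3 : p ∣ y - x := Nat.dvd_sub b3 a3
          have h4 : y - x < p := by omega
          have := Nat.eq_zero_of_dvd_of_lt h3 h4
          omega
        · have h3 : p ∣ x - y := Nat.dvd_sub a3 b3
          have h4 : x - y < p := by omega
          have := Nat.eq_zero_of_dvd_of_lt h3 h4
          omega
      interval_cases hh : c p N h <;> simp
    have h1 : ∀ N ∈ range n, g p h N ^ 2 ≤ c p N h + (h / p : ℝ) ^ 2 := by
      intro N _
      have h2 : g p h N ^ 2 = (c p N h : ℝ) ^ 2 - 2 * (c p N h * (h / p)) + (h / p : ℝ) ^ 2 := by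
        unfold g; ring
      rw [h2, hc]
      have : (0:ℝ) ≤ (c p N h : ℝ) * (h / p) := by positivity
      linarith
    have h2 : ∑ N ∈ range n, (c p N h : ℝ) ≤ h * (n / p + 1) := by
      have : ∑ N ∈ range n, (c p N h : ℝ) = ∑ i ∈ range h, ∑ N ∈ range n, ind p (N + i + 1) := by
        rw [Finset.sum_comm]
        exact Finset.sum_congr rfl (fun N _ => c_eq p N h)
      rw [this]
      calc _ ≤ ∑ i ∈ range h, ((n:ℝ) / p + 1) := by
            refine Finset.sum_le_sum (fun i _ => ?_)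
            have := sum_ind p i n (by omega)
            rw [abs_le] at this
            linarith [this.2]
        _ = _ := by rw [Finset.sum_const, card_range, nsmul_eq_mul]
    calc ∑ N ∈ range n, g p h N ^ 2 ≤ ∑ N ∈ range n, ((c p N h : ℝ) + (h / p : ℝ) ^ 2) := Finset.sum_le_sum h1
      _ = ∑ N ∈ range n, (c p N h : ℝ) + n * (h / p : ℝ) ^ 2 := by
          rw [Finset.sum_add_distrib, Finset.sum_const, card_range, nsmul_eq_mul]
      _ ≤ h * (n / p + 1) + n * (h / p : ℝ) ^ 2 := by linarith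
      _ ≤ 3 * n * h / p := by
          have hlt' : (h:ℝ) ≤ p := by exact_mod_cast hlt.le
          have e1 : (h:ℝ) / p ≤ 1 := by rw [div_le_one hp0]; exact hlt'
          have e0 : (0:ℝ) ≤ (h:ℝ) / p := by positivity
          have e2 : (1:ℝ) ≤ n / p := by rw [le_div_iff₀ hp0]; linarith
          have e3 : (h / p : ℝ) ^ 2 ≤ h / p := by nlinarith
          have e4 : (h:ℝ) ≤ h * (n / p) := by
            have : (0:ℝ) ≤ h := Nat.cast_nonneg h
            nlinarith
          have e5 : 3 * (n:ℝ) * h / p = 3 * (h * (n / p)) := by field_simp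
          have e6 : (n:ℝ) * (h / p) = h * (n / p) := by field_simp
          rw [e5]
          have e7 : (n:ℝ) * (h / p : ℝ) ^ 2 ≤ n * (h / p) := mul_le_mul_of_nonneg_left e3 hn0.le
          have e8 : (h:ℝ) * (n / p + 1) = h * (n / p) + h := by ring
          rw [e8]
          linarith
  · have h1 : ∀ N ∈ range n, g p h N ^ 2 ≤ 1 := by
      intro N _
      have := BT.count_dvd N h p (by omega)
      have h2 : |g p h N| ≤ 1 := this
      have := sq_abs (g p h N)
      rw [← this]
      exact pow_le_one₀ (abs_nonneg _) h2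
    calc ∑ N ∈ range n, g p h N ^ 2 ≤ ∑ N ∈ range n, (1:ℝ) := Finset.sum_le_sum h1
      _ = n := by simp
      _ ≤ 3 * n * h / p := by
          rw [le_div_iff₀ hp0]
          have : (p:ℝ) ≤ h := by exact_mod_cast hge
          nlinarith

/-- the mass of the primes up to `z` in the window `(N, N+h]` -/
noncomputable def S (z N h : ℕ) : ℝ := ∑ p ∈ Nat.primesLE z, Real.log p * c p N h

lemma S_sub (z N h : ℕ) : S z N h - h * M z = ∑ p ∈ Nat.primesLE z, Real.log p * g p h N := by
  unfold S M g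
  rw [Finset.mul_sum, ← Finset.sum_sub_distrib]
  refine Finset.sum_congr rfl (fun p _ => ?_)
  ring

theorem second_moment (z n h : ℕ) (hz : z ^ 2 ≤ n) (hz1 : 1 ≤ z) :
    ∑ N ∈ range n, (S z N h - h * M z) ^ 2 ≤
      4 * h ^ 2 * n + 3 * n * h * (Real.log z * (Real.log z + Real.log 4)) := by
  have hzn : z ≤ n := by nlinarith
  set P := Nat.primesLE z with hP
  have hlog : ∀ p ∈ P, 0 ≤ Real.log p := fun p _ => Real.log_natCast_nonneg p
  have h1 : ∑ N ∈ range n, (S z N h - h * M z) ^ 2 =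
      ∑ p ∈ P, ∑ q ∈ P, Real.log p * Real.log q * ∑ N ∈ range n, g p h N * g q h N := by
    calc _ = ∑ N ∈ range n, ∑ p ∈ P, ∑ q ∈ P, (Real.log p * g p h N) * (Real.log q * g q h N) := by
          refine Finset.sum_congr rfl (fun N _ => ?_)
          rw [S_sub, sq, Finset.sum_mul_sum]
      _ = ∑ p ∈ P, ∑ N ∈ range n, ∑ q ∈ P, (Real.log p * g p h N) * (Real.log q * g q h N) :=
          Finset.sum_comm
      _ = _ := by
          refine Finset.sum_congr rfl (fun p _ => ?_)
          rw [Finset.sum_comm]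
          refine Finset.sum_congr rfl (fun q _ => ?_)
          rw [Finset.mul_sum]
          refine Finset.sum_congr rfl (fun N _ => ?_)
          ring
  have h2 : ∀ p ∈ P, ∀ q ∈ P, Real.log p * Real.log q * ∑ N ∈ range n, g p h N * g q h N ≤
      Real.log p * Real.log q * (2 * h ^ 2) +
        (if p = q then Real.log p * Real.log p * (3 * n * h / p) else 0) := by
    intro p hp q hq
    have hp' := Nat.prime_of_mem_primesLE hp
    have hq' := Nat.prime_of_mem_primesLE hq
    have hle : p ≤ z := (Nat.mem_primesLE.mp hp).1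
    have l1 := hlog p hp
    have l2 := hlog q hq
    by_cases hpq : p = q
    · subst hpq
      simp only [if_true]
      have := diag p h n hp'.two_le (hle.trans hzn)
      have e : ∑ N ∈ range n, g p h N * g p h N = ∑ N ∈ range n, g p h N ^ 2 :=
        Finset.sum_congr rfl (fun N _ => by ring)
      rw [e]
      have e1 : (0:ℝ) ≤ Real.log p * Real.log p * (2 * (h:ℝ) ^ 2) := by positivity
      have e2 : Real.log p * Real.log p * ∑ N ∈ range n, g p h N ^ 2 ≤
        Real.log p * Real.log p * (3 * n * h / p) := mul_le_mul_of_nonneg_left this (by positivity)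
      linarith
    · simp only [if_neg hpq, add_zero]
      have hc : Nat.Coprime p q := (Nat.coprime_primes hp' hq').mpr hpq
      have := offdiag p q h n hp'.two_le hq'.two_le hc
      refine mul_le_mul_of_nonneg_left ((le_abs_self _).trans this) (by positivity)
  rw [h1]
  have h3 : ∑ p ∈ P, ∑ q ∈ P, Real.log p * Real.log q * ∑ N ∈ range n, g p h N * g q h N ≤
      ∑ p ∈ P, ∑ q ∈ P, (Real.log p * Real.log q * (2 * h ^ 2) +
        (if p = q then Real.log p * Real.log p * (3 * n * h / p) else 0)) :=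
    Finset.sum_le_sum (fun p hp => Finset.sum_le_sum (fun q hq => h2 p hp q hq))
  refine h3.trans ?_
  have h4 : ∑ p ∈ P, ∑ q ∈ P, (Real.log p * Real.log q * (2 * (h:ℝ) ^ 2) +
        (if p = q then Real.log p * Real.log p * (3 * n * h / p) else 0)) =
      (∑ p ∈ P, Real.log p) ^ 2 * (2 * h ^ 2) + ∑ p ∈ P, Real.log p * Real.log p * (3 * n * h / p) := by
    rw [sq (∑ p ∈ P, Real.log p), Finset.sum_mul_sum, Finset.sum_mul, ← Finset.sum_add_distrib]
    refine Finset.sum_congr rfl (fun p hp => ?_)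
    rw [Finset.sum_add_distrib, Finset.sum_mul]
    congr 1
    rw [Finset.sum_ite_eq]
    simp [hp]
  rw [h4]
  have hθ : ∑ p ∈ P, Real.log p ≤ Real.log 4 * z := by
    rw [hP, ← Chebyshev.theta_eq_sum_primesLE_log]
    exact Chebyshev.theta_le_log4_mul_x (by positivity)
  have hθ0 : 0 ≤ ∑ p ∈ P, Real.log p := Finset.sum_nonneg hlog
  have hl4 : Real.log 4 ≤ 1.4 := by
    have : Real.log 4 = 2 * Real.log 2 := by
      rw [show (4:ℝ) = 2 ^ 2 by norm_num, Real.log_pow]; norm_num
    rw [this]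
    have := Real.log_two_lt_d9
    linarith
  have hl40 : 0 ≤ Real.log 4 := Real.log_nonneg (by norm_num)
  have hz' : (z:ℝ) ^ 2 ≤ n := by exact_mod_cast hz
  have e1 : (∑ p ∈ P, Real.log p) ^ 2 ≤ 2 * (n:ℝ) := by
    calc (∑ p ∈ P, Real.log p) ^ 2 ≤ (Real.log 4 * z) ^ 2 := by
          apply pow_le_pow_left₀ hθ0 hθ
      _ ≤ (1.4 * (z:ℝ)) ^ 2 := by
          apply pow_le_pow_left₀ (by positivity)
          exact mul_le_mul_of_nonneg_right hl4 (by positivity)
      _ ≤ 2 * (n:ℝ) := by nlinarith [sq_nonneg (z:ℝ)]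
  have e2 : (∑ p ∈ P, Real.log p) ^ 2 * (2 * (h:ℝ) ^ 2) ≤ 4 * h ^ 2 * n := by
    calc _ ≤ (2 * (n:ℝ)) * (2 * (h:ℝ) ^ 2) := mul_le_mul_of_nonneg_right e1 (by positivity)
      _ = _ := by ring
  have e3 : ∑ p ∈ P, Real.log p * Real.log p * (3 * n * h / p) ≤
      3 * n * h * (Real.log z * (Real.log z + Real.log 4)) := by
    calc _ ≤ ∑ p ∈ P, 3 * n * h * Real.log z * (Real.log p / p) := by
          refine Finset.sum_le_sum (fun p hp => ?_)
          have hp' := Nat.prime_of_mem_primesLE hp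
          have hp0 : (0:ℝ) < p := by exact_mod_cast hp'.pos
          have hle : p ≤ z := (Nat.mem_primesLE.mp hp).1
          have l1 := hlog p hp
          have l2 : Real.log p ≤ Real.log z := Real.log_le_log hp0 (by exact_mod_cast hle)
          have : Real.log p * Real.log p * (3 * n * h / p) = 3 * n * h * Real.log p * (Real.log p / p) := by
            field_simp
          rw [this]
          apply mul_le_mul_of_nonneg_right _ (by positivity)
          apply mul_le_mul_of_nonneg_left l2 (by positivity)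
      _ = 3 * n * h * Real.log z * M z := by rw [M, Finset.mul_sum]
      _ ≤ 3 * n * h * Real.log z * (Real.log z + Real.log 4) := by
          apply mul_le_mul_of_nonneg_left (Mertens.upper hz1)
          have : 0 ≤ Real.log z := Real.log_natCast_nonneg z
          positivity
      _ = _ := by ring
  linarith

/-- the exceptional set at scale `h` -/
noncomputable def exc (z n h : ℕ) (τ : ℝ) : Finset ℕ :=
  (range n).filter (fun N => τ * h * Real.log n < |S z N h - h * M z|)

lemma card_exc_le (z n h : ℕ) (hz : z ^ 2 ≤ n) (hz1 : 1 ≤ z) (hh : 1 ≤ h) {τ : ℝ} (hτ : 0 < τ)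
    (hn : 3 ≤ Real.log n) :
    ((exc z n h τ).card : ℝ) ≤ 4 * n / (τ ^ 2 * Real.log n ^ 2) + 3 * n / (2 * τ ^ 2 * h) := by
  have h1 := second_moment z n h hz hz1
  have hh0 : (0:ℝ) < h := by exact_mod_cast hh
  have hn0 : (0:ℝ) < n := by
    rcases Nat.eq_zero_or_pos n with rfl | h
    · simp at hn; norm_num at hn
    · exact_mod_cast h
  set l := Real.log n with hl
  have hl0 : 0 < l := by linarith
  have h2 : ((exc z n h τ).card : ℝ) * (τ * h * l) ^ 2 ≤ ∑ N ∈ range n, (S z N h - h * M z) ^ 2 := by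
    calc ((exc z n h τ).card : ℝ) * (τ * h * l) ^ 2 = ∑ N ∈ exc z n h τ, (τ * h * l) ^ 2 := by
          rw [Finset.sum_const, nsmul_eq_mul]
      _ ≤ ∑ N ∈ exc z n h τ, (S z N h - h * M z) ^ 2 := by
          refine Finset.sum_le_sum (fun N hN => ?_)
          unfold exc at hN
          rw [mem_filter] at hN
          rw [← sq_abs (S z N h - h * M z)]
          exact pow_le_pow_left₀ (by positivity) hN.2.le 2
      _ ≤ _ := by
          apply Finset.sum_le_sum_of_subset_of_nonneg
          · exact Finset.filter_subset _ _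
          · intro _ _ _; positivity
  have hz0 : (0:ℝ) < z := by exact_mod_cast hz1
  have hlz : Real.log z ≤ l / 2 := by
    have : Real.log ((z:ℝ) ^ 2) ≤ l := Real.log_le_log (by positivity) (by exact_mod_cast hz)
    rw [Real.log_pow] at this
    push_cast at this
    linarith
  have hlz0 : 0 ≤ Real.log z := Real.log_natCast_nonneg z
  have hl4 : Real.log 4 ≤ 1.4 := by
    have : Real.log 4 = 2 * Real.log 2 := by
      rw [show (4:ℝ) = 2 ^ 2 by norm_num, Real.log_pow]; norm_num
    rw [this]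
    have := Real.log_two_lt_d9
    linarith
  have h3 : Real.log z * (Real.log z + Real.log 4) ≤ l / 2 * l := by
    apply mul_le_mul hlz (by linarith) _ (by positivity)
    have : 0 ≤ Real.log 4 := Real.log_nonneg (by norm_num)
    positivity
  have h4 : ((exc z n h τ).card : ℝ) * (τ * h * l) ^ 2 ≤ 4 * h ^ 2 * n + 3 * n * h * (l / 2 * l) := by
    refine h2.trans (h1.trans ?_)
    have := mul_le_mul_of_nonneg_left h3 (by positivity : (0:ℝ) ≤ 3 * n * h)
    linarith
  rw [← le_div_iff₀ (by positivity)] at h4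
  refine h4.trans (le_of_eq ?_)
  field_simp

theorem dyadic {τ ε : ℝ} (hτ : 0 < τ) (hε : 0 < ε) : ∃ i₀ n₀ : ℕ, ∀ n, n₀ ≤ n → ∀ z : ℕ, z ^ 2 ≤ n →
    1 ≤ z → ∑ i ∈ Ico i₀ (Nat.log 2 n + 1), ((exc z n (2 ^ i) τ).card : ℝ) ≤ ε * n := by
  obtain ⟨i₀, hi₀⟩ := exists_nat_gt (6 / (τ ^ 2 * ε))
  have hlim : ∀ᶠ n : ℕ in Filter.atTop, max 3 (24 / (τ ^ 2 * ε)) ≤ Real.log n :=
    (Real.tendsto_log_atTop.comp tendsto_natCast_atTop_atTop).eventually_ge_atTop _
  obtain ⟨n₀, hn₀⟩ := Filter.eventually_atTop.mp hlim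
  refine ⟨i₀, n₀, fun n hn z hz hz1 => ?_⟩
  have hl := hn₀ n hn
  have hl1 : 3 ≤ Real.log n := (le_max_left _ _).trans hl
  have hl2 : 24 / (τ ^ 2 * ε) ≤ Real.log n := (le_max_right _ _).trans hl
  have hn0 : (0:ℝ) < n := by
    rcases Nat.eq_zero_or_pos n with rfl | h
    · simp at hl1; norm_num at hl1
    · exact_mod_cast h
  have hn1 : n ≠ 0 := by rintro rfl; simp at hn0
  set l := Real.log n with hl'
  have hl0 : 0 < l := by linarith
  have h1 : ∑ i ∈ Ico i₀ (Nat.log 2 n + 1), ((exc z n (2 ^ i) τ).card : ℝ) ≤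
      ∑ i ∈ Ico i₀ (Nat.log 2 n + 1), (4 * n / (τ ^ 2 * l ^ 2) + 3 * n / (2 * τ ^ 2) * (1 / 2) ^ i) := by
    refine Finset.sum_le_sum (fun i _ => ?_)
    have := card_exc_le z n (2 ^ i) hz hz1 (Nat.one_le_two_pow) hτ hl1
    refine this.trans (le_of_eq ?_)
    push_cast
    congr 1
    rw [one_div, inv_pow]
    field_simp
  refine h1.trans ?_
  rw [Finset.sum_add_distrib, Finset.sum_const, nsmul_eq_mul, ← Finset.mul_sum]
  have h2 : ((Ico i₀ (Nat.log 2 n + 1)).card : ℝ) ≤ 3 * l := by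
    rw [Nat.card_Ico]
    have e1 : ((Nat.log 2 n + 1 - i₀ : ℕ) : ℝ) ≤ (Nat.log 2 n : ℝ) + 1 := by
      have : Nat.log 2 n + 1 - i₀ ≤ Nat.log 2 n + 1 := Nat.sub_le _ _
      exact_mod_cast this
    have e2 : (Nat.log 2 n : ℝ) * Real.log 2 ≤ l := by
      rw [← Real.log_pow]
      apply Real.log_le_log (by positivity)
      exact_mod_cast Nat.pow_log_le_self 2 hn1
    have e3 := Real.log_two_gt_d9
    have e4 : (Nat.log 2 n : ℝ) ≤ 2 * l := by
      have : (0:ℝ) ≤ (Nat.log 2 n : ℝ) := Nat.cast_nonneg _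
      nlinarith
    linarith
  have h3 : ∑ i ∈ Ico i₀ (Nat.log 2 n + 1), ((1:ℝ) / 2) ^ i ≤ 2 / 2 ^ i₀ := by
    have hle : ∀ N, ∑ i ∈ Ico i₀ N, ((1:ℝ) / 2) ^ i ≤ 2 / 2 ^ i₀ := by
      intro N
      rcases le_total N i₀ with h | h
      · rw [Finset.Ico_eq_empty_of_le h, Finset.sum_empty]; positivity
      · have := geom_sum_Ico (show (1:ℝ) / 2 ≠ 1 by norm_num) h
        rw [this]
        have e1 : ((1:ℝ) / 2) ^ i₀ = 1 / 2 ^ i₀ := by rw [one_div, inv_pow, one_div]
        have e2 : (0:ℝ) < (1 / 2) ^ N := by positivity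
        rw [div_eq_mul_inv]
        rw [show ((1:ℝ) / 2 - 1)⁻¹ = -2 by norm_num]
        have e3 : (2:ℝ) / 2 ^ i₀ = 2 * (1 / 2) ^ i₀ := by rw [e1]; ring
        rw [e3]; linarith
    exact hle _
  have h4 : (3 * l) * (4 * n / (τ ^ 2 * l ^ 2)) ≤ ε / 2 * n := by
    have : (3 * l) * (4 * n / (τ ^ 2 * l ^ 2)) = 12 / (τ ^ 2 * l) * n := by field_simp; ring
    rw [this]
    apply mul_le_mul_of_nonneg_right _ hn0.le
    rw [div_le_iff₀ (by positivity)] at hl2 ⊢
    nlinarith
  have h5 : 3 * n / (2 * τ ^ 2) * (2 / 2 ^ i₀) ≤ ε / 2 * n := by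
    have e : 3 * n / (2 * τ ^ 2) * (2 / 2 ^ i₀) = (3 / (τ ^ 2 * 2 ^ i₀)) * (n:ℝ) := by field_simp
    rw [e]
    apply mul_le_mul_of_nonneg_right _ hn0.le
    have e2 : (i₀ : ℝ) < 2 ^ i₀ := by exact_mod_cast Nat.lt_two_pow_self
    have e3 : 6 / (τ ^ 2 * ε) < 2 ^ i₀ := hi₀.trans e2
    rw [div_lt_iff₀ (by positivity)] at e3
    rw [div_le_iff₀ (by positivity)]
    nlinarith
  have h6 : ((Ico i₀ (Nat.log 2 n + 1)).card : ℝ) * (4 * n / (τ ^ 2 * l ^ 2)) ≤
      (3 * l) * (4 * n / (τ ^ 2 * l ^ 2)) := mul_le_mul_of_nonneg_right h2 (by positivity)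
  have h7 : 3 * n / (2 * τ ^ 2) * ∑ i ∈ Ico i₀ (Nat.log 2 n + 1), ((1:ℝ) / 2) ^ i ≤
      3 * n / (2 * τ ^ 2) * (2 / 2 ^ i₀) := mul_le_mul_of_nonneg_left h3 (by positivity)
  linarith

end Pool.Agent.helper91.TK
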