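import Mathlib
import Pool.Agent.helper91.TK
import Pool.Agent.helper91.MaxIneq
import Pool.Agent.helper91.Cheb

/-!
# Typical integers: mass distribution of prime factors in all short windows ending at `m`
-/

open Finset
open scoped Nat

namespace Pool.Agent.helper91.D4

open Mertens (M Cpp)

/-- mass of the primes up to `z` dividing `x` -/
noncomputable def f1 (z x : ℕ) : ℝ := ∑ p ∈ Nat.primesLE z, if p ∣ x then Real.log p else 0

/-- mass of the primes in `(z, P]` dividing `x` -/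
noncomputable def f3 (z P x : ℕ) : ℝ :=
  ∑ p ∈ (Nat.primesLE P).filter (fun p => z < p), if p ∣ x then Real.log p else 0

/-- mass of the repeated primes -/
noncomputable def f4 (x : ℕ) : ℝ := Real.log x - ∑ p ∈ x.primeFactors, Real.log p

lemma f1_nonneg (z x : ℕ) : 0 ≤ f1 z x := by
  unfold f1
  refine Finset.sum_nonneg (fun p _ => ?_)
  split_ifs
  · exact Real.log_natCast_nonneg p
  · exact le_refl _

lemma f3_nonneg (z P x : ℕ) : 0 ≤ f3 z P x := by
  unfold f3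
  refine Finset.sum_nonneg (fun p _ => ?_)
  split_ifs
  · exact Real.log_natCast_nonneg p
  · exact le_refl _

lemma f4_nonneg (x : ℕ) : 0 ≤ f4 x := by
  unfold f4
  rw [Real.log_nat_eq_sum_factorization, Finsupp.sum, Nat.support_factorization, ← Finset.sum_sub_distrib]
  refine Finset.sum_nonneg (fun p hp => ?_)
  rw [Nat.mem_primeFactors] at hp
  have h1 : 1 ≤ x.factorization p := (hp.1.dvd_iff_one_le_factorization hp.2.2).mp hp.2.1
  have h2 : (1:ℝ) ≤ x.factorization p := by exact_mod_cast h1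
  have h3 : 0 ≤ Real.log (p:ℝ) := Real.log_natCast_nonneg p
  nlinarith

lemma f1_le_of_dvd {z x y : ℕ} (h : x ∣ y) : f1 z x ≤ f1 z y := by
  unfold f1
  refine Finset.sum_le_sum (fun p _ => ?_)
  by_cases h1 : p ∣ x
  · rw [if_pos h1, if_pos (h1.trans h)]
  · rw [if_neg h1]
    split_ifs
    · exact Real.log_natCast_nonneg p
    · exact le_refl _

lemma log_eq_f {z P x : ℕ} (hx : x ≠ 0) (hP : ∀ p, p.Prime → p ∣ x → p ≤ P) :
    Real.log x = f1 z x + f3 z P x + f4 x := by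
  have h1 : ∑ p ∈ x.primeFactors, Real.log (p:ℝ) = f1 z x + f3 z P x := by
    unfold f1 f3
    rw [← Finset.sum_filter, ← Finset.sum_filter, ← Finset.sum_union]
    · apply Finset.sum_congr _ (fun _ _ => rfl)
      ext p
      simp only [Nat.mem_primeFactors, mem_union, mem_filter, Nat.mem_primesLE]
      constructor
      · rintro ⟨h1, h2, h3⟩
        by_cases h4 : p ≤ z
        · exact Or.inl ⟨⟨h4, h1⟩, h2⟩
        · exact Or.inr ⟨⟨⟨hP p h1 h2, h1⟩, by omega⟩, h2⟩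
      · rintro (⟨⟨h1, h2⟩, h3⟩ | ⟨⟨⟨h1, h2⟩, h3⟩, h4⟩)
        · exact ⟨h2, h3, hx⟩
        · exact ⟨h2, h4, hx⟩
    · rw [Finset.disjoint_left]
      intro p
      simp only [mem_filter, Nat.mem_primesLE]
      rintro ⟨⟨h1, _⟩, _⟩ ⟨⟨⟨_, _⟩, h2⟩, _⟩
      omega
  unfold f4
  rw [← h1]; ring

lemma S_eq_sum_f1 (z N h : ℕ) : TK.S z N h = ∑ x ∈ Ioc N (N + h), f1 z x := by
  unfold TK.S f1 TK.c
  rw [Finset.sum_comm]
  refine Finset.sum_congr rfl (fun p _ => ?_)
  rw [← Finset.sum_filter, Finset.sum_const, nsmul_eq_mul]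
  ring

lemma sum_f3_le {z P n : ℕ} (hzP : z ≤ P) (hz : 1 ≤ z) :
    ∑ x ∈ Ioc 0 n, f3 z P x ≤ n * (Real.log P + Real.log 4 - (Real.log z - (1 + Cpp))) := by
  have hn0 : (0:ℝ) ≤ n := Nat.cast_nonneg n
  unfold f3
  rw [Finset.sum_comm]
  have h1 : ∀ p ∈ (Nat.primesLE P).filter (fun p => z < p),
      ∑ x ∈ Ioc 0 n, (if p ∣ x then Real.log (p:ℝ) else 0) ≤ n * (Real.log p / p) := by
    intro p hp
    rw [mem_filter, Nat.mem_primesLE] at hp
    have hp' := hp.1.2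
    have hp0 : (0:ℝ) < p := by exact_mod_cast hp'.pos
    rw [← Finset.sum_filter, Finset.sum_const, nsmul_eq_mul, Nat.Ioc_filter_dvd_card_eq_div]
    have h2 : ((n / p : ℕ) : ℝ) ≤ n / p := Nat.cast_div_le
    have h3 : 0 ≤ Real.log (p:ℝ) := Real.log_natCast_nonneg p
    calc ((n / p : ℕ) : ℝ) * Real.log p ≤ (n / p) * Real.log p := mul_le_mul_of_nonneg_right h2 h3
      _ = _ := by ring
  refine (Finset.sum_le_sum h1).trans ?_
  rw [← Finset.mul_sum]
  apply mul_le_mul_of_nonneg_left _ hn0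
  have h4 : ∑ p ∈ (Nat.primesLE P).filter (fun p => z < p), Real.log (p:ℝ) / p = M P - M z := by
    unfold Mertens.M
    rw [← Finset.sum_filter_add_sum_filter_not (Nat.primesLE P) (fun p => z < p)]
    have : (Nat.primesLE P).filter (fun p => ¬ z < p) = Nat.primesLE z := by
      ext p
      simp only [mem_filter, Nat.mem_primesLE, not_lt]
      constructor
      · rintro ⟨⟨h1, h2⟩, h3⟩; exact ⟨h3, h2⟩
      · rintro ⟨h1, h2⟩; exact ⟨⟨by omega, h2⟩, h1⟩
    rw [this]; ring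
  rw [h4]
  have h5 := Mertens.upper (by omega : 1 ≤ P)
  have h6 := Mertens.lower hz
  linarith

lemma sum_f4_le (n : ℕ) : ∑ x ∈ Ioc 0 n, f4 x ≤ (Cpp + 1.4) * n := by
  unfold f4
  rw [Finset.sum_sub_distrib]
  have h1 : ∑ x ∈ Ioc 0 n, Real.log (x:ℝ) = Real.log (n ! : ℝ) := by
    induction n with
    | zero => simp
    | succ n ih =>
      rw [← Finset.insert_Ioc_right_eq_Ioc_add_one (Nat.zero_le _), Finset.sum_insert (by simp), ih,
        Nat.factorial_succ]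
      push_cast
      rw [Real.log_mul (by positivity) (by positivity)]
  have h2 : ∑ x ∈ Ioc 0 n, ∑ p ∈ x.primeFactors, Real.log (p:ℝ) =
      ∑ p ∈ Nat.primesLE n, Real.log p * ((n / p : ℕ) : ℝ) := by
    have h3 : ∀ x ∈ Ioc 0 n, ∑ p ∈ x.primeFactors, Real.log (p:ℝ) =
        ∑ p ∈ Nat.primesLE n, if p ∣ x then Real.log (p:ℝ) else 0 := by
      intro x hx
      rw [mem_Ioc] at hx
      rw [← Finset.sum_filter]
      apply Finset.sum_congr _ (fun _ _ => rfl)
      ext p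
      simp only [Nat.mem_primeFactors, mem_filter, Nat.mem_primesLE]
      constructor
      · rintro ⟨h1, h2, h3⟩
        exact ⟨⟨(Nat.le_of_dvd hx.1 h2).trans hx.2, h1⟩, h2⟩
      · rintro ⟨⟨h1, h2⟩, h3⟩
        exact ⟨h2, h3, by omega⟩
    rw [Finset.sum_congr rfl h3, Finset.sum_comm]
    refine Finset.sum_congr rfl (fun p _ => ?_)
    rw [← Finset.sum_filter, Finset.sum_const, nsmul_eq_mul, Nat.Ioc_filter_dvd_card_eq_div]
    ring
  rw [h1, h2, Mertens.log_factorial_eq, ← Finset.sum_sub_distrib]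
  have h3 : ∀ p ∈ Nat.primesLE n, ((n !).factorization p : ℝ) * Real.log p - Real.log p * ((n / p : ℕ) : ℝ) ≤
      n * (Real.log p / (p * (p - 1))) + Real.log p := by
    intro p hp
    have hp' := Nat.prime_of_mem_primesLE hp
    have hp1 : (1:ℝ) < p := by exact_mod_cast hp'.one_lt
    have hp0 : (0:ℝ) < p := by linarith
    have hlog : 0 ≤ Real.log (p:ℝ) := Real.log_natCast_nonneg p
    have e1 := Mertens.factorization_le hp' n
    have e2 : (n:ℝ) / p - 1 ≤ ((n / p : ℕ) : ℝ) := by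
      have := Nat.lt_floor_add_one ((n:ℝ) / p)
      rw [Nat.floor_div_eq_div] at this
      linarith
    have e3 : ((n !).factorization p : ℝ) - ((n / p : ℕ) : ℝ) ≤ n * (1 / (p * (p - 1))) + 1 := by
      have : (n:ℝ) * (1 / (p * (p - 1))) = n / (p - 1) - n / p := by
        have : (p:ℝ) - 1 ≠ 0 := by linarith
        field_simp
        ring
      linarith
    have e4 := mul_le_mul_of_nonneg_left e3 hlog
    calc _ = Real.log p * (((n !).factorization p : ℝ) - ((n / p : ℕ) : ℝ)) := by ring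
      _ ≤ _ := e4
      _ = _ := by ring
  refine (Finset.sum_le_sum h3).trans ?_
  rw [Finset.sum_add_distrib, ← Finset.mul_sum, ← Chebyshev.theta_eq_sum_primesLE_log]
  have h4 := Mertens.sum_pp_le n
  have hn0 : (0:ℝ) ≤ n := Nat.cast_nonneg n
  have h5 : Chebyshev.theta n ≤ Real.log 4 * n := Chebyshev.theta_le_log4_mul_x hn0
  have h6 := Cheb.log_four_le
  have h7 := mul_le_mul_of_nonneg_left h4 hn0
  have h8 := mul_le_mul_of_nonneg_right h6 hn0
  linarith

/-- typical integers -/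
structure Typ (n z P i₀ : ℕ) (τ : ℝ) (m : ℕ) : Prop where
  t1 : ∀ i, i₀ ≤ i → 2 ^ i ≤ m → |TK.S z (m - 2 ^ i) (2 ^ i) - ((2 ^ i : ℕ) : ℝ) * M z| ≤ τ * ((2 ^ i : ℕ) : ℝ) * Real.log n
  t2 : ∀ i, i₀ ≤ i → 2 ^ i ≤ m / 2 → |TK.S z (m / 2 - 2 ^ i) (2 ^ i) - ((2 ^ i : ℕ) : ℝ) * M z| ≤ τ * ((2 ^ i : ℕ) : ℝ) * Real.log n
  t3 : ∀ h, 1 ≤ h → h ≤ m → ∑ x ∈ Ioc (m - h) m, f3 z P x ≤ τ * Real.log n * h
  t4 : ∀ h, 1 ≤ h → h ≤ m → ∑ x ∈ Ioc (m - h) m, f4 x ≤ τ * Real.log n * h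

lemma not_typ_subset {n z P i₀ : ℕ} {τ : ℝ} (m : ℕ) (hm : m ∈ Ioc 0 n) (h : ¬ Typ n z P i₀ τ m) :
    m ∈ (((Ico i₀ (Nat.log 2 n + 1)).biUnion (fun i => (TK.exc z n (2 ^ i) τ).image (fun N => N + 2 ^ i))) ∪
      ((Ico i₀ (Nat.log 2 n + 1)).biUnion (fun i => (TK.exc z n (2 ^ i) τ).image (fun N => 2 * (N + 2 ^ i))) ∪
      (Ico i₀ (Nat.log 2 n + 1)).biUnion (fun i => (TK.exc z n (2 ^ i) τ).image (fun N => 2 * (N + 2 ^ i) + 1)))) ∪
      (MaxIneq.badSet (f3 z P) (τ * Real.log n) n ∪ MaxIneq.badSet f4 (τ * Real.log n) n) := by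
  by_contra hcon
  apply h
  rw [mem_Ioc] at hm
  simp only [mem_union, mem_biUnion, mem_image, mem_Ico, not_or, not_exists, not_and, MaxIneq.mem_badSet, not_lt] at hcon
  obtain ⟨⟨c1, c2, c3⟩, c4, c5⟩ := hcon
  have hexc : ∀ i N, N ∉ TK.exc z n (2 ^ i) τ → N < n →
      |TK.S z N (2 ^ i) - ((2 ^ i : ℕ) : ℝ) * M z| ≤ τ * ((2 ^ i : ℕ) : ℝ) * Real.log n := by
    intro i N h1 h2
    unfold TK.exc at h1
    rw [mem_filter, mem_range, not_and, not_lt] at h1
    exact h1 h2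
  have hlogle : ∀ i, 2 ^ i ≤ n → i < Nat.log 2 n + 1 := by
    intro i hi
    exact Nat.lt_succ_of_le (Nat.le_log_of_pow_le (by norm_num) hi)
  refine ⟨?_, ?_, ?_, ?_⟩
  · intro i hi hle
    have hpos := Nat.one_le_two_pow (n := i)
    apply hexc i _ _ (by omega)
    intro hN
    exact c1 i ⟨hi, hlogle i (by omega)⟩ (m - 2 ^ i) hN (by omega)
  · intro i hi hle
    have hpos := Nat.one_le_two_pow (n := i)
    apply hexc i _ _ (by omega)
    intro hN
    rcases Nat.even_or_odd' m with ⟨r, hr | hr⟩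
    · exact c2 i ⟨hi, hlogle i (by omega)⟩ (m / 2 - 2 ^ i) hN (by omega)
    · exact c3 i ⟨hi, hlogle i (by omega)⟩ (m / 2 - 2 ^ i) hN (by omega)
  · intro h h1 h2
    exact c4 hm h h1 h2
  · intro h h1 h2
    exact c5 hm h h1 h2

open Classical in
theorem typ_count {ε τ : ℝ} (hε : 0 < ε) (hτ : 0 < τ) : ∃ δ : ℝ, 0 < δ ∧ δ ≤ 1 / 100 ∧ ∃ i₀ n₀ : ℕ, ∀ n : ℕ, n₀ ≤ n →
    (((Ioc 0 n).filter (fun m => ¬ Typ n (Nat.sqrt n) ⌊(n:ℝ) ^ (1 / 2 + 2 * δ)⌋₊ i₀ τ m)).card : ℝ) ≤ ε * n := by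
  obtain ⟨i₀, n₁, hn₁⟩ := TK.dyadic hτ (show 0 < ε / 12 by positivity)
  set δ : ℝ := min (1 / 100) (ε * τ / 16) with hδ
  have hδ0 : 0 < δ := by rw [hδ]; positivity
  have hδ1 : δ ≤ ε * τ / 16 := min_le_right _ _
  set K : ℝ := Cpp + 5 with hK
  have hCpp := Mertens.Cpp_nonneg
  have hlim : ∀ᶠ n : ℕ in Filter.atTop, max 1 (8 * K / (τ * ε)) ≤ Real.log n :=
    (Real.tendsto_log_atTop.comp tendsto_natCast_atTop_atTop).eventually_ge_atTop _
  obtain ⟨n₂, hn₂⟩ := Filter.eventually_atTop.mp hlim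
  refine ⟨δ, hδ0, min_le_left _ _, i₀, n₁ + n₂ + 1, fun n hn => ?_⟩
  set z := Nat.sqrt n with hz
  set P := ⌊(n:ℝ) ^ (1 / 2 + 2 * δ)⌋₊ with hP
  have hn0 : 0 < n := by omega
  have hn0R : (0:ℝ) < n := by exact_mod_cast hn0
  have hn1R : (1:ℝ) ≤ n := by exact_mod_cast hn0
  have hl := hn₂ n (by omega)
  have hl1 : 1 ≤ Real.log n := (le_max_left _ _).trans hl
  have hl2 : 8 * K / (τ * ε) ≤ Real.log n := (le_max_right _ _).trans hl
  rw [div_le_iff₀ (by positivity)] at hl2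
  have hz1 : 1 ≤ z := by rw [hz, Nat.le_sqrt']; omega
  have hz2 : z ^ 2 ≤ n := Nat.sqrt_le' n
  have hzR : (z:ℝ) ≤ (n:ℝ) ^ (1 / 2 + 2 * δ) := by
    calc (z:ℝ) ≤ √(n:ℝ) := by apply Real.le_sqrt_of_sq_le; exact_mod_cast hz2
      _ = (n:ℝ) ^ ((1:ℝ) / 2) := Real.sqrt_eq_rpow _
      _ ≤ _ := Real.rpow_le_rpow_of_exponent_le hn1R (by linarith)
  have hzP : z ≤ P := Nat.le_floor hzR
  have hlogP : Real.log P ≤ (1 / 2 + 2 * δ) * Real.log n := by
    rw [← Real.log_rpow hn0R]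
    apply Real.log_le_log (by exact_mod_cast (by omega : 0 < P))
    exact Nat.floor_le (by positivity)
  have hlogz : 1 / 2 * Real.log n - Real.log 2 ≤ Real.log z := by
    have h1 : n < (z + 1) ^ 2 := by
      have := Nat.lt_succ_sqrt' n
      exact this
    have h2 : (n:ℝ) ≤ (2 * z) ^ 2 := by
      have : n ≤ (2 * z) ^ 2 := by nlinarith
      exact_mod_cast this
    have h3 := Real.log_le_log hn0R h2
    have hz0 : (0:ℝ) < z := by exact_mod_cast hz1
    rw [Real.log_pow, Real.log_mul (by norm_num) hz0.ne'] at h3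
    push_cast at h3
    linarith
  have hexc := hn₁ n (by omega) z hz2 hz1
  -- bad sets
  have hb3 := MaxIneq.maximal (f3 z P) (f3_nonneg z P) (l := τ * Real.log n) (by positivity) n
  have hb4 := MaxIneq.maximal f4 f4_nonneg (l := τ * Real.log n) (by positivity) n
  have hs3 := sum_f3_le (n := n) hzP hz1
  have hs4 := sum_f4_le n
  have h4 := Cheb.log_four_le
  have hl2' := Real.log_two_lt_d9
  have hτl : 0 < τ * Real.log n := by positivity
  have hB3 : ((MaxIneq.badSet (f3 z P) (τ * Real.log n) n).card : ℝ) ≤ ε / 4 * n := by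
    have h5 : ((MaxIneq.badSet (f3 z P) (τ * Real.log n) n).card : ℝ) * (τ * Real.log n) ≤ n * (2 * δ * Real.log n + K) := by
      refine (hb3.trans hs3).trans ?_
      apply mul_le_mul_of_nonneg_left _ hn0R.le
      rw [hK]; linarith
    have h6 : 2 * δ * Real.log n ≤ ε / 8 * (τ * Real.log n) := by nlinarith
    have h7 : K ≤ ε / 8 * (τ * Real.log n) := by linarith
    have h8 : ((MaxIneq.badSet (f3 z P) (τ * Real.log n) n).card : ℝ) * (τ * Real.log n) ≤ (ε / 4 * n) * (τ * Real.log n) := by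
      refine h5.trans ?_
      calc (n:ℝ) * (2 * δ * Real.log n + K) ≤ n * (ε / 8 * (τ * Real.log n) + ε / 8 * (τ * Real.log n)) :=
            mul_le_mul_of_nonneg_left (by linarith) hn0R.le
        _ = _ := by ring
    exact le_of_mul_le_mul_right h8 hτl
  have hB4 : ((MaxIneq.badSet f4 (τ * Real.log n) n).card : ℝ) ≤ ε / 4 * n := by
    have h7 : K ≤ ε / 8 * (τ * Real.log n) := by linarith
    have h8 : ((MaxIneq.badSet f4 (τ * Real.log n) n).card : ℝ) * (τ * Real.log n) ≤ (ε / 4 * n) * (τ * Real.log n) := by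
      refine (hb4.trans hs4).trans ?_
      calc (Cpp + 1.4) * (n:ℝ) ≤ (ε / 4 * (τ * Real.log n)) * n :=
            mul_le_mul_of_nonneg_right (by nlinarith) hn0R.le
        _ = _ := by ring
    exact le_of_mul_le_mul_right h8 hτl
  have hcard : ∀ f : ℕ → ℕ → ℕ, ((((Ico i₀ (Nat.log 2 n + 1)).biUnion (fun i => (TK.exc z n (2 ^ i) τ).image (f i))).card : ℕ) : ℝ) ≤ ε / 12 * n := by
    intro f
    refine le_trans ?_ hexc
    have : ((Ico i₀ (Nat.log 2 n + 1)).biUnion (fun i => (TK.exc z n (2 ^ i) τ).image (f i))).card ≤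
      ∑ i ∈ Ico i₀ (Nat.log 2 n + 1), (TK.exc z n (2 ^ i) τ).card :=
      (Finset.card_biUnion_le).trans (Finset.sum_le_sum (fun i _ => Finset.card_image_le))
    exact_mod_cast this
  have hc1 := hcard (fun i N => N + 2 ^ i)
  have hc2 := hcard (fun i N => 2 * (N + 2 ^ i))
  have hc3 := hcard (fun i N => 2 * (N + 2 ^ i) + 1)
  have hsub : (Ioc 0 n).filter (fun m => ¬ Typ n z P i₀ τ m) ⊆
      (((Ico i₀ (Nat.log 2 n + 1)).biUnion (fun i => (TK.exc z n (2 ^ i) τ).image (fun N => N + 2 ^ i))) ∪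
      ((Ico i₀ (Nat.log 2 n + 1)).biUnion (fun i => (TK.exc z n (2 ^ i) τ).image (fun N => 2 * (N + 2 ^ i))) ∪
      (Ico i₀ (Nat.log 2 n + 1)).biUnion (fun i => (TK.exc z n (2 ^ i) τ).image (fun N => 2 * (N + 2 ^ i) + 1)))) ∪
      (MaxIneq.badSet (f3 z P) (τ * Real.log n) n ∪ MaxIneq.badSet f4 (τ * Real.log n) n) := by
    intro m hm
    rw [mem_filter] at hm
    exact not_typ_subset m hm.1 hm.2
  have hfin := (Finset.card_le_card hsub).trans ((Finset.card_union_le _ _).trans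
    (add_le_add ((Finset.card_union_le _ _).trans (add_le_add (le_refl _) (Finset.card_union_le _ _))) (Finset.card_union_le _ _)))
  have hfin' := (Nat.cast_le (α := ℝ)).mpr hfin
  push_cast at hfin'
  linarith

end Pool.Agent.helper91.D4
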