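import Mathlib
import Pool.Agent.helper91.Typical
import Pool.Agent.helper91.CaseIII

/-!
# Blocks of intermediate length: no solutions at typical `m`
-/

open Finset
open scoped Nat

namespace Pool.Agent.helper91.D4

open Mertens (M Cpp)

open Classical in
/-- number of non-aligned members of a terminal segment of the upper block -/
lemma nonaligned_count {a h N h' L us P U : ℕ} (haN : a ≤ N) (hN : N + h' = a + h)
    (hus : ∀ v : ℕ, (((Icc 1 v).filter (Non a h L us)).card : ℝ) ≤ 16 * (L / ((a + h : ℕ) : ℝ)) * v ^ 2)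
    (hLP : L ≤ P) (hP2 : a + h < (P + 1) ^ 2) (hPU : a + h < (P + 1) * (U + 1)) :
    (((Ioc N (N + h')).filter (fun x => ¬ us ∣ x ∧ ∃ p, p.Prime ∧ P < p ∧ p ∣ x)).card : ℝ) ≤
      h' * (2 * (16 * (L / ((a + h : ℕ) : ℝ))) * U) + 16 * (L / ((a + h : ℕ) : ℝ)) * U ^ 2 := by
  set G := (Ioc N (N + h')).filter (fun x => ¬ us ∣ x ∧ ∃ p, p.Prime ∧ P < p ∧ p ∣ x) with hG
  set NU := (Icc 1 U).filter (Non a h L us) with hNU
  have hsub : G ⊆ NU.biUnion (fun u => (Ioc N (N + h')).filter (fun x => u ∣ x)) := by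
    intro x hx
    rw [hG, mem_filter] at hx
    obtain ⟨hx1, hx2, p, hp, hPp, u, hu⟩ := hx
    rw [mem_biUnion]
    have hx1' := mem_Ioc.mp hx1
    have hu1 : 1 ≤ u := by
      rcases Nat.eq_zero_or_pos u with h0 | h0
      · rw [h0] at hu; omega
      · exact h0
    refine ⟨u, ?_, ?_⟩
    · rw [hNU, mem_filter, mem_Icc]
      refine ⟨⟨hu1, ?_⟩, p, hp, by omega, ?_, ?_, ?_⟩
      · by_contra hlt
        push Not at hlt
        have h1 : (P + 1) * (U + 1) ≤ p * u := Nat.mul_le_mul hPp hlt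
        omega
      · have : (P + 1) ^ 2 ≤ p ^ 2 := Nat.pow_le_pow_left hPp 2
        omega
      · rw [mem_Ioc, ← hu]; omega
      · rw [← hu]; exact hx2
    · rw [mem_filter]
      exact ⟨hx1, ⟨p, by rw [hu]; ring⟩⟩
  have h1 : (G.card : ℝ) ≤ ∑ u ∈ NU, ((h':ℝ) * (1 / u) + 1) := by
    have e1 : G.card ≤ ∑ u ∈ NU, ((Ioc N (N + h')).filter (fun x => u ∣ x)).card :=
      (Finset.card_le_card hsub).trans Finset.card_biUnion_le
    have e2 : (G.card : ℝ) ≤ ∑ u ∈ NU, (((Ioc N (N + h')).filter (fun x => u ∣ x)).card : ℝ) := by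
      exact_mod_cast e1
    refine e2.trans (Finset.sum_le_sum (fun u hu => ?_))
    rw [hNU, mem_filter, mem_Icc] at hu
    have := BT.count_dvd N h' u (by omega)
    rw [abs_le] at this
    have e3 : (h':ℝ) * (1 / u) = h' / u := by ring
    rw [e3]; linarith [this.2]
  rw [Finset.sum_add_distrib, ← Finset.mul_sum, Finset.sum_const, nsmul_eq_mul, mul_one] at h1
  have h2 := sum_inv_of_card (P := Non a h L us) (A := 16 * (L / ((a + h : ℕ) : ℝ))) (by positivity) (by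
      intro v; convert hus v) U
  have h3 := hus U
  have h4 := mul_le_mul_of_nonneg_left h2 (Nat.cast_nonneg h' : (0:ℝ) ≤ h')
  have h5 : ∑ u ∈ NU, (1:ℝ) / u ≤ 2 * (16 * (L / ((a + h : ℕ) : ℝ))) * U := by rw [hNU]; convert h2
  have h6 := mul_le_mul_of_nonneg_left h5 (Nat.cast_nonneg h' : (0:ℝ) ≤ h')
  linarith

/-- the total mass on a set of integers all whose prime factors are at most `P` -/
lemma sum_log_le_mass {z P : ℕ} (B I : Finset ℕ) (hBI : B ⊆ I) (hB : ∀ x ∈ B, x ≠ 0 ∧ ∀ p, p.Prime → p ∣ x → p ≤ P) :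
    ∑ x ∈ B, Real.log (x:ℝ) ≤ ∑ x ∈ B, f1 z x + ∑ x ∈ I, f3 z P x + ∑ x ∈ I, f4 x := by
  have h1 : ∑ x ∈ B, Real.log (x:ℝ) = ∑ x ∈ B, f1 z x + ∑ x ∈ B, f3 z P x + ∑ x ∈ B, f4 x := by
    rw [← Finset.sum_add_distrib, ← Finset.sum_add_distrib]
    exact Finset.sum_congr rfl (fun x hx => log_eq_f (hB x hx).1 (hB x hx).2)
  rw [h1]
  have h2 : ∑ x ∈ B, f3 z P x ≤ ∑ x ∈ I, f3 z P x :=
    Finset.sum_le_sum_of_subset_of_nonneg hBI (fun x _ _ => f3_nonneg z P x)
  have h3 : ∑ x ∈ B, f4 x ≤ ∑ x ∈ I, f4 x :=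
    Finset.sum_le_sum_of_subset_of_nonneg hBI (fun x _ _ => f4_nonneg x)
  linarith

/-- even members carry half of the mass -/
lemma even_mass {z m h' : ℕ} (hh' : 2 * h' ≤ m) :
    TK.S z (m / 2 - h') h' ≤ ∑ x ∈ (Ioc (m - 2 * h') m).filter (fun x => 2 ∣ x), f1 z x := by
  rw [S_eq_sum_f1]
  calc ∑ x ∈ Ioc (m / 2 - h') (m / 2 - h' + h'), f1 z x
      ≤ ∑ x ∈ Ioc (m / 2 - h') (m / 2 - h' + h'), f1 z (2 * x) :=
        Finset.sum_le_sum (fun x _ => f1_le_of_dvd (dvd_mul_left x 2))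
    _ = ∑ y ∈ (Ioc (m / 2 - h') (m / 2 - h' + h')).image (fun x => 2 * x), f1 z y := by
        rw [Finset.sum_image]
        intro x _ y _ hxy
        simp only at hxy
        omega
    _ ≤ _ := by
        apply Finset.sum_le_sum_of_subset_of_nonneg
        · intro y hy
          rw [mem_image] at hy
          obtain ⟨x, hx, rfl⟩ := hy
          rw [mem_Ioc] at hx
          rw [mem_filter, mem_Ioc]
          refine ⟨⟨by omega, by omega⟩, dvd_mul_right 2 x⟩
        · intro x _ _; exact f1_nonneg z x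

lemma tendsto_aux {δ ε C : ℝ} (hδ : 0 < δ) (hε : 0 < ε) (hC : 0 < C) : ∃ n₀ : ℕ, ∀ n : ℕ, n₀ ≤ n →
    32 / ε * (n:ℝ) ^ (-δ) + 32 * C / ε * (1 + Real.log n) * (n:ℝ) ^ (-(4 * δ)) ≤ 1 / 100 := by
  have h1 : Filter.Tendsto (fun n : ℕ => (n:ℝ) ^ (-δ)) Filter.atTop (nhds 0) :=
    (tendsto_rpow_neg_atTop hδ).comp tendsto_natCast_atTop_atTop
  have h2 : Filter.Tendsto (fun n : ℕ => (1 + Real.log n) * (n:ℝ) ^ (-(4 * δ))) Filter.atTop (nhds 0) := by
    have h3 : Filter.Tendsto (fun n : ℕ => (n:ℝ) ^ (-(4 * δ))) Filter.atTop (nhds 0) :=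
      (tendsto_rpow_neg_atTop (by positivity)).comp tendsto_natCast_atTop_atTop
    have h4 : Filter.Tendsto (fun x : ℝ => Real.log x * x ^ (-(4 * δ))) Filter.atTop (nhds 0) := by
      have h5 := (isLittleO_log_rpow_atTop (show (0:ℝ) < 4 * δ by positivity)).tendsto_div_nhds_zero
      refine h5.congr' ?_
      filter_upwards [Filter.eventually_gt_atTop (0:ℝ)] with x hx
      rw [Real.rpow_neg hx.le]
      ring
    have h6 := h4.comp (tendsto_natCast_atTop_atTop (R := ℝ))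
    have h7 := h3.add h6
    rw [add_zero] at h7
    refine h7.congr (fun n => ?_)
    simp only [Function.comp]
    ring
  have h3 : Filter.Tendsto (fun n : ℕ => 32 / ε * (n:ℝ) ^ (-δ) + 32 * C / ε * ((1 + Real.log n) * (n:ℝ) ^ (-(4 * δ))))
      Filter.atTop (nhds 0) := by
    have := (h1.const_mul (32 / ε)).add (h2.const_mul (32 * C / ε))
    simpa using this
  have h4 := h3.eventually (gt_mem_nhds (show (0:ℝ) < 1 / 100 by norm_num))
  obtain ⟨n₀, hn₀⟩ := Filter.eventually_atTop.mp h4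
  refine ⟨n₀, fun n hn => ?_⟩
  have := hn₀ n hn
  have e : 32 * C / ε * (1 + Real.log n) * (n:ℝ) ^ (-(4 * δ)) = 32 * C / ε * ((1 + Real.log n) * (n:ℝ) ^ (-(4 * δ))) := by ring
  rw [e]
  exact le_of_lt this

/-- **Case II**, deterministic part. -/
theorem caseII_det {ε δ : ℝ} (hε : 0 < ε) (hε1 : ε ≤ 1) (hδ : 0 < δ) (hδ1 : δ ≤ 1 / 100) :
    ∃ n₀ : ℕ, ∀ n i₀ m : ℕ, n₀ ≤ n → Typ n (Nat.sqrt n) ⌊(n:ℝ) ^ (1 / 2 + 2 * δ)⌋₊ i₀ (1 / 100) m →
      ε * n < m → m ≤ n → ∀ a h b k, a + h = m → Sol a h b k → 2 ^ (i₀ + 10) ≤ h →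
      ((max h k : ℕ) : ℝ) ≤ (n:ℝ) ^ (1 / 2 + δ) → False := by
  classical
  obtain ⟨C, hC1, hcmp⟩ := cmp
  have hC0 : (0:ℝ) < C := by linarith
  obtain ⟨n₁, hn₁⟩ := tendsto_aux hδ hε hC0
  set K : ℝ := Real.log (2 / ε) with hK
  have hK0 : 0 ≤ K := Real.log_nonneg (by rw [le_div_iff₀ hε]; linarith)
  have hlim : ∀ᶠ n : ℕ in Filter.atTop, 12 + 6 * K ≤ Real.log n :=
    (Real.tendsto_log_atTop.comp tendsto_natCast_atTop_atTop).eventually_ge_atTop _
  obtain ⟨n₂, hn₂⟩ := Filter.eventually_atTop.mp hlim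
  refine ⟨n₁ + n₂ + 1, fun n i₀ m hn ht hεm hmn a h b k hahm hs hih hLn => ?_⟩
  set z := Nat.sqrt n with hz
  set P := ⌊(n:ℝ) ^ (1 / 2 + 2 * δ)⌋₊ with hP
  set U := ⌊(n:ℝ) ^ (1 / 2 - 2 * δ)⌋₊ with hU
  set L := max h k with hL
  have hn0 : (0:ℝ) < n := by exact_mod_cast (by omega : 0 < n)
  have hn1 : (1:ℝ) ≤ n := by exact_mod_cast (by omega : 1 ≤ n)
  have hl := hn₂ n (by omega)
  have haux := hn₁ n (by omega)
  set l := Real.log n with hlog
  have hm0 : (0:ℝ) < m := lt_of_le_of_lt (by positivity) hεm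
  -- the dyadic length
  set i := Nat.log 2 h with hi
  have hh1 : 1 ≤ h := hs.1
  have hi1 : 2 ^ i ≤ h := Nat.pow_log_le_self 2 (by omega)
  have hi2 : h < 2 ^ (i + 1) := Nat.lt_pow_succ_log_self (by norm_num) h
  have hi0 : i₀ + 10 ≤ i := Nat.le_log_of_pow_le (by norm_num) hih
  set h' := 2 ^ i with hh'
  have hi2' : h < 2 * h' := by rw [hh', ← pow_succ']; exact hi2
  obtain ⟨j, hj⟩ : ∃ j, i = j + 1 := ⟨i - 1, by omega⟩
  have hh'j : h' = 2 * 2 ^ j := by rw [hh', hj, pow_succ']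
  have hh'512 : 512 ≤ h' := by
    rw [hh']
    calc 512 = 2 ^ 9 := by norm_num
      _ ≤ 2 ^ i := Nat.pow_le_pow_right (by norm_num) (by omega)
  have hh'R : (512:ℝ) ≤ h' := by exact_mod_cast hh'512
  have hh'0 : (0:ℝ) < h' := by linarith
  have hha : h ≤ a := hs.two_mul_le (by omega)
  have hh'm : h' ≤ m := by omega
  -- alignment
  have hhL : h ≤ L := le_max_left _ _
  have hkL : k ≤ L := le_max_right _ _
  obtain ⟨us, hus2, hus⟩ := hs.align hhL hkL hha
  -- parameters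
  have hPgt : (n:ℝ) ^ (1 / 2 + 2 * δ) < (P:ℝ) + 1 := Nat.lt_floor_add_one _
  have hUgt : (n:ℝ) ^ (1 / 2 - 2 * δ) < (U:ℝ) + 1 := Nat.lt_floor_add_one _
  have hUle : (U:ℝ) ≤ (n:ℝ) ^ (1 / 2 - 2 * δ) := Nat.floor_le (by positivity)
  have hLP : L ≤ P := by
    apply Nat.le_floor
    refine hLn.trans ?_
    exact Real.rpow_le_rpow_of_exponent_le hn1 (by linarith)
  have hmR : (m:ℝ) ≤ n := by exact_mod_cast hmn
  have hP2 : a + h < (P + 1) ^ 2 := by
    have h1 : (n:ℝ) < ((P:ℝ) + 1) ^ 2 := by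
      calc (n:ℝ) ≤ ((n:ℝ) ^ (1 / 2 + 2 * δ)) ^ 2 := by
            rw [← Real.rpow_natCast, ← Real.rpow_mul hn0.le]
            calc (n:ℝ) = (n:ℝ) ^ (1:ℝ) := (Real.rpow_one _).symm
              _ ≤ _ := Real.rpow_le_rpow_of_exponent_le hn1 (by push_cast; linarith)
        _ < _ := by
            apply pow_lt_pow_left₀ hPgt (by positivity) (by norm_num)
    have h2 : ((a + h : ℕ) : ℝ) < (((P + 1) ^ 2 : ℕ) : ℝ) := by
      rw [hahm]; push_cast; linarith
    exact_mod_cast h2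
  have hPU : a + h < (P + 1) * (U + 1) := by
    have h1 : (n:ℝ) < ((P:ℝ) + 1) * ((U:ℝ) + 1) := by
      calc (n:ℝ) = (n:ℝ) ^ (1 / 2 + 2 * δ) * (n:ℝ) ^ (1 / 2 - 2 * δ) := by
            rw [← Real.rpow_add hn0]
            have : (1 / 2 + 2 * δ) + (1 / 2 - 2 * δ) = (1:ℝ) := by ring
            rw [this, Real.rpow_one]
        _ < _ := mul_lt_mul'' hPgt hUgt (by positivity) (by positivity)
    have h2 : ((a + h : ℕ) : ℝ) < (((P + 1) * (U + 1) : ℕ) : ℝ) := by
      rw [hahm]; push_cast; linarith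
    exact_mod_cast h2
  set N := m - h' with hN
  have hNm : N + h' = m := by omega
  have hnon := nonaligned_count (a := a) (h := h) (N := N) (h' := h') (L := L) (us := us) (P := P) (U := U)
    (by omega) (by omega) hus hLP hP2 hPU
  rw [hahm] at hnon
  set G := (Ioc N (N + h')).filter (fun x => ¬ us ∣ x ∧ ∃ p, p.Prime ∧ P < p ∧ p ∣ x) with hG
  have hGcard : (G.card : ℝ) ≤ h' / 100 := by
    have hLm : (L:ℝ) / m ≤ (n:ℝ) ^ (1 / 2 + δ) / (ε * n) := by
      apply div_le_div₀ (by positivity) hLn (by positivity) hεm.le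
    have h1 : (L:ℝ) / m * U ≤ 1 / ε * (n:ℝ) ^ (-δ) := by
      calc (L:ℝ) / m * U ≤ (n:ℝ) ^ (1 / 2 + δ) / (ε * n) * (n:ℝ) ^ (1 / 2 - 2 * δ) :=
            mul_le_mul hLm hUle (by positivity) (by positivity)
        _ = 1 / ε * ((n:ℝ) ^ (1 / 2 + δ) * (n:ℝ) ^ (1 / 2 - 2 * δ) / n) := by field_simp
        _ = 1 / ε * (n:ℝ) ^ (-δ) := by
            congr 1
            rw [← Real.rpow_add hn0, ← Real.rpow_sub_one hn0.ne']
            congr 1; ring
    have hLC : (L:ℝ) ≤ C * (2 * h') * (1 + l) := by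
      have hk1 := hcmp a h b k hs
      rw [hahm] at hk1
      have hh0 : (0:ℝ) < h := by exact_mod_cast hh1
      have h3 : Real.log ((m:ℝ) / h) ≤ l := by
        apply Real.log_le_log (by positivity)
        rw [div_le_iff₀ hh0]
        have : (1:ℝ) ≤ h := by exact_mod_cast hh1
        nlinarith
      have hhR : (h:ℝ) ≤ 2 * h' := by exact_mod_cast hi2'.le
      have hk2 : (k:ℝ) ≤ C * (2 * h') * (1 + l) := by
        refine hk1.trans ?_
        apply mul_le_mul (mul_le_mul_of_nonneg_left hhR hC0.le) (by linarith) _ (by positivity)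
        have : 0 ≤ Real.log ((m:ℝ) / h) := Real.log_nonneg (by
          rw [le_div_iff₀ hh0]
          have : (h:ℝ) ≤ m := by exact_mod_cast (by omega : h ≤ m)
          linarith)
        linarith
      rw [hL]; push_cast
      apply max_le _ hk2
      have : (2 * (h':ℝ)) ≤ C * (2 * h') * (1 + l) := by
        have e1 : (1:ℝ) ≤ C * (1 + l) := by nlinarith
        nlinarith
      linarith
    have h2 : (L:ℝ) / m * U ^ 2 ≤ h' * (2 * C / ε * (1 + l) * (n:ℝ) ^ (-(4 * δ))) := by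
      have e1 : (L:ℝ) / m ≤ C * (2 * h') * (1 + l) / (ε * n) :=
        div_le_div₀ (by positivity) hLC (by positivity) hεm.le
      have e2 : (U:ℝ) ^ 2 ≤ (n:ℝ) ^ (1 - 4 * δ) := by
        calc (U:ℝ) ^ 2 ≤ ((n:ℝ) ^ (1 / 2 - 2 * δ)) ^ 2 := pow_le_pow_left₀ (by positivity) hUle 2
          _ = _ := by
            rw [← Real.rpow_natCast, ← Real.rpow_mul hn0.le]
            congr 1; push_cast; ring
      calc (L:ℝ) / m * U ^ 2 ≤ C * (2 * h') * (1 + l) / (ε * n) * (n:ℝ) ^ (1 - 4 * δ) :=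
            mul_le_mul e1 e2 (by positivity) (by positivity)
        _ = h' * (2 * C / ε * (1 + l) * ((n:ℝ) ^ (1 - 4 * δ) / n)) := by field_simp
        _ = _ := by
            rw [← Real.rpow_sub_one hn0.ne']
            congr 3; ring
    calc (G.card : ℝ) ≤ h' * (2 * (16 * (L / (m:ℝ))) * U) + 16 * (L / (m:ℝ)) * U ^ 2 := hnon
      _ = 32 * (h' * ((L:ℝ) / m * U)) + 16 * ((L:ℝ) / m * U ^ 2) := by ring
      _ ≤ 32 * (h' * (1 / ε * (n:ℝ) ^ (-δ))) + 16 * (h' * (2 * C / ε * (1 + l) * (n:ℝ) ^ (-(4 * δ)))) := by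
          have := mul_le_mul_of_nonneg_left h1 hh'0.le
          linarith
      _ = h' * (32 / ε * (n:ℝ) ^ (-δ) + 32 * C / ε * (1 + l) * (n:ℝ) ^ (-(4 * δ))) := by ring
      _ ≤ h' * (1 / 100) := mul_le_mul_of_nonneg_left haux hh'0.le
      _ = h' / 100 := by ring
  -- the set `B`
  set I := Ioc N m with hI
  have hI' : Ioc N (N + h') = I := by rw [hNm]
  rw [hI'] at hG
  set B := I.filter (fun x => ¬ us ∣ x ∧ ¬ ∃ p, p.Prime ∧ P < p ∧ p ∣ x) with hB
  have hBcard : (h':ℝ) - (h' / us + 1) - h' / 100 ≤ B.card := by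
    have h1 := BT.count_dvd N h' us (by omega)
    rw [hI', abs_le] at h1
    have h2 := Finset.card_filter_add_card_filter_not (s := I) (fun x => us ∣ x)
    rw [hI, Nat.card_Ioc, ← hI] at h2
    have h3 : (I.filter (fun x => ¬ us ∣ x)).card ≤ G.card + B.card := by
      rw [hG, hB]
      refine le_trans (Finset.card_le_card ?_) (Finset.card_union_le _ _)
      intro x hx
      rw [mem_filter] at hx
      rw [mem_union, mem_filter, mem_filter]
      by_cases hxp : ∃ p, p.Prime ∧ P < p ∧ p ∣ x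
      · exact Or.inl ⟨hx.1, hx.2, hxp⟩
      · exact Or.inr ⟨hx.1, hx.2, hxp⟩
    have h4 : ((I.filter (fun x => us ∣ x)).card : ℝ) + ((I.filter (fun x => ¬ us ∣ x)).card : ℝ) = h' := by
      have : (I.filter (fun x => us ∣ x)).card + (I.filter (fun x => ¬ us ∣ x)).card = h' := by omega
      exact_mod_cast this
    have h5 : ((I.filter (fun x => ¬ us ∣ x)).card : ℝ) ≤ G.card + B.card := by exact_mod_cast h3
    linarith [h1.2]
  have hBI : B ⊆ I := Finset.filter_subset _ _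
  have hlow : (B.card : ℝ) * (l - K) ≤ ∑ x ∈ B, Real.log (x:ℝ) := by
    rw [← nsmul_eq_mul]
    apply Finset.card_nsmul_le_sum
    intro x hx
    have hx' := mem_Ioc.mp (hBI hx)
    rw [hlog, hK, ← Real.log_div hn0.ne' (by positivity)]
    apply Real.log_le_log (by positivity)
    have h1 : (m:ℝ) ≤ 2 * x := by
      have : m ≤ 2 * x := by omega
      exact_mod_cast this
    rw [div_div_eq_mul_div, div_le_iff₀ (by norm_num)]
    linarith
  have hup := sum_log_le_mass (z := z) (P := P) B I hBI (by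
    intro x hx
    rw [hB, mem_filter] at hx
    have := mem_Ioc.mp hx.1
    refine ⟨by omega, fun p hp hpx => ?_⟩
    by_contra hlt
    push Not at hlt
    exact hx.2.2 ⟨p, hp, hlt, hpx⟩)
  have ht3 := ht.t3 h' (by omega) hh'm
  have ht4 := ht.t4 h' (by omega) hh'm
  have ht1 := ht.t1 i (by omega) (by rw [← hh']; exact hh'm)
  rw [← hh', ← hlog, ← hN, abs_le] at ht1
  rw [← hN, ← hI, ← hlog] at ht3 ht4
  have hz1 : 1 ≤ z := by rw [hz, Nat.le_sqrt']; omega
  have hMz : M z ≤ l / 2 + 1.4 := by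
    have h1 := Mertens.upper hz1
    have h2 : Real.log z ≤ l / 2 := by
      have h3 : (z:ℝ) ^ 2 ≤ n := by exact_mod_cast Nat.sqrt_le' n
      have h4 := Real.log_le_log (by have : (0:ℝ) < z := by exact_mod_cast hz1
                                     positivity) h3
      rw [Real.log_pow] at h4
      push_cast at h4
      linarith
    have := Cheb.log_four_le
    linarith
  have hSsum : TK.S z N h' = ∑ x ∈ I, f1 z x := by rw [S_eq_sum_f1, hI']
  have hus2R : (2:ℝ) ≤ us := by exact_mod_cast hus2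
  rcases Nat.lt_or_ge 2 us with hus3 | hus3
  · -- us ≥ 3
    have hus3R : (3:ℝ) ≤ us := by exact_mod_cast hus3
    have h1 : (h':ℝ) / us ≤ h' / 3 := div_le_div_of_nonneg_left hh'0.le (by norm_num) hus3R
    have h2 : ∑ x ∈ B, f1 z x ≤ ∑ x ∈ I, f1 z x :=
      Finset.sum_le_sum_of_subset_of_nonneg hBI (fun x _ _ => f1_nonneg z x)
    have h3 : 0.654 * (h':ℝ) ≤ B.card := by linarith
    have h4 : 0.654 * (h':ℝ) * (l - K) ≤ (B.card : ℝ) * (l - K) := mul_le_mul_of_nonneg_right h3 (by linarith)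
    have h5 : (h':ℝ) * M z ≤ h' * (l / 2 + 1.4) := mul_le_mul_of_nonneg_left hMz hh'0.le
    have h6 : h' * (0.654 * (l - K)) ≤ h' * (l / 2 + 1.4 + 0.03 * l) := by
      linarith [ht1.2]
    have h7 := le_of_mul_le_mul_left h6 hh'0
    linarith
  · -- us = 2
    have hus2' : us = 2 := by omega
    have h1 : ∑ x ∈ B, f1 z x ≤ ∑ x ∈ I.filter (fun x => ¬ 2 ∣ x), f1 z x := by
      apply Finset.sum_le_sum_of_subset_of_nonneg
      · intro x hx
        rw [hB, mem_filter] at hx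
        rw [mem_filter]
        exact ⟨hx.1, by rw [← hus2']; exact hx.2.1⟩
      · intro x _ _; exact f1_nonneg z x
    have h2 : ∑ x ∈ I.filter (fun x => ¬ 2 ∣ x), f1 z x = ∑ x ∈ I, f1 z x - ∑ x ∈ I.filter (fun x => 2 ∣ x), f1 z x := by
      rw [← Finset.sum_filter_add_sum_filter_not I (fun x => 2 ∣ x)]; ring
    have h3 := even_mass (z := z) (m := m) (h' := 2 ^ j) (by rw [← hh'j]; exact hh'm)
    rw [← hh'j, ← hN, ← hI] at h3
    have ht2 := ht.t2 j (by omega) (by omega)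
    rw [← hlog, abs_le] at ht2
    have hjR : ((2 ^ j : ℕ) : ℝ) = h' / 2 := by
      rw [hh'j]; push_cast; ring
    rw [hjR] at ht2
    have hus2eq : (us:ℝ) = 2 := by rw [hus2']; norm_num
    rw [hus2eq] at hBcard
    have h4 : 0.488 * (h':ℝ) ≤ B.card := by linarith
    have h5 : 0.488 * (h':ℝ) * (l - K) ≤ (B.card : ℝ) * (l - K) := mul_le_mul_of_nonneg_right h4 (by linarith)
    have h6 : (h':ℝ) * M z ≤ h' * (l / 2 + 1.4) := mul_le_mul_of_nonneg_left hMz hh'0.le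
    have h7 : h' * (0.488 * (l - K)) ≤ h' * (0.285 * l + 0.7) := by
      linarith [ht1.2, ht2.1]
    have h8 := le_of_mul_le_mul_left h7 hh'0
    linarith

end Pool.Agent.helper91.D4
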