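import Mathlib
import Pool.Agent.helper91.PJ
import Pool.Agent.helper91.CaseIII

/-!
# Short upper blocks, part 1: squarefree parts
-/

open Finset
open scoped Nat

namespace Pool.Agent.helper91.D4

lemma sqf_dvd (y : ℕ) : sqf y ∣ y := by
  obtain ⟨t, h1, _⟩ := sqf_spec y
  exact ⟨t ^ 2, by rw [mul_comm]; exact h1.symm⟩

lemma sqf_le {y : ℕ} (hy : 0 < y) : sqf y ≤ y := Nat.le_of_dvd hy (sqf_dvd y)

lemma squarefree_sqf (y : ℕ) : Squarefree (sqf y) := by
  obtain ⟨t, _, h2⟩ := sqf_spec y
  exact h2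

lemma Sol.sqf_eq {a h b k : ℕ} (hs : Sol a h b k) : sqf (blk a h) = sqf (blk b k) := by
  apply Nat.eq_of_factorization_eq sqf_pos.ne' sqf_pos.ne'
  intro p
  rw [sqf_factorization (blk_pos a h).ne', sqf_factorization (blk_pos b k).ne']
  have := hs.even p
  rw [Nat.even_add, Nat.even_iff, Nat.even_iff] at this
  omega

lemma le_blk (a h : ℕ) : (a + 1) ^ h ≤ blk a h := by
  unfold blk
  have := Finset.pow_card_le_prod (Ioc a (a + h)) (fun x => x) (a + 1) (fun x hx => by rw [mem_Ioc] at hx; omega)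
  simpa using this

lemma blk_le (a h : ℕ) : blk a h ≤ (a + h) ^ h := by
  unfold blk
  have := Finset.prod_le_pow_card (Ioc a (a + h)) (fun x => x) (a + h) (fun x hx => by rw [mem_Ioc] at hx; omega)
  simpa using this

lemma blk_strictMono {h : ℕ} (hh : 1 ≤ h) : StrictMono (fun a => blk a h) := by
  apply strictMono_nat_of_lt_succ
  intro a
  have h1 := blk_mul_factorial (a + 1) h
  have h2 := blk_mul_factorial a h
  have h3 : (a + 1 + h)! = (a + h + 1) * (a + h)! := by
    rw [show a + 1 + h = (a + h) + 1 by ring, Nat.factorial_succ]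
  rw [h3, ← h2, Nat.factorial_succ] at h1
  have h4 : blk (a + 1) h * (a + 1) = (a + h + 1) * blk a h := by
    apply Nat.eq_of_mul_eq_mul_right (Nat.factorial_pos a)
    linarith
  have h5 := blk_pos a h
  show blk a h < blk (a + 1) h
  by_contra hle
  push Not at hle
  have h6 : blk (a + 1) h * (a + 1) ≤ blk a h * (a + 1) := Nat.mul_le_mul_right _ hle
  have h7 : 1 * blk a h ≤ h * blk a h := Nat.mul_le_mul_right _ hh
  nlinarith

lemma sum_sqf_fact_le_one {a h p : ℕ} (hp : h ≤ p) :
    ∑ x ∈ Ioc a (a + h), (sqf x).factorization p ≤ 1 := by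
  by_cases hex : ∃ x ∈ Ioc a (a + h), p ∣ x
  · obtain ⟨x, hx, hpx⟩ := hex
    rw [Finset.sum_eq_single x]
    · exact (squarefree_sqf x).natFactorization_le_one p
    · intro y hy hne
      apply Nat.factorization_eq_zero_of_not_dvd
      intro hpy
      exact hne (eq_of_dvd_of_dvd hp hy hx (hpy.trans (sqf_dvd y)) hpx)
    · intro hn; exact absurd hx hn
  · push Not at hex
    rw [Finset.sum_eq_zero]
    · exact Nat.zero_le _
    · intro x hx
      apply Nat.factorization_eq_zero_of_not_dvd
      intro hpx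
      exact hex x hx (hpx.trans (sqf_dvd x))

/-- If the members of the block have bounded square divisors, so has the block. -/
lemma g_le {a h A g D : ℕ} (hA : ∀ x ∈ Ioc a (a + h), ∀ t, t ^ 2 ∣ x → t ≤ A)
    (hD : Squarefree D) (hg : g ^ 2 * D = blk a h) : g ≤ (h ! * A) ^ h := by
  choose t ht using fun x => (sqf_spec x)
  set T := ∏ x ∈ Ioc a (a + h), t x with hT
  have htpos : ∀ x ∈ Ioc a (a + h), t x ≠ 0 := by
    intro x hx h0
    have := (ht x).1
    rw [h0] at this
    rw [mem_Ioc] at hx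
    simp at this
    omega
  have hTpos : T ≠ 0 := by rw [hT, Finset.prod_ne_zero_iff]; exact htpos
  have hTA : T ≤ A ^ h := by
    have := Finset.prod_le_pow_card (Ioc a (a + h)) t A (fun x hx => hA x hx (t x) ⟨sqf x, (ht x).1.symm⟩)
    simpa using this
  have hgpos : g ≠ 0 := by
    rintro rfl
    have := blk_pos a h
    rw [← hg] at this
    simp at this
  have hdvd : g ∣ (h !) ^ h * T := by
    rw [← Nat.factorization_prime_le_iff_dvd hgpos (mul_ne_zero (pow_ne_zero _ (Nat.factorial_ne_zero _)) hTpos)]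
    intro p hp
    have h1 : 2 * g.factorization p + D.factorization p = 2 * T.factorization p +
        ∑ x ∈ Ioc a (a + h), (sqf x).factorization p := by
      have e1 : (blk a h).factorization p = 2 * g.factorization p + D.factorization p := by
        rw [← hg, Nat.factorization_mul (pow_ne_zero 2 hgpos) hD.ne_zero, Nat.factorization_pow]
        simp
      have e2 : T.factorization p = ∑ x ∈ Ioc a (a + h), (t x).factorization p := by
        rw [hT, Nat.factorization_prod_apply htpos]
      rw [← e1, blk_factorization, e2, Finset.mul_sum, ← Finset.sum_add_distrib]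
      refine Finset.sum_congr rfl (fun x hx => ?_)
      conv_lhs => rw [← (ht x).1]
      rw [Nat.factorization_mul (pow_ne_zero 2 (htpos x hx)) sqf_pos.ne', Nat.factorization_pow]
      simp
    rw [Nat.factorization_mul (pow_ne_zero _ (Nat.factorial_ne_zero _)) hTpos, Nat.factorization_pow,
      Finsupp.add_apply, Finsupp.smul_apply, smul_eq_mul]
    rcases Nat.lt_or_ge p h with hph | hph
    · have h2 : ∑ x ∈ Ioc a (a + h), (sqf x).factorization p ≤ h := by
        calc _ ≤ ∑ x ∈ Ioc a (a + h), 1 :=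
              Finset.sum_le_sum (fun x _ => (squarefree_sqf x).natFactorization_le_one p)
          _ = h := by simp
      have h3 : 1 ≤ (h !).factorization p :=
        (hp.dvd_iff_one_le_factorization (Nat.factorial_ne_zero _)).mp (hp.dvd_factorial.mpr hph.le)
      have h4 : h * 1 ≤ h * (h !).factorization p := Nat.mul_le_mul_left _ h3
      omega
    · have h2 := sum_sqf_fact_le_one (a := a) hph
      omega
  calc g ≤ (h !) ^ h * T := Nat.le_of_dvd (Nat.pos_of_ne_zero (mul_ne_zero (pow_ne_zero _ (Nat.factorial_ne_zero _)) hTpos)) hdvd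
    _ ≤ (h !) ^ h * A ^ h := Nat.mul_le_mul_left _ hTA
    _ = _ := by rw [mul_pow]

/-- the product of the squarefree parts is controlled by the squarefree part of the product -/
lemma prod_sqf_dvd (b k : ℕ) :
    ∏ y ∈ Ioc b (b + k), sqf y ∣ sqf (blk b k) * (k ! * primorial k) := by
  have hne : ∏ y ∈ Ioc b (b + k), sqf y ≠ 0 := by
    rw [Finset.prod_ne_zero_iff]; intro y _; exact sqf_pos.ne'
  have hprim : primorial k ≠ 0 := (primorial_pos k).ne'
  rw [← Nat.factorization_prime_le_iff_dvd hne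
    (mul_ne_zero sqf_pos.ne' (mul_ne_zero (Nat.factorial_ne_zero _) hprim))]
  intro p hp
  rw [Nat.factorization_prod_apply (fun y _ => sqf_pos.ne'),
    Nat.factorization_mul sqf_pos.ne' (mul_ne_zero (Nat.factorial_ne_zero _) hprim),
    Nat.factorization_mul (Nat.factorial_ne_zero _) hprim, Finsupp.add_apply, Finsupp.add_apply,
    sqf_factorization (blk_pos b k).ne', blk_factorization]
  rcases Nat.lt_or_ge p k with hpk | hpk
  · have h1 : ∑ y ∈ Ioc b (b + k), (sqf y).factorization p ≤ k / p + 1 := by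
      refine le_trans ?_ (card_dvd b k p hp.pos)
      rw [Finset.card_filter]
      refine Finset.sum_le_sum (fun y _ => ?_)
      split_ifs with hpy
      · exact (squarefree_sqf y).natFactorization_le_one p
      · rw [Nat.factorization_eq_zero_of_not_dvd (fun h => hpy (h.trans (sqf_dvd y)))]
    have h2 := Mertens.div_le_factorization hp k
    have h3 : 1 ≤ (primorial k).factorization p := by
      rw [← hp.dvd_iff_one_le_factorization hprim]
      unfold primorial
      apply Finset.dvd_prod_of_mem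
      simp only [mem_filter, mem_range]
      exact ⟨by omega, hp⟩
    omega
  · have h1 : ∑ y ∈ Ioc b (b + k), (sqf y).factorization p ≤
        (∑ x ∈ Ioc b (b + k), x.factorization p) % 2 := by
      by_cases hex : ∃ x ∈ Ioc b (b + k), p ∣ x
      · obtain ⟨x, hx, hpx⟩ := hex
        have hx0 : x ≠ 0 := by rw [mem_Ioc] at hx; omega
        rw [Finset.sum_eq_single x, Finset.sum_eq_single x, sqf_factorization hx0]
        · intro y hy hne
          apply Nat.factorization_eq_zero_of_not_dvd
          intro hpy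
          exact hne (eq_of_dvd_of_dvd hpk hy hx hpy hpx)
        · intro hn; exact absurd hx hn
        · intro y hy hne
          apply Nat.factorization_eq_zero_of_not_dvd
          intro hpy
          exact hne (eq_of_dvd_of_dvd hpk hy hx (hpy.trans (sqf_dvd y)) hpx)
        · intro hn; exact absurd hx hn
      · push Not at hex
        rw [Finset.sum_eq_zero]
        · exact Nat.zero_le _
        · intro x hx
          apply Nat.factorization_eq_zero_of_not_dvd
          intro hpx
          exact hex x hx (hpx.trans (sqf_dvd x))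
    omega

/-- count of integers with a large square divisor -/
lemma sq_count (n : ℕ) {A : ℕ} (hA : 1 ≤ A) :
    ((((Ioc 0 n).filter (fun x => ∃ t ∈ Ioc A n, t ^ 2 ∣ x)).card : ℕ) : ℝ) ≤ n / A := by
  have hsub : (Ioc 0 n).filter (fun x => ∃ t ∈ Ioc A n, t ^ 2 ∣ x) ⊆
      (Ioc A n).biUnion (fun t => (Ioc 0 n).filter (fun x => t ^ 2 ∣ x)) := by
    intro x hx
    rw [mem_filter] at hx
    obtain ⟨h1, t, ht, htx⟩ := hx
    rw [mem_biUnion]
    exact ⟨t, ht, by rw [mem_filter]; exact ⟨h1, htx⟩⟩
  have h1 : ((((Ioc 0 n).filter (fun x => ∃ t ∈ Ioc A n, t ^ 2 ∣ x)).card : ℕ) : ℝ) ≤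
      ∑ t ∈ Ioc A n, (n:ℝ) * (1 / (t - 1 : ℝ) - 1 / t) := by
    have e1 := (Finset.card_le_card hsub).trans Finset.card_biUnion_le
    have e2 := (Nat.cast_le (α := ℝ)).mpr e1
    push_cast at e2
    refine e2.trans (Finset.sum_le_sum (fun t ht => ?_))
    rw [mem_Ioc] at ht
    rw [Nat.Ioc_filter_dvd_card_eq_div]
    have ht1 : (1:ℝ) < t := by exact_mod_cast (by omega : 1 < t)
    have e3 : ((n / t ^ 2 : ℕ) : ℝ) ≤ n / (t:ℝ) ^ 2 := by
      have := Nat.cast_div_le (m := n) (n := t ^ 2) (α := ℝ)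
      simpa using this
    refine e3.trans ?_
    have e4 : (1:ℝ) / (t - 1) - 1 / t = 1 / ((t - 1) * t) := by
      have : (t:ℝ) - 1 ≠ 0 := by linarith
      have : (t:ℝ) ≠ 0 := by linarith
      field_simp
      ring
    rw [e4, div_eq_mul_one_div]
    apply mul_le_mul_of_nonneg_left _ (Nat.cast_nonneg n)
    apply one_div_le_one_div_of_le
    · apply mul_pos <;> linarith
    · nlinarith
  refine h1.trans ?_
  rw [← Finset.mul_sum]
  have hA0 : (0:ℝ) < A := by exact_mod_cast hA
  have h2 : ∀ N, A ≤ N → ∑ t ∈ Ioc A N, (1 / ((t:ℝ) - 1) - 1 / t) ≤ 1 / A - 1 / N := by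
    intro N hN
    induction N, hN using Nat.le_induction with
    | base => simp
    | succ N hN ih =>
      rw [← Finset.insert_Ioc_right_eq_Ioc_add_one hN, Finset.sum_insert (by simp)]
      push_cast
      have : (N:ℝ) + 1 - 1 = N := by ring
      rw [this]
      linarith
  rcases Nat.lt_or_ge n A with h | h
  · rw [Finset.Ioc_eq_empty (by omega)]
    simp only [sum_empty, mul_zero]
    positivity
  · have h3 := h2 n h
    have h4 : (0:ℝ) ≤ 1 / n := by positivity
    calc (n:ℝ) * ∑ t ∈ Ioc A n, (1 / ((t:ℝ) - 1) - 1 / t) ≤ n * (1 / A) :=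
          mul_le_mul_of_nonneg_left (by linarith) (Nat.cast_nonneg n)
      _ = _ := by ring

/-- Case Ia: the lower block is shorter. -/
lemma caseIa {a h b k A : ℕ} (hs : Sol a h b k) (hkh : k < h) (hha : h ≤ a)
    (hA : ∀ x ∈ Ioc a (a + h), ∀ t, t ^ 2 ∣ x → t ≤ A) :
    a + h ≤ 2 ^ h * ((h ! * A) ^ h) ^ 2 := by
  obtain ⟨g, hg, hsq⟩ := sqf_spec (blk a h)
  have h1 := g_le hA hsq hg
  have h2 : sqf (blk a h) ≤ (a + h) ^ (h - 1) := by
    rw [hs.sqf_eq]
    calc sqf (blk b k) ≤ blk b k := sqf_le (blk_pos b k)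
      _ ≤ (b + k) ^ k := blk_le b k
      _ ≤ (a + h) ^ k := Nat.pow_le_pow_left (by have := hs.2.1; omega) k
      _ ≤ (a + h) ^ (h - 1) := Nat.pow_le_pow_right (by omega) (by omega)
  have h3 := le_blk a h
  rw [← hg] at h3
  have h4 : (a + h) ^ h ≤ 2 ^ h * (a + 1) ^ h := by
    rw [← mul_pow]; exact Nat.pow_le_pow_left (by omega) h
  have h5 : (a + h) ^ h ≤ (a + h) ^ (h - 1) * (2 ^ h * ((h ! * A) ^ h) ^ 2) := by
    calc (a + h) ^ h ≤ 2 ^ h * (a + 1) ^ h := h4
      _ ≤ 2 ^ h * (g ^ 2 * sqf (blk a h)) := Nat.mul_le_mul_left _ h3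
      _ ≤ 2 ^ h * (((h ! * A) ^ h) ^ 2 * (a + h) ^ (h - 1)) :=
          Nat.mul_le_mul_left _ (Nat.mul_le_mul (Nat.pow_le_pow_left h1 2) h2)
      _ = _ := by ring
  have h6 : (a + h) ^ h = (a + h) ^ (h - 1) * (a + h) := by
    rw [← pow_succ]; congr 1; omega
  rw [h6] at h5
  exact Nat.le_of_mul_le_mul_left h5 (pow_pos (by omega) _)

end Pool.Agent.helper91.D4
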