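import Mathlib

/-!
# Counting functions of sets of positive integers, and sets of density zero
-/

open Finset

namespace Pool.Agent.helper91.D4

open Classical in
/-- number of `m ∈ (0, n]` with the property `S` -/
noncomputable def cnt (S : ℕ → Prop) (n : ℕ) : ℕ := ((Ioc 0 n).filter (fun m => S m)).card

lemma cnt_eq (S : ℕ → Prop) [DecidablePred S] (n : ℕ) : cnt S n = ((Ioc 0 n).filter (fun m => S m)).card := by
  unfold cnt
  congr

lemma cnt_mono {S T : ℕ → Prop} {n : ℕ} (h : ∀ m, 0 < m → m ≤ n → S m → T m) : cnt S n ≤ cnt T n := by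
  classical
  rw [cnt_eq, cnt_eq]
  apply Finset.card_le_card
  intro m hm
  rw [mem_filter, mem_Ioc] at hm ⊢
  exact ⟨hm.1, h m hm.1.1 hm.1.2 hm.2⟩

lemma cnt_le_card {S : ℕ → Prop} {n : ℕ} (F : Finset ℕ) (h : ∀ m, 0 < m → m ≤ n → S m → m ∈ F) : cnt S n ≤ F.card := by
  classical
  rw [cnt_eq]
  apply Finset.card_le_card
  intro m hm
  rw [mem_filter, mem_Ioc] at hm
  exact h m hm.1.1 hm.1.2 hm.2

lemma cnt_or (S T : ℕ → Prop) (n : ℕ) : cnt (fun m => S m ∨ T m) n ≤ cnt S n + cnt T n := by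
  classical
  rw [cnt_eq, cnt_eq, cnt_eq, Finset.filter_or]
  exact Finset.card_union_le _ _

lemma cnt_le_of_or {S T U : ℕ → Prop} {n : ℕ} (h : ∀ m, 0 < m → m ≤ n → S m → T m ∨ U m) :
    (cnt S n : ℝ) ≤ cnt T n + cnt U n := by
  exact_mod_cast (cnt_mono h).trans (cnt_or T U n)

lemma cnt_exists_le {ι : Type*} (J : Finset ι) (S : ι → ℕ → Prop) (n : ℕ) :
    cnt (fun m => ∃ j ∈ J, S j m) n ≤ ∑ j ∈ J, cnt (S j) n := by
  classical
  have : cnt (fun m => ∃ j ∈ J, S j m) n ≤ (J.biUnion (fun j => (Ioc 0 n).filter (fun m => S j m))).card := by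
    apply cnt_le_card
    rintro m h1 h2 ⟨j, hj, hS⟩
    rw [mem_biUnion]
    exact ⟨j, hj, by rw [mem_filter, mem_Ioc]; exact ⟨⟨h1, h2⟩, hS⟩⟩
  refine this.trans (Finset.card_biUnion_le.trans (Finset.sum_le_sum (fun j _ => ?_)))
  rw [cnt_eq]

/-- density zero -/
def DZ (S : ℕ → Prop) : Prop := ∀ ε : ℝ, 0 < ε → ∃ n₀ : ℕ, ∀ n, n₀ ≤ n → (cnt S n : ℝ) ≤ ε * n

lemma DZ.mono {S T : ℕ → Prop} (hT : DZ T) (h : ∀ m, S m → T m) : DZ S := by
  intro ε hε
  obtain ⟨n₀, hn₀⟩ := hT ε hε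
  refine ⟨n₀, fun n hn => le_trans ?_ (hn₀ n hn)⟩
  exact_mod_cast cnt_mono (fun m _ _ hm => h m hm)

lemma DZ.or {S T : ℕ → Prop} (hS : DZ S) (hT : DZ T) : DZ (fun m => S m ∨ T m) := by
  intro ε hε
  obtain ⟨n₀, hn₀⟩ := hS (ε / 2) (by positivity)
  obtain ⟨n₁, hn₁⟩ := hT (ε / 2) (by positivity)
  refine ⟨max n₀ n₁, fun n hn => ?_⟩
  have h1 := hn₀ n (le_trans (le_max_left _ _) hn)
  have h2 := hn₁ n (le_trans (le_max_right _ _) hn)
  have h3 : (cnt (fun m => S m ∨ T m) n : ℝ) ≤ cnt S n + cnt T n := by exact_mod_cast cnt_or S T n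
  linarith

lemma DZ.exists {ι : Type*} (J : Finset ι) {S : ι → ℕ → Prop} (h : ∀ j ∈ J, DZ (S j)) :
    DZ (fun m => ∃ j ∈ J, S j m) := by
  classical
  induction J using Finset.induction_on with
  | empty =>
    intro ε hε
    refine ⟨0, fun n _ => ?_⟩
    have : cnt (fun m => ∃ j ∈ (∅ : Finset ι), S j m) n ≤ (∅ : Finset ℕ).card := by
      apply cnt_le_card
      rintro m _ _ ⟨j, hj, _⟩
      simp at hj
    rw [Finset.card_empty] at this
    have h0 : cnt (fun m => ∃ j ∈ (∅ : Finset ι), S j m) n = 0 := by omega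
    rw [h0]; simp; positivity
  | insert j J hj ih =>
    refine DZ.mono ((h j (mem_insert_self _ _)).or (ih (fun i hi => h i (mem_insert_of_mem hi)))) ?_
    rintro m ⟨i, hi, hS⟩
    rw [mem_insert] at hi
    rcases hi with rfl | hi
    · exact Or.inl hS
    · exact Or.inr ⟨i, hi, hS⟩

/-- a set whose gaps tend to infinity has density zero -/
lemma DZ.of_gaps {S : ℕ → Prop} (h : ∀ g : ℕ, ∃ a₀ : ℕ, ∀ a a', S a → S a' → a₀ ≤ a → a < a' → a + g < a') : DZ S := by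
  classical
  intro ε hε
  obtain ⟨g, hg⟩ := exists_nat_gt (2 / ε)
  obtain ⟨a₀, ha₀⟩ := h g
  obtain ⟨n₁, hn₁⟩ := exists_nat_gt (2 * ((a₀:ℝ) + 1) / ε)
  refine ⟨n₁, fun n hn => ?_⟩
  have h1 : cnt S n ≤ cnt (fun m => m ∈ range a₀ ∨ (S m ∧ a₀ ≤ m)) n := by
    apply cnt_mono
    intro m _ _ hm
    by_cases hma : m < a₀
    · exact Or.inl (by rwa [mem_range])
    · exact Or.inr ⟨hm, by omega⟩
  have h2 : cnt (fun m => m ∈ range a₀) n ≤ a₀ := by
    have := cnt_le_card (S := fun m => m ∈ range a₀) (n := n) (range a₀) (fun m _ _ h => h)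
    simpa using this
  have h3 : cnt (fun m => S m ∧ a₀ ≤ m) n ≤ n / (g + 1) + 1 := by
    rw [cnt_eq]
    have : ((Ioc 0 n).filter (fun m => S m ∧ a₀ ≤ m)).card ≤ (range (n / (g + 1) + 1)).card := by
      apply Finset.card_le_card_of_injOn (fun m => m / (g + 1))
      · intro m hm
        have hm' : m ∈ (Ioc 0 n).filter (fun m => S m ∧ a₀ ≤ m) := hm
        rw [mem_filter, mem_Ioc] at hm'
        simp only [Finset.coe_range, Set.mem_Iio]
        exact Nat.lt_succ_of_le (Nat.div_le_div_right hm'.1.2)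
      · intro m hm m' hm' heq
        have h1 : m ∈ (Ioc 0 n).filter (fun m => S m ∧ a₀ ≤ m) := hm
        have h2 : m' ∈ (Ioc 0 n).filter (fun m => S m ∧ a₀ ≤ m) := hm'
        rw [mem_filter, mem_Ioc] at h1 h2
        simp only at heq
        have e1 := Nat.div_add_mod m (g + 1)
        have e2 := Nat.div_add_mod m' (g + 1)
        have e3 := Nat.mod_lt m (show 0 < g + 1 by omega)
        have e4 := Nat.mod_lt m' (show 0 < g + 1 by omega)
        rw [heq] at e1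
        rcases Nat.lt_trichotomy m m' with hlt | heq' | hlt
        · have := ha₀ m m' h1.2.1 h2.2.1 h1.2.2 hlt
          omega
        · exact heq'
        · have := ha₀ m' m h2.2.1 h1.2.1 h2.2.2 hlt
          omega
    simpa using this
  have h4 : cnt S n ≤ cnt (fun m => m ∈ range a₀) n + cnt (fun m => S m ∧ a₀ ≤ m) n :=
    h1.trans (cnt_or (fun m => m ∈ range a₀) (fun m => S m ∧ a₀ ≤ m) n)
  have h5 : (cnt S n : ℝ) ≤ a₀ + ((n / (g + 1) : ℕ) + 1) := by exact_mod_cast (by omega : cnt S n ≤ a₀ + (n / (g + 1) + 1))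
  have h6 : ((n / (g + 1) : ℕ) : ℝ) ≤ n / (g + 1) := by
    have := Nat.cast_div_le (m := n) (n := g + 1) (α := ℝ)
    simpa using this
  have hnR : (n₁:ℝ) ≤ n := by exact_mod_cast hn
  have hn0 : (0:ℝ) ≤ n := Nat.cast_nonneg n
  have h7 : (n:ℝ) / (g + 1) ≤ ε / 2 * n := by
    rw [div_le_iff₀ (by positivity)]
    rw [div_lt_iff₀ hε] at hg
    nlinarith
  have h8 : (a₀:ℝ) + 1 ≤ ε / 2 * n := by
    rw [div_lt_iff₀ hε] at hn₁
    nlinarith
  linarith

end Pool.Agent.helper91.D4
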