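import Mathlib
import Pool.Agent.helper91.CaseI1
import Pool.Agent.helper91.DZ

/-!
# Short upper blocks, part 2: blocks of equal length
-/

open Finset
open scoped Nat

namespace Pool.Agent.helper91.D4

/-- centered nodes -/
noncomputable def cn (h i : ℕ) : ℝ := 2 * i - (h - 1)

lemma two_pow_mul_blk (a h : ℕ) : (2:ℝ) ^ h * blk a h = ∏ i ∈ range h, (((2 * a + h + 1 : ℕ) : ℝ) + cn h i) := by
  have h0 : blk a h = ∏ i ∈ range h, (a + 1 + i) := by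
    unfold blk
    rw [← Finset.prod_image (s := range h) (g := fun i => a + 1 + i) (f := fun x => x)]
    · congr 1
      ext x
      simp only [mem_Ioc, mem_image, mem_range]
      constructor
      · rintro ⟨h1, h2⟩; exact ⟨x - a - 1, by omega, by omega⟩
      · rintro ⟨i, hi, rfl⟩; omega
    · intro x _ y _ hxy; simp only at hxy; omega
  have h1' : (blk a h : ℝ) = ∏ i ∈ range h, ((a:ℝ) + 1 + i) := by
    rw [h0]; push_cast; rfl
  have h2 : (2:ℝ) ^ h = ∏ i ∈ range h, (2:ℝ) := by simp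
  rw [h1', h2, ← Finset.prod_mul_distrib]
  refine Finset.prod_congr rfl (fun i _ => ?_)
  unfold cn
  push_cast; ring

lemma prod_sq_eq (X : ℝ) (h : ℕ) : (∏ i ∈ range h, (X + cn h i)) ^ 2 = ∏ i ∈ range h, (X ^ 2 - cn h i ^ 2) := by
  have h1 : ∏ i ∈ range h, (X + cn h i) = ∏ i ∈ range h, (X - cn h i) := by
    rw [← Finset.prod_range_reflect]
    refine Finset.prod_congr rfl (fun i hi => ?_)
    rw [mem_range] at hi
    unfold cn
    have : ((h - 1 - i : ℕ) : ℝ) = h - 1 - i := by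
      rw [Nat.cast_sub (by omega), Nat.cast_sub (by omega)]; norm_num
    rw [this]; ring
  rw [sq]
  nth_rewrite 2 [h1]
  rw [← Finset.prod_mul_distrib]
  refine Finset.prod_congr rfl (fun i _ => ?_)
  ring

lemma cn_sq_le {h i : ℕ} (hi : i < h) : cn h i ^ 2 ≤ (h:ℝ) ^ 2 := by
  unfold cn
  have h1 : (i:ℝ) + 1 ≤ h := by exact_mod_cast hi
  have h2 : (0:ℝ) ≤ i := Nat.cast_nonneg i
  apply sq_le_sq'
  · linarith
  · linarith

/-- comparison of the centers of two blocks with fixed ratio -/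
lemma center_close {h : ℕ} {B M ρ : ℝ} (hh : 1 ≤ h) (hB : (h:ℝ) ≤ B) (hM : (h:ℝ) ≤ M) (hρ0 : 0 < ρ) (hρ1 : ρ ≤ 1)
    (heq : ∏ i ∈ range h, (B + cn h i) = ρ ^ h * ∏ i ∈ range h, (M + cn h i)) :
    |B ^ 2 - ρ ^ 2 * M ^ 2| ≤ (h:ℝ) ^ 2 := by
  have hh0 : (0:ℝ) < h := by exact_mod_cast hh
  have h1 : ∏ i ∈ range h, (B ^ 2 - cn h i ^ 2) = ∏ i ∈ range h, (ρ ^ 2 * M ^ 2 - ρ ^ 2 * cn h i ^ 2) := by
    rw [← prod_sq_eq, heq, mul_pow, prod_sq_eq]
    have : (ρ ^ h) ^ 2 = ∏ i ∈ range h, ρ ^ 2 := by rw [Finset.prod_const, card_range]; ring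
    rw [this, ← Finset.prod_mul_distrib]
    refine Finset.prod_congr rfl (fun i _ => ?_)
    ring
  have hB2 : (h:ℝ) ^ 2 ≤ B ^ 2 := pow_le_pow_left₀ hh0.le hB 2
  have hM2 : (h:ℝ) ^ 2 ≤ M ^ 2 := pow_le_pow_left₀ hh0.le hM 2
  have hρ2 : 0 < ρ ^ 2 := by positivity
  have hρ21 : ρ ^ 2 ≤ 1 := pow_le_one₀ hρ0.le hρ1
  rw [abs_le]
  constructor
  · -- ρ²M² - h² ≤ B²
    by_contra hcon
    push Not at hcon
    have h2 : B ^ 2 < ρ ^ 2 * M ^ 2 - (h:ℝ) ^ 2 := by linarith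
    have h3 : (B ^ 2) ^ h < (ρ ^ 2 * M ^ 2 - (h:ℝ) ^ 2) ^ h :=
      pow_lt_pow_left₀ h2 (by positivity) (by omega)
    have h4 : (ρ ^ 2 * M ^ 2 - (h:ℝ) ^ 2) ^ h ≤ ∏ i ∈ range h, (ρ ^ 2 * M ^ 2 - ρ ^ 2 * cn h i ^ 2) := by
      have : (ρ ^ 2 * M ^ 2 - (h:ℝ) ^ 2) ^ h = ∏ i ∈ range h, (ρ ^ 2 * M ^ 2 - (h:ℝ) ^ 2) := by simp
      rw [this]
      apply Finset.prod_le_prod
      · intro i _; nlinarith [sq_nonneg B]
      · intro i hi
        have := cn_sq_le (mem_range.mp hi)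
        have h5 : ρ ^ 2 * cn h i ^ 2 ≤ 1 * (h:ℝ) ^ 2 := mul_le_mul hρ21 this (sq_nonneg _) (by norm_num)
        linarith
    have h6 : ∏ i ∈ range h, (B ^ 2 - cn h i ^ 2) ≤ (B ^ 2) ^ h := by
      have : (B ^ 2) ^ h = ∏ i ∈ range h, (B ^ 2) := by simp
      rw [this]
      apply Finset.prod_le_prod
      · intro i hi
        have := cn_sq_le (mem_range.mp hi)
        linarith
      · intro i _; have := sq_nonneg (cn h i); linarith
    linarith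
  · by_contra hcon
    push Not at hcon
    have h2 : ρ ^ 2 * M ^ 2 < B ^ 2 - (h:ℝ) ^ 2 := by linarith
    have h3 : (ρ ^ 2 * M ^ 2) ^ h < (B ^ 2 - (h:ℝ) ^ 2) ^ h :=
      pow_lt_pow_left₀ h2 (by positivity) (by omega)
    have h4 : (B ^ 2 - (h:ℝ) ^ 2) ^ h ≤ ∏ i ∈ range h, (B ^ 2 - cn h i ^ 2) := by
      have : (B ^ 2 - (h:ℝ) ^ 2) ^ h = ∏ i ∈ range h, (B ^ 2 - (h:ℝ) ^ 2) := by simp
      rw [this]
      apply Finset.prod_le_prod
      · intro i _; linarith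
      · intro i hi
        have := cn_sq_le (mem_range.mp hi)
        linarith
    have h6 : ∏ i ∈ range h, (ρ ^ 2 * M ^ 2 - ρ ^ 2 * cn h i ^ 2) ≤ (ρ ^ 2 * M ^ 2) ^ h := by
      have : (ρ ^ 2 * M ^ 2) ^ h = ∏ i ∈ range h, (ρ ^ 2 * M ^ 2) := by simp
      rw [this]
      apply Finset.prod_le_prod
      · intro i hi
        have := cn_sq_le (mem_range.mp hi)
        have : ρ ^ 2 * cn h i ^ 2 ≤ ρ ^ 2 * M ^ 2 := mul_le_mul_of_nonneg_left (by linarith) hρ2.le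
        linarith
      · intro i _
        have : 0 ≤ ρ ^ 2 * cn h i ^ 2 := by positivity
        linarith
    linarith

/-- the centers are never exactly proportional -/
lemma center_ne {h : ℕ} {B M ρ : ℝ} (hh : 2 ≤ h) (hB : (h:ℝ) < B) (hρ0 : 0 < ρ) (hρ1 : ρ < 1)
    (heq : ∏ i ∈ range h, (B + cn h i) = ρ ^ h * ∏ i ∈ range h, (M + cn h i)) : B ≠ ρ * M := by
  intro hBM
  have h1 : ∏ i ∈ range h, (B ^ 2 - cn h i ^ 2) = ∏ i ∈ range h, (B ^ 2 - ρ ^ 2 * cn h i ^ 2) := by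
    rw [← prod_sq_eq, heq, mul_pow, prod_sq_eq]
    have : (ρ ^ h) ^ 2 = ∏ i ∈ range h, ρ ^ 2 := by rw [Finset.prod_const, card_range]; ring
    rw [this, ← Finset.prod_mul_distrib]
    refine Finset.prod_congr rfl (fun i _ => ?_)
    rw [hBM]; ring
  have hh0 : (0:ℝ) < h := by exact_mod_cast (by omega : 0 < h)
  have hB2 : (h:ℝ) ^ 2 < B ^ 2 := pow_lt_pow_left₀ hB hh0.le (by norm_num)
  have hρ21 : ρ ^ 2 < 1 := pow_lt_one₀ hρ0.le hρ1 (by norm_num)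
  have h2 : ∏ i ∈ range h, (B ^ 2 - cn h i ^ 2) < ∏ i ∈ range h, (B ^ 2 - ρ ^ 2 * cn h i ^ 2) := by
    apply Finset.prod_lt_prod
    · intro i hi
      have := cn_sq_le (mem_range.mp hi)
      linarith
    · intro i _
      have : ρ ^ 2 * cn h i ^ 2 ≤ 1 * cn h i ^ 2 := mul_le_mul_of_nonneg_right hρ21.le (sq_nonneg _)
      linarith
    · refine ⟨0, by rw [mem_range]; omega, ?_⟩
      have hc : 0 < cn h 0 ^ 2 := by
        unfold cn
        have : (2:ℝ) ≤ h := by exact_mod_cast hh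
        apply sq_pos_of_neg
        push_cast; linarith
      have : ρ ^ 2 * cn h 0 ^ 2 < 1 * cn h 0 ^ 2 := mul_lt_mul_of_pos_right hρ21 hc
      linarith
  linarith

/-- gaps between solutions of `z^2 blk b h = w^2 blk a h` tend to infinity -/
lemma gaps {h w z : ℕ} (hh : 2 ≤ h) (hw : 0 < w) (hwz : w < z) (g : ℕ) :
    ∃ a₀ : ℕ, ∀ a a' : ℕ, (∃ b, z ^ 2 * blk b h = w ^ 2 * blk a h) → (∃ b, z ^ 2 * blk b h = w ^ 2 * blk a' h) →
      a₀ ≤ a → a < a' → a + g < a' := by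
  have hh0 : (0:ℝ) < h := by exact_mod_cast (by omega : 0 < h)
  have hw0 : (0:ℝ) < w := by exact_mod_cast hw
  have hz0 : (0:ℝ) < z := by exact_mod_cast (by omega : 0 < z)
  have hwzR : (w:ℝ) / z < 1 := by rw [div_lt_one hz0]; exact_mod_cast hwz
  set ρ : ℝ := (((w:ℝ) / z) ^ 2) ^ ((1:ℝ) / h) with hρ
  have hq0 : 0 < ((w:ℝ) / z) ^ 2 := by positivity
  have hq1 : ((w:ℝ) / z) ^ 2 < 1 := pow_lt_one₀ (by positivity) hwzR (by norm_num)
  have hρ0 : 0 < ρ := Real.rpow_pos_of_pos hq0 _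
  have hρ1 : ρ < 1 := Real.rpow_lt_one hq0.le hq1 (by positivity)
  have hρh : ρ ^ h = ((w:ℝ) / z) ^ 2 := by
    rw [hρ, ← Real.rpow_natCast, ← Real.rpow_mul hq0.le, one_div_mul_cancel hh0.ne', Real.rpow_one]
  have hsol : ∀ a b : ℕ, z ^ 2 * blk b h = w ^ 2 * blk a h →
      ∏ i ∈ range h, (((2 * b + h + 1 : ℕ) : ℝ) + cn h i) = ρ ^ h * ∏ i ∈ range h, (((2 * a + h + 1 : ℕ) : ℝ) + cn h i) := by
    intro a b hab
    rw [← two_pow_mul_blk, ← two_pow_mul_blk, hρh]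
    have : (z:ℝ) ^ 2 * blk b h = (w:ℝ) ^ 2 * blk a h := by exact_mod_cast hab
    rw [div_pow]
    field_simp
    linarith
  -- threshold
  set E : Finset (ℕ × ℤ) := (Icc 1 g) ×ˢ (Icc (-((g:ℤ) + h ^ 2)) ((g:ℤ) + h ^ 2)) with hE
  have hlim1 : Filter.Tendsto (fun B : ℝ => (h:ℝ) ^ 2 / B) Filter.atTop (nhds 0) := by
    exact Filter.Tendsto.const_div_atTop Filter.tendsto_id _
  have hev : ∀ᶠ B : ℝ in Filter.atTop, ∀ q ∈ E, ((q.2 : ℝ) ≠ ρ * q.1 → (h:ℝ) ^ 2 / B < |(q.2 : ℝ) - ρ * q.1|) := by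
    rw [Filter.eventually_all_finset]
    intro q _
    by_cases hq : (q.2 : ℝ) = ρ * q.1
    · exact Filter.Eventually.of_forall (fun B h => absurd hq h)
    · have : 0 < |(q.2 : ℝ) - ρ * q.1| := abs_pos.mpr (sub_ne_zero.mpr hq)
      filter_upwards [hlim1.eventually (gt_mem_nhds this)] with B hB _
      exact hB
  have hev2 : ∀ᶠ B : ℝ in Filter.atTop, (h:ℝ) ^ 2 / B < 1 / (g + 1) :=
    hlim1.eventually (gt_mem_nhds (by positivity))
  obtain ⟨β, hβ⟩ := Filter.eventually_atTop.mp (hev.and (hev2.and (Filter.eventually_ge_atTop (1:ℝ))))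
  obtain ⟨a₀, ha₀⟩ := exists_nat_ge ((|β| + h) / ρ)
  refine ⟨a₀, ?_⟩
  rintro a a' ⟨b, hb⟩ ⟨b', hb'⟩ haa₀ haa'
  by_contra hcon
  push Not at hcon
  -- both centers are large
  have hlarge : ∀ a b : ℕ, z ^ 2 * blk b h = w ^ 2 * blk a h → a₀ ≤ a →
      β ≤ ((2 * b + h + 1 : ℕ) : ℝ) ∧ |((2 * b + h + 1 : ℕ) : ℝ) - ρ * ((2 * a + h + 1 : ℕ) : ℝ)| ≤ (h:ℝ) ^ 2 / ((2 * b + h + 1 : ℕ) : ℝ) := by
    intro a b hab ha
    have hBh : (h:ℝ) ≤ ((2 * b + h + 1 : ℕ) : ℝ) := by exact_mod_cast (by omega : h ≤ 2 * b + h + 1)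
    have hMh : (h:ℝ) ≤ ((2 * a + h + 1 : ℕ) : ℝ) := by exact_mod_cast (by omega : h ≤ 2 * a + h + 1)
    have hcl := center_close (by omega) hBh hMh hρ0 hρ1.le (hsol a b hab)
    set B := ((2 * b + h + 1 : ℕ) : ℝ) with hB
    set M := ((2 * a + h + 1 : ℕ) : ℝ) with hM
    have hB0 : 0 < B := by linarith
    have hM0 : 0 < M := by linarith
    have hρM : |β| + h ≤ ρ * M := by
      have h1 : (a₀:ℝ) ≤ M := by rw [hM]; exact_mod_cast (by omega : a₀ ≤ 2 * a + h + 1)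
      rw [div_le_iff₀ hρ0] at ha₀
      nlinarith
    constructor
    · rw [abs_le] at hcl
      have h1 : (|β| + h) ^ 2 ≤ ρ ^ 2 * M ^ 2 := by
        rw [← mul_pow]; exact pow_le_pow_left₀ (by positivity) hρM 2
      have h2 : |β| ^ 2 ≤ B ^ 2 := by nlinarith [abs_nonneg β, hcl.1]
      have h3 : |β| ≤ B := by
        by_contra hlt
        push Not at hlt
        nlinarith [abs_nonneg β]
      exact (le_abs_self β).trans h3
    · rw [le_div_iff₀ hB0]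
      have h1 : B ^ 2 - ρ ^ 2 * M ^ 2 = (B - ρ * M) * (B + ρ * M) := by ring
      rw [h1, abs_mul] at hcl
      have h2 : B ≤ |B + ρ * M| := by
        rw [abs_of_pos (by positivity)]
        have := mul_pos hρ0 hM0
        linarith
      calc |B - ρ * M| * B ≤ |B - ρ * M| * |B + ρ * M| := mul_le_mul_of_nonneg_left h2 (abs_nonneg _)
        _ ≤ _ := hcl
  obtain ⟨hβ1, hc1⟩ := hlarge a b hb haa₀
  obtain ⟨hβ2, hc2⟩ := hlarge a' b' hb' (by omega)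
  obtain ⟨hβE, hβg, hβone⟩ := hβ _ hβ1
  obtain ⟨hβE', hβg', hβone'⟩ := hβ _ hβ2
  have hne := center_ne hh (by exact_mod_cast (by omega : h < 2 * b + h + 1)) hρ0 hρ1 (hsol a b hb)
  set B := ((2 * b + h + 1 : ℕ) : ℝ) with hB
  set M := ((2 * a + h + 1 : ℕ) : ℝ) with hM
  set B' := ((2 * b' + h + 1 : ℕ) : ℝ) with hB'
  set M' := ((2 * a' + h + 1 : ℕ) : ℝ) with hM'
  obtain ⟨d, hd⟩ : ∃ d : ℕ, a' = a + d := ⟨a' - a, by omega⟩
  have hd1 : 1 ≤ d := by omega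
  have hdg : d ≤ g := by omega
  set e : ℤ := (b' : ℤ) - b with he
  have e1 : B' - B = 2 * (e:ℝ) := by rw [hB, hB', he]; push_cast; ring
  have e2 : M' - M = 2 * (d:ℝ) := by rw [hM, hM', hd]; push_cast; ring
  have hdgR : (d:ℝ) ≤ g := by exact_mod_cast hdg
  have hd0 : (0:ℝ) < d := by exact_mod_cast hd1
  have hBone : 1 ≤ B := hβone
  have hBone' : 1 ≤ B' := hβone'
  have hhsq : (0:ℝ) ≤ (h:ℝ) ^ 2 := by positivity
  have hb1 : (h:ℝ) ^ 2 / B ≤ (h:ℝ) ^ 2 := div_le_self hhsq hBone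
  have hb2 : (h:ℝ) ^ 2 / B' ≤ (h:ℝ) ^ 2 := div_le_self hhsq hBone'
  rw [abs_le] at hc1 hc2
  have hemem : ((d, e) : ℕ × ℤ) ∈ E := by
    rw [hE, mem_product, mem_Icc, mem_Icc]
    refine ⟨⟨hd1, hdg⟩, ?_, ?_⟩
    · have : -((g:ℝ) + h ^ 2) ≤ e := by
        have : 0 ≤ ρ * d := by positivity
        have hg0 : (0:ℝ) ≤ g := Nat.cast_nonneg g
        nlinarith [hc1.2, hc2.1]
      exact_mod_cast this
    · have : (e:ℝ) ≤ (g:ℝ) + h ^ 2 := by
        have : ρ * d ≤ 1 * g := mul_le_mul hρ1.le hdgR hd0.le (by norm_num)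
        nlinarith [hc1.1, hc2.2]
      exact_mod_cast this
  have heq : (e:ℝ) = ρ * d := by
    by_contra hne'
    have f1 := hβE _ hemem hne'
    have f2 := hβE' _ hemem hne'
    simp only at f1 f2
    have f3 : |(e:ℝ) - ρ * d| ≤ ((h:ℝ) ^ 2 / B + (h:ℝ) ^ 2 / B') / 2 := by
      rw [abs_le]
      constructor
      · nlinarith [hc1.2, hc2.1]
      · nlinarith [hc1.1, hc2.2]
    linarith
  -- integrality
  have hint : (d:ℝ) * B - e * M = d * (B - ρ * M) := by rw [heq]; ring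
  have hlt : |(d:ℝ) * B - e * M| < 1 := by
    rw [hint, abs_mul, abs_of_pos hd0]
    have f1 : |B - ρ * M| ≤ (h:ℝ) ^ 2 / B := abs_le.mpr hc1
    have f2 : |B - ρ * M| < 1 / (g + 1) := lt_of_le_of_lt f1 hβg
    calc (d:ℝ) * |B - ρ * M| ≤ (g + 1) * |B - ρ * M| := mul_le_mul_of_nonneg_right (by linarith) (abs_nonneg _)
      _ < (g + 1) * (1 / (g + 1)) := mul_lt_mul_of_pos_left f2 (by positivity)
      _ = 1 := by field_simp
  have hz : (d:ℝ) * B - e * M = 0 := by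
    have f1 : (d:ℝ) * B - e * M = (((d:ℤ) * ((2 * b + h + 1 : ℕ) : ℤ) - e * ((2 * a + h + 1 : ℕ) : ℤ) : ℤ) : ℝ) := by
      rw [hB, hM]; push_cast; ring
    rw [f1] at hlt ⊢
    rw [← Int.cast_abs] at hlt
    have f2 : |(d:ℤ) * ((2 * b + h + 1 : ℕ) : ℤ) - e * ((2 * a + h + 1 : ℕ) : ℤ)| < 1 := by exact_mod_cast hlt
    have f3 := Int.abs_lt_one_iff.mp f2
    rw [f3]; simp
  rw [hint] at hz
  rcases mul_eq_zero.mp hz with h0 | h0
  · linarith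
  · exact hne (by linarith)

end Pool.Agent.helper91.D4
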