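import Mathlib
import Pool.Agent.helper91.CaseI1
import Pool.Agent.helper91.DZ

/-!
# Short upper blocks, part 3: the lower block is longer
-/

open Finset
open scoped Nat

namespace Pool.Agent.helper91.D4

lemma eventually_log_le {s c : ℝ} (hs : 0 < s) (hc : 0 < c) :
    ∃ n₀ : ℕ, ∀ n : ℕ, n₀ ≤ n → 1 + Real.log n ≤ c * (n:ℝ) ^ s := by
  have h1 : ∀ᶠ x : ℝ in Filter.atTop, ‖Real.log x‖ ≤ c / 2 * ‖x ^ s‖ :=
    (isLittleO_log_rpow_atTop hs).def (by positivity)
  have h2 : ∀ᶠ x : ℝ in Filter.atTop, 2 / c ≤ x ^ s := (tendsto_rpow_atTop hs).eventually_ge_atTop _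
  have h3 := (tendsto_natCast_atTop_atTop (R := ℝ)).eventually (h1.and h2)
  obtain ⟨n₀, hn₀⟩ := Filter.eventually_atTop.mp h3
  refine ⟨n₀, fun n hn => ?_⟩
  obtain ⟨h4, h5⟩ := hn₀ n hn
  have h6 : (0:ℝ) ≤ (n:ℝ) ^ s := by positivity
  rw [Real.norm_eq_abs, Real.norm_eq_abs, abs_of_nonneg (Real.log_natCast_nonneg n), abs_of_nonneg h6] at h4
  rw [div_le_iff₀ hc] at h5
  linarith

lemma caseIc_key (H₀ : ℕ) {C : ℝ} (hC : 0 < C) : ∃ n₀ : ℕ, ∀ n a h b k : ℕ, n₀ ≤ n → Sol a h b k → h < k → h < H₀ →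
    a + h ≤ n → (k:ℝ) ≤ C * (1 + Real.log n) →
    (n:ℝ) ^ (1 - 1 / (2 * ((H₀:ℝ) + 1))) < (b:ℝ) + 1 →
    (∀ y ∈ Ioc b (b + k), ∀ t : ℕ, t ^ 2 ∣ y → (t:ℝ) < (n:ℝ) ^ ((1 / (2 * ((H₀:ℝ) + 1))) / 8)) → False := by
  set e : ℝ := 1 / (2 * ((H₀:ℝ) + 1)) with he
  have hH0 : (0:ℝ) < (H₀:ℝ) + 1 := by positivity
  have he0 : 0 < e := by positivity
  obtain ⟨n₁, hn₁⟩ := eventually_log_le (s := e / 2) (c := 1 / (4 * C)) (by positivity) (by positivity)
  refine ⟨n₁ + 2, fun n a h b k hn hs hhk hhH hahn hkC hb hsq => ?_⟩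
  have hn0 : (0:ℝ) < n := by exact_mod_cast (by omega : 0 < n)
  have hn1 : (1:ℝ) < n := by exact_mod_cast (by omega : 1 < n)
  set l := Real.log n with hl
  have hl0 : 0 < l := Real.log_pos hn1
  have hk1 : 1 ≤ k := by omega
  have hk0 : (0:ℝ) < k := by exact_mod_cast hk1
  -- lower bound for the product of squarefree parts
  have hlow : (k:ℝ) * ((1 - 5 / 4 * e) * l) ≤ ∑ y ∈ Ioc b (b + k), Real.log (sqf y : ℝ) := by
    have h1 : ((Ioc b (b + k)).card : ℝ) = k := by simp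
    rw [← h1, ← nsmul_eq_mul]
    apply Finset.card_nsmul_le_sum
    intro y hy
    obtain ⟨t, ht1, _⟩ := sqf_spec y
    have hy' := mem_Ioc.mp hy
    have htb := hsq y hy t ⟨sqf y, ht1.symm⟩
    have ht0 : 0 < t := by
      rcases Nat.eq_zero_or_pos t with h0 | h0
      · rw [h0] at ht1; simp at ht1; omega
      · exact h0
    have ht0R : (0:ℝ) < t := by exact_mod_cast ht0
    have hsq0 : (0:ℝ) < (sqf y : ℝ) := by exact_mod_cast sqf_pos
    have hlogt : Real.log t ≤ e / 8 * l := by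
      rw [hl, ← Real.log_rpow hn0]
      exact Real.log_le_log ht0R htb.le
    have hlogy : (1 - e) * l ≤ Real.log y := by
      rw [hl, ← Real.log_rpow hn0]
      apply Real.log_le_log (by positivity)
      have : (b:ℝ) + 1 ≤ y := by exact_mod_cast hy'.1
      linarith
    have hyeq : Real.log y = 2 * Real.log t + Real.log (sqf y : ℝ) := by
      have : (y:ℝ) = (t:ℝ) ^ 2 * (sqf y : ℝ) := by exact_mod_cast ht1.symm
      rw [this, Real.log_mul (by positivity) hsq0.ne', Real.log_pow]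
      push_cast; ring
    nlinarith
  -- upper bound
  have hup : ∑ y ∈ Ioc b (b + k), Real.log (sqf y : ℝ) ≤ h * l + k * Real.log k + k * Real.log 4 := by
    have h1 : ∑ y ∈ Ioc b (b + k), Real.log (sqf y : ℝ) = Real.log ((∏ y ∈ Ioc b (b + k), sqf y : ℕ) : ℝ) := by
      push_cast
      rw [Real.log_prod (fun y _ => by have := sqf_pos (y := y); positivity)]
    rw [h1]
    have h2 : ∏ y ∈ Ioc b (b + k), sqf y ≤ sqf (blk b k) * (k ! * primorial k) :=
      Nat.le_of_dvd (Nat.mul_pos sqf_pos (Nat.mul_pos (Nat.factorial_pos _) (primorial_pos _))) (prod_sqf_dvd b k)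
    have h3 : sqf (blk b k) ≤ n ^ h := by
      rw [← hs.sqf_eq]
      calc sqf (blk a h) ≤ blk a h := sqf_le (blk_pos a h)
        _ ≤ (a + h) ^ h := blk_le a h
        _ ≤ n ^ h := Nat.pow_le_pow_left hahn h
    have h4 : sqf (blk b k) * (k ! * primorial k) ≤ n ^ h * (k ^ k * 4 ^ k) :=
      Nat.mul_le_mul h3 (Nat.mul_le_mul (Nat.factorial_le_pow k) (primorial_le_four_pow k))
    have h5 : (0:ℝ) < ((∏ y ∈ Ioc b (b + k), sqf y : ℕ) : ℝ) := by
      exact_mod_cast Finset.prod_pos (fun y _ => sqf_pos)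
    have h6 : ((∏ y ∈ Ioc b (b + k), sqf y : ℕ) : ℝ) ≤ (n:ℝ) ^ h * ((k:ℝ) ^ k * 4 ^ k) := by
      exact_mod_cast h2.trans h4
    have h7 := Real.log_le_log h5 h6
    rw [Real.log_mul (by positivity) (by positivity), Real.log_mul (by positivity) (by positivity),
      Real.log_pow, Real.log_pow, Real.log_pow] at h7
    rw [hl]; linarith
  have hhk' : (h:ℝ) ≤ k * (1 - 2 * e) := by
    have h1 : h * (H₀ + 1) ≤ k * H₀ := by nlinarith
    have h2 : (h:ℝ) * ((H₀:ℝ) + 1) ≤ k * H₀ := by exact_mod_cast h1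
    have h3 : 1 - 2 * e = H₀ / ((H₀:ℝ) + 1) := by rw [he]; field_simp; ring
    rw [h3, ← mul_div_assoc, le_div_iff₀ hH0]
    exact h2
  have h8 : (k:ℝ) * (3 / 4 * e * l) ≤ k * (Real.log k + Real.log 4) := by
    have := mul_le_mul_of_nonneg_right hhk' hl0.le
    nlinarith
  have h9 := le_of_mul_le_mul_left h8 hk0
  have h10 : Real.log k + Real.log 4 ≤ e / 2 * l := by
    rw [← Real.log_mul hk0.ne' (by norm_num), hl, ← Real.log_rpow hn0]
    apply Real.log_le_log (by positivity)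
    have h11 := hn₁ n (by omega)
    rw [← hl] at h11
    have h12 : C * (1 + l) ≤ C * (1 / (4 * C) * (n:ℝ) ^ (e / 2)) := mul_le_mul_of_nonneg_left h11 hC.le
    have h13 : C * (1 / (4 * C) * (n:ℝ) ^ (e / 2)) = (n:ℝ) ^ (e / 2) / 4 := by field_simp
    linarith
  have h14 : 0 < e * l := by positivity
  linarith

/-- Case Ic: the lower block is longer. -/
theorem caseIc (H₀ A : ℕ) (hA : 1 ≤ A) : DZ (fun m => ∃ a h b k, a + h = m ∧ Sol a h b k ∧ h < k ∧ h < H₀ ∧
    ∀ x ∈ Ioc a (a + h), ∀ t, t ^ 2 ∣ x → t ≤ A) := by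
  classical
  obtain ⟨C, hC1, hcmp⟩ := cmp
  have hC0 : (0:ℝ) < C := by linarith
  intro ε hε
  set e : ℝ := 1 / (2 * ((H₀:ℝ) + 1)) with he
  have hH0 : (0:ℝ) < (H₀:ℝ) + 1 := by positivity
  have he0 : 0 < e := by positivity
  have he1 : e ≤ 1 / 2 := by
    rw [he, div_le_div_iff₀ (by positivity) (by norm_num)]
    have : (0:ℝ) ≤ H₀ := Nat.cast_nonneg _
    linarith
  set C' : ℝ := C * (H₀ + 1) with hC'
  have hC'1 : 1 ≤ C' := by
    rw [hC']
    have : (0:ℝ) ≤ H₀ := Nat.cast_nonneg _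
    nlinarith
  obtain ⟨n₁, hn₁⟩ := caseIc_key H₀ (C := C') (by positivity)
  obtain ⟨n₂, hn₂⟩ := eventually_log_le (s := e / 64) (c := 1 / (2 * C')) (by positivity) (by positivity)
  set G : ℕ := (H₀ ! * A) ^ H₀ with hG
  have hlim : ∀ᶠ n : ℕ in Filter.atTop, 4 ≤ (n:ℝ) ^ (e / 8) :=
    ((tendsto_rpow_atTop (by positivity)).comp tendsto_natCast_atTop_atTop).eventually_ge_atTop _
  obtain ⟨n₃, hn₃⟩ := Filter.eventually_atTop.mp hlim
  have hlim2 : ∀ᶠ n : ℕ in Filter.atTop, (6 * (G + 1) * H₀ : ℝ) * (n:ℝ) ^ (-(e / 16)) < ε := by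
    have h1 : Filter.Tendsto (fun n : ℕ => (6 * (G + 1) * H₀ : ℝ) * (n:ℝ) ^ (-(e / 16))) Filter.atTop (nhds ((6 * (G + 1) * H₀ : ℝ) * 0)) :=
      ((tendsto_rpow_neg_atTop (by positivity)).comp tendsto_natCast_atTop_atTop).const_mul _
    rw [mul_zero] at h1
    exact h1.eventually (gt_mem_nhds hε)
  obtain ⟨n₄, hn₄⟩ := Filter.eventually_atTop.mp hlim2
  refine ⟨n₁ + n₂ + n₃ + n₄ + 3, fun n hn => ?_⟩
  have hn0 : (0:ℝ) < n := by exact_mod_cast (by omega : 0 < n)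
  have hn1 : (1:ℝ) ≤ n := by exact_mod_cast (by omega : 1 ≤ n)
  have hlog0 : 0 ≤ Real.log (n:ℝ) := Real.log_natCast_nonneg n
  set K : ℕ := ⌊C' * (1 + Real.log n)⌋₊ with hK
  have hKle : (K:ℝ) ≤ C' * (1 + Real.log n) := Nat.floor_le (by positivity)
  set B : ℕ := ⌊(n:ℝ) ^ (e / 8) / 2⌋₊ with hB
  have h4n := hn₃ n (by omega)
  have hBle : (B:ℝ) ≤ (n:ℝ) ^ (e / 8) / 2 := Nat.floor_le (by positivity)
  have hBge : (n:ℝ) ^ (e / 8) / 4 ≤ B := by
    have := Nat.lt_floor_add_one ((n:ℝ) ^ (e / 8) / 2)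
    rw [← hB] at this
    linarith
  have hB1 : 1 ≤ B := by
    have : (1:ℝ) ≤ B := by linarith
    exact_mod_cast this
  set N₁ : ℕ := ⌊(n:ℝ) ^ (1 - e)⌋₊ with hN₁
  set Y := (Ioc 0 n).filter (fun y => ∃ t ∈ Ioc B n, t ^ 2 ∣ y) with hY
  set Adm : Finset (ℕ × ℕ) := (range N₁ ×ˢ range (K + 1)) ∪
    (Y ×ˢ (range (K + 1) ×ˢ range (K + 1))).image (fun q => (q.1 - q.2.1, q.2.2)) with hAdm
  set F : Finset ((ℕ × ℕ) × (ℕ × ℕ)) := Adm ×ˢ (range (G + 1) ×ˢ range H₀) with hF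
  -- counting
  have hcount : cnt (fun m => ∃ a h b k, a + h = m ∧ Sol a h b k ∧ h < k ∧ h < H₀ ∧
      ∀ x ∈ Ioc a (a + h), ∀ t, t ^ 2 ∣ x → t ≤ A) n ≤ F.card := by
    rw [cnt_eq]
    set Sn := (Ioc 0 n).filter (fun m => ∃ a h b k, a + h = m ∧ Sol a h b k ∧ h < k ∧ h < H₀ ∧
      ∀ x ∈ Ioc a (a + h), ∀ t, t ^ 2 ∣ x → t ≤ A) with hSn
    have hex : ∀ m ∈ Sn, ∃ q : (ℕ × ℕ) × (ℕ × ℕ), q ∈ F ∧ ∃ a, a + q.2.2 = m ∧ 1 ≤ q.2.2 ∧
        blk a q.2.2 = q.2.1 ^ 2 * sqf (blk q.1.1 q.1.2) := by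
      intro m hm
      rw [hSn, mem_filter, mem_Ioc] at hm
      obtain ⟨⟨hm0, hmn⟩, a, h, b, k, hahm, hs, hhk, hhH, hsqA⟩ := hm
      obtain ⟨g, hg, hgsq⟩ := sqf_spec (blk a h)
      refine ⟨((b, k), (g, h)), ?_, a, hahm, hs.1, ?_⟩
      · rw [hF, mem_product, mem_product, mem_range, mem_range]
        refine ⟨?_, ?_, hhH⟩
        · -- admissibility
          have hh0 : (0:ℝ) < h := by exact_mod_cast hs.1
          have hkC : (k:ℝ) ≤ C' * (1 + Real.log n) := by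
            have h1 := hcmp a h b k hs
            rw [hahm] at h1
            have h2 : Real.log ((m:ℝ) / h) ≤ Real.log n := by
              apply Real.log_le_log
              · have : (0:ℝ) < m := by exact_mod_cast hm0
                positivity
              · rw [div_le_iff₀ hh0]
                have h3 : (1:ℝ) ≤ h := by exact_mod_cast hs.1
                have h4 : (m:ℝ) ≤ n := by exact_mod_cast hmn
                nlinarith
            have h5 : 0 ≤ Real.log ((m:ℝ) / h) := Real.log_nonneg (by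
              rw [le_div_iff₀ hh0]
              have : (h:ℝ) ≤ m := by exact_mod_cast (by omega : h ≤ m)
              linarith)
            refine h1.trans ?_
            rw [hC']
            have h6 : (h:ℝ) ≤ (H₀:ℝ) + 1 := by
              have : (h:ℝ) ≤ H₀ := by exact_mod_cast hhH.le
              linarith
            apply mul_le_mul (mul_le_mul_of_nonneg_left h6 hC0.le) (by linarith) (by linarith) (by positivity)
          have hkK : k ≤ K := Nat.le_floor hkC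
          rw [hAdm, mem_union]
          by_cases hb : (n:ℝ) ^ (1 - e) < (b:ℝ) + 1
          · right
            have hnot := hn₁ n a h b k (by omega) hs hhk hhH (by omega) hkC hb
            have hex : ∃ y ∈ Ioc b (b + k), ∃ t : ℕ, t ^ 2 ∣ y ∧ (n:ℝ) ^ (e / 8) ≤ (t:ℝ) := by
              by_contra hcon
              push Not at hcon
              exact hnot hcon
            obtain ⟨y, hy, t, hty, htn⟩ := hex
            rw [mem_Ioc] at hy
            rw [mem_image]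
            refine ⟨(y, (y - b, k)), ?_, ?_⟩
            · rw [mem_product, mem_product, mem_range, mem_range, hY, mem_filter, mem_Ioc]
              have hyn : y ≤ n := by have := hs.2.1; omega
              refine ⟨⟨⟨by omega, hyn⟩, t, ?_, hty⟩, ?_, ?_⟩
              · rw [mem_Ioc]
                constructor
                · have : (B:ℝ) < t := by linarith
                  exact_mod_cast this
                · have h1 : t ^ 2 ≤ y := Nat.le_of_dvd (by omega) hty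
                  nlinarith
              · simp only; omega
              · simp only; omega
            · simp only [Prod.mk.injEq, and_true]; omega
          · left
            push Not at hb
            rw [mem_product, mem_range, mem_range]
            refine ⟨?_, by simp only; omega⟩
            have : b + 1 ≤ N₁ := by
              apply Nat.le_floor
              push_cast; exact hb
            simp only; omega
        · have h1 := g_le hsqA hgsq hg
          have h2 : (h ! * A) ^ h ≤ G := by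
            rw [hG]
            have h3 : h ! * A ≤ H₀ ! * A := Nat.mul_le_mul_right _ (Nat.factorial_le hhH.le)
            have h4 : 1 ≤ H₀ ! * A := Nat.mul_pos (Nat.factorial_pos _) hA
            calc (h ! * A) ^ h ≤ (H₀ ! * A) ^ h := Nat.pow_le_pow_left h3 h
              _ ≤ (H₀ ! * A) ^ H₀ := Nat.pow_le_pow_right h4 hhH.le
          simp only; omega
      · simp only
        rw [← hs.sqf_eq]; exact hg.symm
    choose! f hf using hex
    apply Finset.card_le_card_of_injOn f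
    · intro m hm
      exact (hf m hm).1
    · intro m hm m' hm' heq
      obtain ⟨_, a, ha1, ha2, ha3⟩ := hf m hm
      obtain ⟨_, a', ha1', ha2', ha3'⟩ := hf m' hm'
      rw [← heq] at ha1' ha2' ha3'
      have h1 : blk a (f m).2.2 = blk a' (f m).2.2 := by rw [ha3, ha3']
      have h2 := (blk_strictMono ha2).injective h1
      omega
  -- size of F
  have hYcard : (Y.card : ℝ) ≤ 4 * (n:ℝ) ^ (1 - e / 8) := by
    refine (sq_count n hB1).trans ?_
    have hB0 : (0:ℝ) < B := by exact_mod_cast hB1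
    rw [div_le_iff₀ hB0]
    have h1 : (n:ℝ) = (n:ℝ) ^ (1 - e / 8) * (n:ℝ) ^ (e / 8) := by
      rw [← Real.rpow_add hn0]
      have : 1 - e / 8 + e / 8 = 1 := by ring
      rw [this, Real.rpow_one]
    have h2 : (0:ℝ) ≤ (n:ℝ) ^ (1 - e / 8) := by positivity
    nlinarith
  have hN₁le : (N₁:ℝ) ≤ (n:ℝ) ^ (1 - e / 8) := by
    calc (N₁:ℝ) ≤ (n:ℝ) ^ (1 - e) := Nat.floor_le (by positivity)
      _ ≤ _ := Real.rpow_le_rpow_of_exponent_le hn1 (by linarith)
  have hK1 : (1:ℝ) ≤ (K:ℝ) + 1 := by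
    have : (0:ℝ) ≤ K := Nat.cast_nonneg _
    linarith
  have hnpow : (0:ℝ) ≤ (n:ℝ) ^ (1 - e / 8) := by positivity
  have hAdmcard : (Adm.card : ℝ) ≤ 5 * (n:ℝ) ^ (1 - e / 8) * ((K:ℝ) + 1) ^ 2 := by
    have h1 : Adm.card ≤ N₁ * (K + 1) + Y.card * ((K + 1) * (K + 1)) := by
      rw [hAdm]
      refine (Finset.card_union_le _ _).trans ?_
      apply add_le_add
      · rw [Finset.card_product, Finset.card_range, Finset.card_range]
      · refine Finset.card_image_le.trans ?_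
        rw [Finset.card_product, Finset.card_product, Finset.card_range]
    have h2 : (Adm.card : ℝ) ≤ N₁ * ((K:ℝ) + 1) + Y.card * (((K:ℝ) + 1) * ((K:ℝ) + 1)) := by exact_mod_cast h1
    have h3 : (N₁:ℝ) * ((K:ℝ) + 1) ≤ (n:ℝ) ^ (1 - e / 8) * ((K:ℝ) + 1) ^ 2 := by
      apply mul_le_mul hN₁le _ (by positivity) hnpow
      nlinarith
    have h4 : (Y.card : ℝ) * (((K:ℝ) + 1) * ((K:ℝ) + 1)) ≤ 4 * (n:ℝ) ^ (1 - e / 8) * ((K:ℝ) + 1) ^ 2 := by
      have := mul_le_mul_of_nonneg_right hYcard (by positivity : (0:ℝ) ≤ ((K:ℝ) + 1) * ((K:ℝ) + 1))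
      calc _ ≤ _ := this
        _ = _ := by ring
    linarith
  have hKn : (K:ℝ) + 1 ≤ (n:ℝ) ^ (e / 64) := by
    have h1 := hn₂ n (by omega)
    have h2 : C' * (1 + Real.log n) ≤ C' * (1 / (2 * C') * (n:ℝ) ^ (e / 64)) := mul_le_mul_of_nonneg_left h1 (by linarith)
    have h3 : C' * (1 / (2 * C') * (n:ℝ) ^ (e / 64)) = (n:ℝ) ^ (e / 64) / 2 := by
      have : C' ≠ 0 := by linarith
      field_simp
    have h4 : (1:ℝ) ≤ C' * (1 + Real.log n) := by nlinarith
    linarith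
  have hK2 : ((K:ℝ) + 1) ^ 2 ≤ (n:ℝ) ^ (e / 32) := by
    calc ((K:ℝ) + 1) ^ 2 ≤ ((n:ℝ) ^ (e / 64)) ^ 2 := pow_le_pow_left₀ (by positivity) hKn 2
      _ = _ := by
        rw [← Real.rpow_natCast, ← Real.rpow_mul hn0.le]
        congr 1; push_cast; ring
  have hfin : (Adm.card : ℝ) ≤ 5 * ((n:ℝ) ^ (-(e / 16)) * n) := by
    calc (Adm.card : ℝ) ≤ 5 * (n:ℝ) ^ (1 - e / 8) * ((K:ℝ) + 1) ^ 2 := hAdmcard
      _ ≤ 5 * (n:ℝ) ^ (1 - e / 8) * (n:ℝ) ^ (e / 32) := mul_le_mul_of_nonneg_left hK2 (by positivity)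
      _ = 5 * (n:ℝ) ^ (1 - e / 8 + e / 32) := by rw [Real.rpow_add hn0]; ring
      _ ≤ 5 * (n:ℝ) ^ (-(e / 16) + 1) := by
          apply mul_le_mul_of_nonneg_left _ (by norm_num)
          exact Real.rpow_le_rpow_of_exponent_le hn1 (by linarith)
      _ = 5 * ((n:ℝ) ^ (-(e / 16)) * n) := by rw [Real.rpow_add hn0, Real.rpow_one]
  have hFcard : (F.card : ℝ) = Adm.card * (((G:ℝ) + 1) * H₀) := by
    rw [hF, Finset.card_product, Finset.card_product, Finset.card_range, Finset.card_range]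
    push_cast; ring
  have h4 := hn₄ n (by omega)
  have hcount' : (cnt (fun m => ∃ a h b k, a + h = m ∧ Sol a h b k ∧ h < k ∧ h < H₀ ∧
      ∀ x ∈ Ioc a (a + h), ∀ t, t ^ 2 ∣ x → t ≤ A) n : ℝ) ≤ F.card := by exact_mod_cast hcount
  refine hcount'.trans ?_
  rw [hFcard]
  have hnn : (0:ℝ) ≤ (n:ℝ) ^ (-(e / 16)) := by positivity
  calc (Adm.card : ℝ) * (((G:ℝ) + 1) * H₀) ≤ 5 * ((n:ℝ) ^ (-(e / 16)) * n) * (((G:ℝ) + 1) * H₀) :=
        mul_le_mul_of_nonneg_right hfin (by positivity)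
    _ ≤ (6 * (G + 1) * H₀ : ℝ) * (n:ℝ) ^ (-(e / 16)) * n := by
        have : (0:ℝ) ≤ ((G:ℝ) + 1) * H₀ * ((n:ℝ) ^ (-(e / 16)) * n) := by positivity
        nlinarith
    _ ≤ ε * n := mul_le_mul_of_nonneg_right h4.le hn0.le

end Pool.Agent.helper91.D4
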