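import Mathlib
import Pool.Agent.helper91.CaseII
import Pool.Agent.helper91.CaseIb
import Pool.Agent.helper91.CaseIc

/-!
# The exceptional set has density zero
-/

open Finset
open scoped Nat

namespace Pool.Agent.helper91.D4

/-- solutions with equal block lengths at least two -/
lemma caseIb (h w z : ℕ) (hh : 2 ≤ h) (hw : 0 < w) (hwz : w < z) :
    DZ (fun m => ∃ a, a + h = m ∧ ∃ b, z ^ 2 * blk b h = w ^ 2 * blk a h) := by
  apply DZ.of_gaps
  intro g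
  obtain ⟨a₀, ha₀⟩ := gaps hh hw hwz g
  refine ⟨a₀ + h, ?_⟩
  rintro m m' ⟨a, ha, hab⟩ ⟨a', ha', hab'⟩ h1 h2
  have := ha₀ a a' hab hab' (by omega) (by omega)
  omega

/-- **Case I**: bounded upper block. -/
theorem caseI (H₀ : ℕ) : DZ (fun m => ∃ a h b k, a + h = m ∧ Sol a h b k ∧ h < H₀ ∧ ¬ (h = 1 ∧ k = 1)) := by
  classical
  intro ε hε
  obtain ⟨A, hA⟩ := exists_nat_gt (2 * (H₀:ℝ) / ε)
  have hA0 : (0:ℝ) < A := lt_of_le_of_lt (by positivity) hA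
  have hA1 : 1 ≤ A := by exact_mod_cast hA0
  set G : ℕ := (H₀ ! * A) ^ H₀ with hG
  set M₀ : ℕ := 2 ^ H₀ * G ^ 2 + 2 with hM₀
  -- the density zero part
  have hdz1 : DZ (fun m => ∃ q ∈ (Ico 2 H₀) ×ˢ ((Icc 1 G) ×ˢ (Icc 1 G)), q.2.1 < q.2.2 ∧
      ∃ a, a + q.1 = m ∧ ∃ b, q.2.2 ^ 2 * blk b q.1 = q.2.1 ^ 2 * blk a q.1) := by
    apply DZ.exists
    intro q hq
    rw [mem_product, mem_product, mem_Ico, mem_Icc, mem_Icc] at hq
    by_cases hlt : q.2.1 < q.2.2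
    · refine (caseIb q.1 q.2.1 q.2.2 hq.1.1 (by omega) hlt).mono ?_
      rintro m ⟨_, h⟩; exact h
    · refine (caseIb q.1 1 2 hq.1.1 (by omega) (by omega)).mono ?_
      rintro m ⟨h, _⟩; exact absurd h hlt
  have hdz2 := caseIc H₀ A hA1
  have hdz3 : DZ (fun m => m ≤ M₀) := by
    apply DZ.of_gaps
    intro g
    exact ⟨M₀, fun a a' h1 h2 h3 h4 => by omega⟩
  obtain ⟨n₀, hn₀⟩ := (hdz1.or (hdz2.or hdz3)) (ε / 2) (by positivity)
  refine ⟨n₀, fun n hn => ?_⟩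
  have h1 := hn₀ n hn
  -- numbers near an integer with a large square divisor
  set E : ℕ → Prop := fun m => ∃ x, 0 < x ∧ x ≤ m ∧ m < x + H₀ ∧ ∃ t, A < t ∧ t ^ 2 ∣ x with hE
  have hEcard : (cnt E n : ℝ) ≤ ε / 2 * n := by
    have h2 : cnt E n ≤ ((range H₀).biUnion (fun i =>
        ((Ioc 0 n).filter (fun x => ∃ t ∈ Ioc A n, t ^ 2 ∣ x)).image (fun x => x + i))).card := by
      apply cnt_le_card
      rintro m hm0 hmn ⟨x, hx0, hxm, hmx, t, hAt, htx⟩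
      rw [mem_biUnion]
      refine ⟨m - x, by rw [mem_range]; omega, ?_⟩
      rw [mem_image]
      refine ⟨x, ?_, by omega⟩
      rw [mem_filter, mem_Ioc]
      refine ⟨⟨hx0, by omega⟩, t, ?_, htx⟩
      rw [mem_Ioc]
      refine ⟨hAt, ?_⟩
      have := Nat.le_of_dvd hx0 htx
      nlinarith
    have h3 : ((range H₀).biUnion (fun i =>
        ((Ioc 0 n).filter (fun x => ∃ t ∈ Ioc A n, t ^ 2 ∣ x)).image (fun x => x + i))).card ≤
        H₀ * ((Ioc 0 n).filter (fun x => ∃ t ∈ Ioc A n, t ^ 2 ∣ x)).card := by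
      refine (Finset.card_biUnion_le).trans ?_
      calc _ ≤ ∑ i ∈ range H₀, ((Ioc 0 n).filter (fun x => ∃ t ∈ Ioc A n, t ^ 2 ∣ x)).card :=
            Finset.sum_le_sum (fun i _ => Finset.card_image_le)
        _ = _ := by simp
    have h4 := sq_count n hA1
    have h5 : (cnt E n : ℝ) ≤ H₀ * (((Ioc 0 n).filter (fun x => ∃ t ∈ Ioc A n, t ^ 2 ∣ x)).card : ℝ) := by
      exact_mod_cast h2.trans h3
    have h6 : (H₀:ℝ) * (n / A) ≤ ε / 2 * n := by
      rw [div_lt_iff₀ hε] at hA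
      have : (H₀:ℝ) * (n / A) = (H₀ / A) * n := by ring
      rw [this]
      apply mul_le_mul_of_nonneg_right _ (Nat.cast_nonneg n)
      rw [div_le_iff₀ hA0]; linarith
    exact h5.trans ((mul_le_mul_of_nonneg_left h4 (Nat.cast_nonneg _)).trans h6)
  have hsplit := cnt_le_of_or (n := n) (S := fun m => ∃ a h b k, a + h = m ∧ Sol a h b k ∧ h < H₀ ∧ ¬ (h = 1 ∧ k = 1))
    (T := E) (U := fun m => (∃ q ∈ (Ico 2 H₀) ×ˢ ((Icc 1 G) ×ˢ (Icc 1 G)), q.2.1 < q.2.2 ∧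
      ∃ a, a + q.1 = m ∧ ∃ b, q.2.2 ^ 2 * blk b q.1 = q.2.1 ^ 2 * blk a q.1) ∨
      ((∃ a h b k, a + h = m ∧ Sol a h b k ∧ h < k ∧ h < H₀ ∧ ∀ x ∈ Ioc a (a + h), ∀ t, t ^ 2 ∣ x → t ≤ A) ∨ m ≤ M₀)) (by
    rintro m hm0 hmn ⟨a, h, b, k, hahm, hs, hhH, hne⟩
    by_cases hEm : E m
    · exact Or.inl hEm
    right
    by_cases hmM : m ≤ M₀
    · exact Or.inr (Or.inr hmM)
    push Not at hmM
    have hh1 := hs.1
    have hA' : ∀ x ∈ Ioc a (a + h), ∀ t, t ^ 2 ∣ x → t ≤ A := by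
      intro x hx t htx
      rw [mem_Ioc] at hx
      by_contra hlt
      push Not at hlt
      exact hEm ⟨x, by omega, by omega, by omega, t, hlt, htx⟩
    have hha : h ≤ a := hs.two_mul_le (by omega)
    have hGh : (h ! * A) ^ h ≤ G := by
      rw [hG]
      have h3 : h ! * A ≤ H₀ ! * A := Nat.mul_le_mul_right _ (Nat.factorial_le hhH.le)
      have h4 : 1 ≤ H₀ ! * A := Nat.mul_pos (Nat.factorial_pos _) hA1
      calc (h ! * A) ^ h ≤ (H₀ ! * A) ^ h := Nat.pow_le_pow_left h3 h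
        _ ≤ (H₀ ! * A) ^ H₀ := Nat.pow_le_pow_right h4 hhH.le
    rcases Nat.lt_trichotomy k h with hkh | hkh | hkh
    · -- Case Ia
      exfalso
      have h2 := caseIa hs hkh hha hA'
      have h3 : 2 ^ h * ((h ! * A) ^ h) ^ 2 ≤ 2 ^ H₀ * G ^ 2 :=
        Nat.mul_le_mul (Nat.pow_le_pow_right (by norm_num) hhH.le) (Nat.pow_le_pow_left hGh 2)
      omega
    · -- Case Ib
      subst hkh
      left
      have hk2 : 2 ≤ k := by
        rcases Nat.lt_or_ge k 2 with h2 | h2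
        · exfalso; apply hne; omega
        · exact h2
      obtain ⟨z, hz, hzsq⟩ := sqf_spec (blk a k)
      obtain ⟨w, hw, hwsq⟩ := sqf_spec (blk b k)
      rw [← hs.sqf_eq] at hw
      have hzG : z ≤ G := (g_le hA' hzsq hz).trans hGh
      have hsqpos : 0 < sqf (blk a k) := sqf_pos
      have hw0 : 0 < w := by
        rcases Nat.eq_zero_or_pos w with h0 | h0
        · have := blk_pos b k
          rw [← hw, h0] at this; simp at this
        · exact h0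
      have hblt : blk b k < blk a k := by
        apply blk_strictMono hs.1
        have := hs.2.1; omega
      have hwz : w < z := by
        by_contra hge
        push Not at hge
        have : z ^ 2 * sqf (blk a k) ≤ w ^ 2 * sqf (blk a k) := Nat.mul_le_mul_right _ (Nat.pow_le_pow_left hge 2)
        omega
      refine ⟨(k, (w, z)), ?_, hwz, a, hahm, b, ?_⟩
      · rw [mem_product, mem_product, mem_Ico, mem_Icc, mem_Icc]
        exact ⟨⟨hk2, hhH⟩, ⟨hw0, by simp only; omega⟩, ⟨by simp only; omega, hzG⟩⟩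
      · simp only
        rw [← hw]
        nth_rewrite 2 [← hz]
        ring
    · -- Case Ic
      right; left
      exact ⟨a, h, b, k, hahm, hs, hkh, hhH, hA'⟩)
  linarith

/-- the exceptional integers -/
def Bad (m : ℕ) : Prop := ∃ a h b k, a + h = m ∧ Sol a h b k ∧ ¬ (h = 1 ∧ k = 1)

/-- **Main theorem**: the exceptional set has density zero. -/
theorem bad_density_zero : DZ Bad := by
  classical
  intro ε₀ hε₀
  set ε : ℝ := min 1 (ε₀ / 4) with hε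
  have hε0 : 0 < ε := by rw [hε]; positivity
  have hε1 : ε ≤ 1 := min_le_left _ _
  have hε2 : ε ≤ ε₀ / 4 := min_le_right _ _
  obtain ⟨δ, hδ0, hδ1, i₀, n₁, hn₁⟩ := typ_count hε0 (show (0:ℝ) < 1 / 100 by norm_num)
  obtain ⟨n₂, hn₂⟩ := caseII_det hε0 hε1 hδ0 hδ1
  obtain ⟨m₀, hm₀⟩ := caseIII hδ0
  obtain ⟨n₃, hn₃⟩ := caseI (2 ^ (i₀ + 10)) ε hε0
  obtain ⟨n₄, hn₄⟩ := exists_nat_gt ((m₀:ℝ) / ε)
  refine ⟨n₁ + n₂ + n₃ + n₄ + 1, fun n hn => ?_⟩
  have hT := hn₁ n (by omega)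
  have hI := hn₃ n (by omega)
  have hn0 : (0:ℝ) < n := by exact_mod_cast (by omega : 0 < n)
  have hm₀n : (m₀:ℝ) < ε * n := by
    rw [div_lt_iff₀ hε0] at hn₄
    have : (n₄:ℝ) ≤ n := by exact_mod_cast (by omega : n₄ ≤ n)
    nlinarith
  set T : ℕ → Prop := Typ n (Nat.sqrt n) ⌊(n:ℝ) ^ (1 / 2 + 2 * δ)⌋₊ i₀ (1 / 100) with hTdef
  have h1 : (cnt (fun m => (m:ℝ) ≤ ε * n) n : ℝ) ≤ ε * n := by
    have h2 : cnt (fun m => (m:ℝ) ≤ ε * n) n ≤ (Ioc 0 ⌊ε * n⌋₊).card := by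
      apply cnt_le_card
      intro m hm0 _ hm
      rw [mem_Ioc]
      exact ⟨hm0, Nat.le_floor hm⟩
    rw [Nat.card_Ioc, Nat.sub_zero] at h2
    calc (cnt (fun m => (m:ℝ) ≤ ε * n) n : ℝ) ≤ (⌊ε * n⌋₊ : ℝ) := by exact_mod_cast h2
      _ ≤ _ := Nat.floor_le (by positivity)
  have h2 : (cnt (fun m => ¬ T m) n : ℝ) ≤ ε * n := by
    rw [cnt_eq]; convert hT
  have h3 := cnt_le_of_or (n := n) (S := Bad) (T := fun m => (m:ℝ) ≤ ε * n)
    (U := fun m => ¬ T m ∨ (∃ a h b k, a + h = m ∧ Sol a h b k ∧ h < 2 ^ (i₀ + 10) ∧ ¬ (h = 1 ∧ k = 1))) (by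
    rintro m hm0 hmn ⟨a, h, b, k, hahm, hs, hne⟩
    by_cases hm : (m:ℝ) ≤ ε * n
    · exact Or.inl hm
    push Not at hm
    right
    by_cases hTm : T m
    swap
    · exact Or.inl hTm
    right
    refine ⟨a, h, b, k, hahm, hs, ?_, hne⟩
    by_contra hlt
    push Not at hlt
    by_cases hL : ((max h k : ℕ) : ℝ) ≤ (n:ℝ) ^ (1 / 2 + δ)
    · exact hn₂ n i₀ m (by omega) hTm hm hmn a h b k hahm hs hlt hL
    · push Not at hL
      refine hm₀ a h b k hs ?_ ?_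
      · rw [hahm]
        have : (m₀:ℝ) < m := hm₀n.trans hm
        exact_mod_cast this.le
      · rw [hahm]
        refine le_trans ?_ hL.le
        apply Real.rpow_le_rpow (by positivity) (by exact_mod_cast hmn) (by positivity))
  have h4 : (cnt (fun m => ¬ T m ∨ (∃ a h b k, a + h = m ∧ Sol a h b k ∧ h < 2 ^ (i₀ + 10) ∧ ¬ (h = 1 ∧ k = 1))) n : ℝ) ≤
      cnt (fun m => ¬ T m) n + cnt (fun m => ∃ a h b k, a + h = m ∧ Sol a h b k ∧ h < 2 ^ (i₀ + 10) ∧ ¬ (h = 1 ∧ k = 1)) n := by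
    exact_mod_cast cnt_or (fun m => ¬ T m) (fun m => ∃ a h b k, a + h = m ∧ Sol a h b k ∧ h < 2 ^ (i₀ + 10) ∧ ¬ (h = 1 ∧ k = 1)) n
  have h5 : ε * n ≤ ε₀ / 4 * n := mul_le_mul_of_nonneg_right hε2 hn0.le
  have h6 : 0 < ε₀ * n := by positivity
  linarith

end Pool.Agent.helper91.D4
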