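import Mathlib

/-!
# The density of the squarefree integers is `6/π^2`
-/

open Finset Filter Topology
open scoped ArithmeticFunction.Moebius ArithmeticFunction.zeta

namespace Pool.Agent.helper91.SqfreeDensity

lemma sum_moebius_divisors {m : ℕ} : ∑ e ∈ m.divisors, (μ e : ℝ) = if m = 1 then 1 else 0 := by
  have := congrArg (fun f => f m) ArithmeticFunction.moebius_mul_coe_zeta
  simp only [ArithmeticFunction.coe_mul_zeta_apply, ArithmeticFunction.one_apply] at this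
  exact_mod_cast this

lemma dvd_iff_sq_dvd {t w d : ℕ} (ht : t ≠ 0) (hw : Squarefree w) : d ^ 2 ∣ t ^ 2 * w ↔ d ∣ t := by
  constructor
  · intro h
    have hd : d ≠ 0 := by
      rintro rfl
      have h0 : t ^ 2 * w = 0 := by simpa using h
      exact (mul_ne_zero (pow_ne_zero 2 ht) hw.ne_zero) h0
    rw [← Nat.factorization_prime_le_iff_dvd hd ht]
    intro p hp
    have h1 := (Nat.factorization_prime_le_iff_dvd (pow_ne_zero 2 hd) (mul_ne_zero (pow_ne_zero 2 ht) hw.ne_zero)).mpr h p hp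
    rw [Nat.factorization_mul (pow_ne_zero 2 ht) hw.ne_zero, Nat.factorization_pow, Nat.factorization_pow] at h1
    simp only [Finsupp.smul_apply, smul_eq_mul, Finsupp.add_apply] at h1
    have h2 := hw.natFactorization_le_one p
    omega
  · intro h
    exact (pow_dvd_pow_of_dvd h 2).mul_right w

lemma indicator_eq {n m : ℕ} (hm : 1 ≤ m) (hmn : m ≤ n) :
    (if Squarefree m then (1:ℝ) else 0) = ∑ d ∈ Icc 1 n, if d ^ 2 ∣ m then (μ d : ℝ) else 0 := by
  obtain ⟨w, t, h1, h2⟩ := Nat.sq_mul_squarefree m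
  have ht : t ≠ 0 := by rintro rfl; simp at h1; omega
  rw [← Finset.sum_filter]
  have h3 : (Icc 1 n).filter (fun d => d ^ 2 ∣ m) = t.divisors := by
    ext d
    rw [mem_filter, mem_Icc, Nat.mem_divisors]
    rw [← h1, dvd_iff_sq_dvd ht h2]
    constructor
    · rintro ⟨_, h⟩; exact ⟨h, ht⟩
    · rintro ⟨h, _⟩
      have hd1 : 1 ≤ d := Nat.pos_of_dvd_of_pos h (Nat.pos_of_ne_zero ht)
      have hdt : d ≤ t := Nat.le_of_dvd (Nat.pos_of_ne_zero ht) h
      have : t ≤ t ^ 2 * w := by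
        have hw : 1 ≤ w := Nat.pos_of_ne_zero h2.ne_zero
        nlinarith [Nat.pos_of_ne_zero ht, Nat.mul_le_mul (Nat.pos_of_ne_zero ht) hw, sq_nonneg t]
      exact ⟨⟨hd1, by omega⟩, h⟩
  rw [h3, sum_moebius_divisors]
  have h4 : Squarefree m ↔ t = 1 := by
    constructor
    · intro hsq
      have : t * t ∣ m := ⟨w, by rw [← h1]; ring⟩
      have := hsq t this
      exact Nat.isUnit_iff.mp this
    · rintro rfl
      rw [← h1]; simpa using h2
  simp only [h4]

lemma card_eq (n : ℕ) : (((Icc 1 n).filter Squarefree).card : ℝ) = ∑' d : ℕ, (μ d : ℝ) * ((n / d ^ 2 : ℕ) : ℝ) := by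
  have h1 : (((Icc 1 n).filter Squarefree).card : ℝ) = ∑ d ∈ Icc 1 n, (μ d : ℝ) * ((n / d ^ 2 : ℕ) : ℝ) := by
    rw [Finset.card_filter]
    push_cast
    rw [Finset.sum_congr rfl (fun m hm => indicator_eq (n := n) (mem_Icc.mp hm).1 (mem_Icc.mp hm).2), Finset.sum_comm]
    refine Finset.sum_congr rfl (fun d _ => ?_)
    rw [← Finset.sum_filter, Finset.sum_const, nsmul_eq_mul]
    have : Icc 1 n = Ioc 0 n := by ext x; simp only [mem_Icc, mem_Ioc]; omega
    rw [this, Nat.Ioc_filter_dvd_card_eq_div]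
    ring
  rw [h1, tsum_eq_sum]
  intro d hd
  rw [mem_Icc, not_and_or] at hd
  rcases hd with hd | hd
  · have : d = 0 := by omega
    rw [this]; simp
  · have : n / d ^ 2 = 0 := by
      apply Nat.div_eq_of_lt
      nlinarith
    rw [this]; simp

lemma moebius_abs_le (d : ℕ) : |(μ d : ℝ)| ≤ 1 := by
  have := ArithmeticFunction.abs_moebius_le_one (n := d)
  exact_mod_cast this

lemma tendsto_div (D : ℕ) : Tendsto (fun n : ℕ => ((n / D : ℕ) : ℝ) / n) atTop (𝓝 (1 / D)) := by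
  rcases Nat.eq_zero_or_pos D with rfl | hD
  · simp
  have hD0 : (0:ℝ) < D := by exact_mod_cast hD
  have h1 : Tendsto (fun n : ℕ => (1:ℝ) / D - 1 / n) atTop (𝓝 (1 / D - 0)) :=
    tendsto_const_nhds.sub tendsto_one_div_atTop_nhds_zero_nat
  rw [sub_zero] at h1
  refine tendsto_of_tendsto_of_tendsto_of_le_of_le' h1 tendsto_const_nhds ?_ ?_
  · filter_upwards [eventually_ge_atTop 1] with n hn
    have hn0 : (0:ℝ) < n := by exact_mod_cast hn
    rw [le_div_iff₀ hn0]
    have h2 := Nat.lt_floor_add_one ((n:ℝ) / D)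
    rw [Nat.floor_div_eq_div] at h2
    have : (1 / (D:ℝ) - 1 / n) * n = n / D - 1 := by field_simp
    rw [this]; linarith
  · filter_upwards [eventually_ge_atTop 1] with n hn
    have hn0 : (0:ℝ) < n := by exact_mod_cast hn
    rw [div_le_iff₀ hn0]
    have : ((n / D : ℕ) : ℝ) ≤ n / D := Nat.cast_div_le
    calc ((n / D : ℕ) : ℝ) ≤ n / D := this
      _ = _ := by ring

lemma tsum_moebius : ∑' d : ℕ, (μ d : ℝ) * (1 / (d:ℝ) ^ 2) = 6 / Real.pi ^ 2 := by
  have h1 := ArithmeticFunction.LSeries_zeta_mul_Lseries_moebius (s := 2) (by norm_num)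
  rw [ArithmeticFunction.LSeries_zeta_eq_riemannZeta (by norm_num), riemannZeta_two] at h1
  have h2 : LSeries (fun n => ((μ n : ℤ) : ℂ)) 2 = ((∑' d : ℕ, (μ d : ℝ) * (1 / (d:ℝ) ^ 2) : ℝ) : ℂ) := by
    rw [LSeries, Complex.ofReal_tsum]
    refine tsum_congr (fun d => ?_)
    rw [LSeries.term_def]
    split_ifs with hd
    · subst hd; simp
    · push_cast
      have : ((d:ℂ)) ^ (2:ℂ) = (d:ℂ) ^ (2:ℕ) := by
        rw [← Complex.cpow_natCast]; norm_num
      rw [this]
      ring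
  have h3 : ((Real.pi ^ 2 / 6 * (∑' d : ℕ, (μ d : ℝ) * (1 / (d:ℝ) ^ 2)) : ℝ) : ℂ) = 1 := by
    rw [Complex.ofReal_mul, ← h2]
    push_cast
    exact h1
  have h4 : Real.pi ^ 2 / 6 * (∑' d : ℕ, (μ d : ℝ) * (1 / (d:ℝ) ^ 2)) = 1 := by exact_mod_cast h3
  have hpi : Real.pi ^ 2 ≠ 0 := pow_ne_zero 2 Real.pi_ne_zero
  field_simp at h4 ⊢
  linarith

/-- **Density of the squarefree integers.** -/
theorem sqfree_density :
    Tendsto (fun n : ℕ => (((Icc 1 n).filter Squarefree).card : ℝ) / n) atTop (𝓝 (6 / Real.pi ^ 2)) := by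
  have h1 : ∀ n : ℕ, (((Icc 1 n).filter Squarefree).card : ℝ) / n =
      ∑' d : ℕ, (μ d : ℝ) * (((n / d ^ 2 : ℕ) : ℝ) / n) := by
    intro n
    rw [card_eq, ← tsum_div_const]
    refine tsum_congr (fun d => ?_)
    ring
  simp_rw [h1]
  rw [← tsum_moebius]
  apply tendsto_tsum_of_dominated_convergence (bound := fun d : ℕ => 1 / (d:ℝ) ^ 2)
  · exact Real.summable_one_div_nat_pow.mpr (by norm_num)
  · intro d
    apply Tendsto.const_mul
    have := tendsto_div (d ^ 2)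
    push_cast at this
    exact this
  · filter_upwards [eventually_ge_atTop 1] with n hn d
    have hn0 : (0:ℝ) < n := by exact_mod_cast hn
    rw [norm_mul, Real.norm_eq_abs, Real.norm_eq_abs]
    have h2 : |((n / d ^ 2 : ℕ) : ℝ) / n| ≤ 1 / (d:ℝ) ^ 2 := by
      rw [abs_of_nonneg (by positivity), div_le_iff₀ hn0]
      have : ((n / d ^ 2 : ℕ) : ℝ) ≤ n / ((d ^ 2 : ℕ) : ℝ) := Nat.cast_div_le
      push_cast at this
      calc ((n / d ^ 2 : ℕ) : ℝ) ≤ n / (d:ℝ) ^ 2 := this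
        _ = _ := by ring
    calc |(μ d : ℝ)| * |((n / d ^ 2 : ℕ) : ℝ) / n| ≤ 1 * (1 / (d:ℝ) ^ 2) :=
          mul_le_mul (moebius_abs_le d) h2 (abs_nonneg _) (by norm_num)
      _ = _ := one_mul _

end Pool.Agent.helper91.SqfreeDensity
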